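import Mathlib

/-!
Project SMITH without rational 2-torsion (MP_48b749_nt), block J: the three final estimates.
-/

set_option autoImplicit false

open Finset

namespace Pool.Agent.SmN.J

theorem pow_exp {θ c0 L : ℝ} (hθ0 : 0 < θ) (hθ1 : θ ≤ 1) {A : ℕ} (hA : c0 * L ≤ A) :
    θ ^ A ≤ Real.exp (-(-Real.log θ * (c0 * L))) := by
  have h1 : θ ^ A = Real.exp (A * Real.log θ) := by
    rw [Real.exp_nat_mul, Real.exp_log hθ0]
  rw [h1]
  refine Real.exp_le_exp.2 ?_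
  have := Real.log_nonpos hθ0.le hθ1
  nlinarith

theorem est1 {ε pts Z v L c0 l1 E b θ1 : ℝ} {ns A : ℕ} (hpts : 0 ≤ pts) (hZ : 0 ≤ Z)
    (hv : 1 < v) (hE : E ≤ 2) (hb0 : 0 ≤ b) (hb : b ≤ θ1)
    (hθ0 : 0 < θ1) (hθ1 : θ1 ≤ 1) (hl1 : l1 = -Real.log θ1) (hA : c0 * L ≤ A)
    (hns : (ns : ℝ) ≤ c0 * l1 / (2 * Real.log v) * L)
    (hε : Z * 2 * Real.exp (-(c0 * l1 / 2 * L)) ≤ ε / 3) :
    Z * v ^ ns * (E * b ^ A * pts) ≤ ε / 3 * pts := by
  have hlv : 0 < Real.log v := Real.log_pos hv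
  have h1 : v ^ ns ≤ Real.exp (c0 * l1 / 2 * L) := by
    have h2 : v ^ ns = Real.exp (ns * Real.log v) := by
      rw [Real.exp_nat_mul, Real.exp_log (by linarith)]
    rw [h2]
    refine Real.exp_le_exp.2 ?_
    calc (ns : ℝ) * Real.log v ≤ c0 * l1 / (2 * Real.log v) * L * Real.log v :=
          mul_le_mul_of_nonneg_right hns hlv.le
      _ = _ := by field_simp
  have h3 : b ^ A ≤ Real.exp (-(l1 * (c0 * L))) := by
    rw [hl1]
    exact (pow_le_pow_left₀ hb0 hb A).trans (pow_exp hθ0 hθ1 hA)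
  have h4 : Real.exp (c0 * l1 / 2 * L) * Real.exp (-(l1 * (c0 * L))) =
      Real.exp (-(c0 * l1 / 2 * L)) := by
    rw [← Real.exp_add]
    congr 1
    ring
  have hbA : 0 ≤ b ^ A := pow_nonneg hb0 A
  have hvn : 0 ≤ v ^ ns := pow_nonneg (by linarith) ns
  calc Z * v ^ ns * (E * b ^ A * pts) = (Z * E * (v ^ ns * b ^ A)) * pts := by ring
    _ ≤ (Z * 2 * Real.exp (-(c0 * l1 / 2 * L))) * pts := by
        refine mul_le_mul_of_nonneg_right ?_ hpts
        rw [← h4]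
        exact mul_le_mul (mul_le_mul_of_nonneg_left hE hZ)
          (mul_le_mul h1 h3 hbA (Real.exp_pos _).le) (mul_nonneg hvn hbA) (by positivity)
    _ ≤ _ := mul_le_mul_of_nonneg_right hε hpts

theorem est2 {ε pts Z v E kb T : ℝ} (hε : 0 < ε) (hpts : 0 ≤ pts) (hZ : 0 ≤ Z) (hv : 0 ≤ v)
    (hE : E ≤ 2) (hT : 12 * Z * v / ε + kb + 1 ≤ T) :
    2 * Z * v * (E * pts) / (T - kb) ≤ ε / 3 * pts := by
  have h1 : 0 ≤ 12 * Z * v / ε := by positivity
  have h2 : 0 < T - kb := by linarith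
  rw [div_le_iff₀ h2]
  have h3 : 12 * Z * v ≤ ε * (T - kb) := by
    have h4 : 12 * Z * v / ε ≤ T - kb := by linarith
    rw [div_le_iff₀ hε] at h4
    linarith
  have h5 : 2 * Z * v * (E * pts) ≤ 2 * Z * v * (2 * pts) :=
    mul_le_mul_of_nonneg_left (mul_le_mul_of_nonneg_right hE hpts) (by positivity)
  have h6 : 12 * Z * v * pts ≤ ε * (T - kb) * pts := mul_le_mul_of_nonneg_right h3 hpts
  nlinarith

theorem est3 {ε pts Z v L c0 lθ E κ η θ : ℝ} {k A R : ℕ} (hpts : 0 ≤ pts) (hZ : 1 ≤ Z)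
    (hv : 1 ≤ v) (hE0 : 0 ≤ E) (hE : E ≤ 2) (hκ : 0 < κ) (hκ1 : κ ≤ 1)
    (hη0 : 0 ≤ η) (hη : η ≤ κ / (4 * v ^ R)) (hθ : θ = 1 - κ / (4 * v ^ R))
    (hθ0 : 0 < θ) (hθ1 : θ ≤ 1) (hlθ : lθ = -Real.log θ) (hA : c0 * L ≤ A)
    (hk : (k : ℝ) ≤ c0 * lθ / (4 * Real.log 2) * (2 * L) + 1)
    (hε : (R + 1) * ((2 ^ (R * R) * Z ^ R * v ^ (R * R) * v ^ R) * (2 * 2)) *
      Real.exp (-(c0 * lθ / 2 * L)) ≤ ε / 3) :
    ∑ r ∈ Finset.range (R + 1), 2 ^ (r * r) * Z ^ r * v ^ (r * r) * (v ^ r *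
      (2 ^ k * (E * (1 + η - κ / (2 * v ^ r)) ^ A * pts))) ≤ ε / 3 * pts := by
  have hl2 : 0 < Real.log 2 := Real.log_pos (by norm_num)
  have h1 : (2 : ℝ) ^ k ≤ 2 * Real.exp (c0 * lθ / 2 * L) := by
    have h2 : (2 : ℝ) ^ k = Real.exp (k * Real.log 2) := by
      rw [Real.exp_nat_mul, Real.exp_log (by norm_num)]
    have h3 : 2 * Real.exp (c0 * lθ / 2 * L) = Real.exp (Real.log 2 + c0 * lθ / 2 * L) := by
      rw [Real.exp_add, Real.exp_log (by norm_num)]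
    rw [h2, h3]
    refine Real.exp_le_exp.2 ?_
    calc (k : ℝ) * Real.log 2 ≤ (c0 * lθ / (4 * Real.log 2) * (2 * L) + 1) * Real.log 2 :=
          mul_le_mul_of_nonneg_right hk hl2.le
      _ = _ := by
          field_simp
          ring
  have h4 : ∀ r ≤ R, (1 + η - κ / (2 * v ^ r)) ^ A ≤ Real.exp (-(lθ * (c0 * L))) := by
    intro r hr
    have hvr : 1 ≤ v ^ r := one_le_pow₀ hv
    have hvrR : v ^ r ≤ v ^ R := pow_le_pow_right₀ hv hr
    have h5 : κ / (2 * v ^ R) ≤ κ / (2 * v ^ r) :=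
      div_le_div_of_nonneg_left hκ.le (by positivity) (by linarith)
    have h6 : κ / (2 * v ^ R) = 2 * (κ / (4 * v ^ R)) := by
      have : v ^ R ≠ 0 := by positivity
      field_simp
      norm_num
    have h7 : κ / (2 * v ^ r) ≤ 1 / 2 := by
      rw [div_le_div_iff₀ (by positivity) (by norm_num)]
      nlinarith
    rw [hlθ]
    refine (pow_le_pow_left₀ (by linarith) ?_ A).trans (pow_exp hθ0 hθ1 hA)
    rw [hθ]
    linarith
  have h8 : Real.exp (c0 * lθ / 2 * L) * Real.exp (-(lθ * (c0 * L))) =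
      Real.exp (-(c0 * lθ / 2 * L)) := by
    rw [← Real.exp_add]
    congr 1
    ring
  have h9 : ∀ r ∈ Finset.range (R + 1), 2 ^ (r * r) * Z ^ r * v ^ (r * r) * (v ^ r *
      (2 ^ k * (E * (1 + η - κ / (2 * v ^ r)) ^ A * pts))) ≤
      (2 ^ (R * R) * Z ^ R * v ^ (R * R) * v ^ R) * (2 * 2) * Real.exp (-(c0 * lθ / 2 * L)) *
        pts := by
    intro r hr
    have hr' : r ≤ R := by
      rw [Finset.mem_range] at hr
      omega
    have hrr : r * r ≤ R * R := Nat.mul_le_mul hr' hr'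
    have hvr : 1 ≤ v ^ r := one_le_pow₀ hv
    have h7 : κ / (2 * v ^ r) ≤ 1 / 2 := by
      rw [div_le_div_iff₀ (by positivity) (by norm_num)]
      nlinarith
    have hbA : 0 ≤ (1 + η - κ / (2 * v ^ r)) ^ A := pow_nonneg (by linarith) A
    have hZ0 : 0 ≤ Z := by linarith
    have hv0 : 0 ≤ v := by linarith
    have e1 : 2 ^ (r * r) * Z ^ r * v ^ (r * r) * v ^ r ≤
        2 ^ (R * R) * Z ^ R * v ^ (R * R) * v ^ R := by
      refine mul_le_mul (mul_le_mul (mul_le_mul ?_ ?_ (by positivity) (by positivity)) ?_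
        (by positivity) (by positivity)) ?_ (by positivity) (by positivity)
      · exact pow_le_pow_right₀ (by norm_num) hrr
      · exact pow_le_pow_right₀ hZ hr'
      · exact pow_le_pow_right₀ hv hrr
      · exact pow_le_pow_right₀ hv hr'
    calc 2 ^ (r * r) * Z ^ r * v ^ (r * r) * (v ^ r *
          (2 ^ k * (E * (1 + η - κ / (2 * v ^ r)) ^ A * pts))) =
          (2 ^ (r * r) * Z ^ r * v ^ (r * r) * v ^ r) *
          (E * (2 ^ k * (1 + η - κ / (2 * v ^ r)) ^ A)) * pts := by ring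
      _ ≤ (2 ^ (R * R) * Z ^ R * v ^ (R * R) * v ^ R) *
          (2 * ((2 * Real.exp (c0 * lθ / 2 * L)) * Real.exp (-(lθ * (c0 * L))))) * pts := by
          refine mul_le_mul_of_nonneg_right ?_ hpts
          refine mul_le_mul e1 ?_ (by positivity) (by positivity)
          refine mul_le_mul hE ?_ (by positivity) (by norm_num)
          exact mul_le_mul h1 (h4 r hr') hbA (by positivity)
      _ = _ := by
          rw [mul_assoc 2 (Real.exp (c0 * lθ / 2 * L)), h8]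
          ring
  refine (Finset.sum_le_sum h9).trans ?_
  rw [Finset.sum_const, Finset.card_range, nsmul_eq_mul]
  calc _ = (((R : ℝ) + 1) * ((2 ^ (R * R) * Z ^ R * v ^ (R * R) * v ^ R) * (2 * 2)) *
      Real.exp (-(c0 * lθ / 2 * L))) * pts := by
        push_cast
        ring
    _ ≤ _ := mul_le_mul_of_nonneg_right hε hpts

end Pool.Agent.SmN.J
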