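import Pool.Agent.Lib.SmN.J.Step

/-!
Project SMITH without rational 2-torsion (MP_48b749_nt), block J: the number of families of places
(with given types) satisfying the equations of one family of codes in echelon form, outside the
pivots. Induction on the number of places, removing the last (largest) one.
-/

set_option autoImplicit false

open Module

namespace Pool.Agent.SmN.J

variable {V α I : Type} [AddCommGroup V] [Module (ZMod 2) V]

/-- The equation of the code `i` at the place `q`, tested with `v`. -/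
def eqn (e : V →ₗ[ZMod 2] V →ₗ[ZMod 2] ZMod 2) (m : α → α → V →ₗ[ZMod 2] V →ₗ[ZMod 2] ZMod 2)
    (l : α → α → ZMod 2) (self : α → V → V → ZMod 2) (z : I → ℕ → V → ZMod 2) (x : I → ℕ → V)
    (η : ℕ → ZMod 2) {M : ℕ} (p : Fin M → α) (i : I) (q : Fin M) (v : V) : ZMod 2 :=
  z i q v + self (p q) v (x i q) +
    ∑ q' : Fin M, (if q' = q then 0 else
      m (p q) (p q') v (x i q') + l (p q) (p q') * e v (x i q)) + η q * e v (x i q)

/-- The data for the counting theorem. -/
structure CD (V α I : Type) [AddCommGroup V] [Module (ZMod 2) V] where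
  e : V →ₗ[ZMod 2] V →ₗ[ZMod 2] ZMod 2
  F : ℕ → Submodule (ZMod 2) V
  X : ℕ → Set α
  m : α → α → V →ₗ[ZMod 2] V →ₗ[ZMod 2] ZMod 2
  l : α → α → ZMod 2
  self : α → V → V → ZMod 2
  self0 : ∀ a v, self a v 0 = 0
  z : I → ℕ → V → ZMod 2
  R : ℕ → ℕ → V → V → ZMod 2
  R' : ℕ → ℕ → ZMod 2
  x : I → ℕ → V
  top : I → ℕ
  ns : ℕ
  c : ℕ → ℝ
  c0 : ∀ j, 0 ≤ c j
  hX : ∀ j, (X j).Finite
  hx : ∀ i j, x i j ∈ F j
  htop : ∀ i, ns ≤ top i
  hx0 : ∀ i j, top i < j → x i j = 0
  hind : ∀ t, LinearIndependent (ZMod 2) (fun i : {i // top i = t} => x i t)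
  recip : ∀ i j, i < j → ∀ a ∈ X i, ∀ b ∈ X j, ∀ v ∈ F i, ∀ y ∈ F j,
    m a b v y + m b a y v = R i j v y
  recip' : ∀ i j, i < j → ∀ a ∈ X i, ∀ b ∈ X j, l a b + l b a = R' i j
  small : ∀ j < ns, Nat.card (X j) ≤ 1
  NI : ∀ M, ns ≤ M → ∀ p : Fin M → α, (∀ j : Fin M, p j ∈ X j) →
    ∀ (u : (j : Fin M) → RF (F M) (F j)) (ε : Fin M → ZMod 2),
    (Nat.card {a : α // a ∈ X M ∧ ∀ j, (m a (p j)).domRestrict₁₂ (F M) (F j) = u j ∧
      l a (p j) = ε j} : ℝ) * (2 ^ M * ∏ j : Fin M, (Nat.card (RF (F M) (F j)) : ℝ)) ≤ c M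

namespace CD

variable (C : CD V α I)

/-- The place `q` is not a pivot. -/
def NP (q : ℕ) : Prop := ∀ i, C.top i ≠ q

/-- The families of places satisfying the equations. -/
def Sol (M : ℕ) (η : ℕ → ZMod 2) (p : Fin M → α) : Prop :=
  (∀ j : Fin M, p j ∈ C.X j) ∧ ∀ i, C.top i < M → ∀ q : Fin M, C.NP q → ∀ v ∈ C.F q,
    eqn C.e C.m C.l C.self C.z C.x η p i q v = 0

theorem finite_pi (M : ℕ) (P : (Fin M → α) → Prop) (h : ∀ p, P p → ∀ j : Fin M, p j ∈ C.X j) :
    Finite {p : Fin M → α // P p} := by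
  have : ∀ j : Fin M, Finite (C.X j) := fun j => (C.hX j).to_subtype
  exact Finite.of_injective (fun p : {p : Fin M → α // P p} =>
    (fun j => ⟨p.1 j, h p.1 p.2 j⟩ : (j : Fin M) → C.X j)) (by
      intro p p' h
      apply Subtype.ext
      funext j
      exact congrArg Subtype.val (congrFun h j))

theorem eqn_castSucc (η : ℕ → ZMod 2) {M : ℕ} (p : Fin (M + 1) → α) (i : I) (q : Fin M) (v : V) :
    eqn C.e C.m C.l C.self C.z C.x η p i q.castSucc v =
      eqn C.e C.m C.l C.self C.z C.x η (fun j : Fin M => p j.castSucc) i q v +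
      (C.m (p q.castSucc) (p (Fin.last M)) v (C.x i M) +
        C.l (p q.castSucc) (p (Fin.last M)) * C.e v (C.x i q)) := by
  unfold eqn
  rw [Fin.sum_univ_castSucc, if_neg (Fin.castSucc_lt_last q).ne']
  simp only [Fin.val_castSucc, Fin.castSucc_inj, Fin.val_last]
  abel

theorem eqn_last (η : ℕ → ZMod 2) {M : ℕ} (p : Fin (M + 1) → α) (i : I) (v : V)
    (h : C.x i M = 0) :
    eqn C.e C.m C.l C.self C.z C.x η p i (Fin.last M) v =
      C.z i M v + ∑ j : Fin M, C.m (p (Fin.last M)) (p j.castSucc) v (C.x i j) := by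
  unfold eqn
  rw [Fin.sum_univ_castSucc, if_pos rfl]
  simp only [Fin.val_castSucc, Fin.val_last, h, C.self0, map_zero, mul_zero, add_zero]
  congr 1
  refine Finset.sum_congr rfl fun j _ => ?_
  rw [if_neg (Fin.castSucc_lt_last j).ne]

/-- The conditions on the last place, in terms of the lower places. -/
def Up (η : ℕ → ZMod 2) {M : ℕ} (p : Fin M → α) (ε : Fin M → ZMod 2) (a : α) : Prop :=
  a ∈ C.X M ∧ (∀ j, C.l a (p j) = ε j) ∧
  (∀ i, C.top i = M → ∀ q : Fin M, C.NP q → ∀ v ∈ C.F q, C.m a (p q) (C.x i M) v =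
    eqn C.e C.m C.l C.self C.z C.x η p i q v + (ε q + C.R' q M) * C.e v (C.x i q) +
      C.R q M v (C.x i M)) ∧
  (C.NP M → ∀ i, C.top i < M → ∀ v ∈ C.F M,
    ∑ j : Fin M, C.m a (p j) v (C.x i j) = C.z i M v)

theorem two (a : ZMod 2) : a + a = 0 := by revert a; decide

theorem eq_of_add (a b : ZMod 2) (h : a + b = 0) : a = b := by revert a b; decide

/-- The twist vector for the lower places. -/
def tw (η : ℕ → ZMod 2) {M : ℕ} (ε : Fin M → ZMod 2) : ℕ → ZMod 2 :=
  fun q => η q + (if h : q < M then ε ⟨q, h⟩ else 0) + C.R' q M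

theorem sol_split (η : ℕ → ZMod 2) {M : ℕ} (p : Fin (M + 1) → α) (h : C.Sol (M + 1) η p) :
    C.Sol M (C.tw η fun j => C.l (p (Fin.last M)) (p j.castSucc)) (fun j => p j.castSucc) ∧
    C.Up η (fun j : Fin M => p j.castSucc) (fun j => C.l (p (Fin.last M)) (p j.castSucc))
      (p (Fin.last M)) := by
  obtain ⟨hX, he⟩ := h
  have hl : ∀ q : Fin M, C.l (p q.castSucc) (p (Fin.last M)) =
      C.l (p (Fin.last M)) (p q.castSucc) + C.R' q M := by
    intro q
    have h1 := C.recip' q M q.2 _ (hX q.castSucc) _ (hX (Fin.last M))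
    rw [← h1]
    generalize C.l (p q.castSucc) (p (Fin.last M)) = a
    generalize C.l (p (Fin.last M)) (p q.castSucc) = b
    revert a b
    decide
  refine ⟨⟨fun j => hX j.castSucc, fun i hi q hq v hv => ?_⟩, hX (Fin.last M), fun j => rfl,
    fun i hi q hq v hv => ?_, fun hM i hi v hv => ?_⟩
  · have h1 := he i (hi.trans M.lt_succ_self) q.castSucc hq v hv
    rw [C.eqn_castSucc, C.hx0 i M hi, map_zero, zero_add, hl] at h1
    rw [← h1]
    unfold eqn tw
    have h2 : (q : ℕ) < M := q.2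
    simp only [h2, dif_pos]
    ring
  · have h1 := he i (hi.trans_lt M.lt_succ_self) q.castSucc hq v hv
    rw [C.eqn_castSucc, hl] at h1
    have h2 := C.recip q M q.2 _ (hX q.castSucc) _ (hX (Fin.last M)) v hv (C.x i M) (C.hx i M)
    rw [← h2]
    generalize C.m (p q.castSucc) (p (Fin.last M)) v (C.x i M) = a at h1 ⊢
    generalize C.m (p (Fin.last M)) (p q.castSucc) (C.x i M) v = b at h1 ⊢
    generalize eqn C.e C.m C.l C.self C.z C.x η (fun j : Fin M => p j.castSucc) i q v = c at h1 ⊢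
    beta_reduce
    generalize C.l (p (Fin.last M)) (p q.castSucc) = d at h1 ⊢
    generalize C.R' q M = f at h1 ⊢
    generalize C.e v (C.x i q) = g at h1 ⊢
    revert a b c d f g
    decide
  · have h1 := he i (hi.trans M.lt_succ_self) (Fin.last M) hM v hv
    rw [C.eqn_last η p i v (C.hx0 i M hi)] at h1
    exact (eq_of_add _ _ h1).symm

variable [Finite V] [Finite I]

open Classical in
/-- The size of the target of the new equations. -/
noncomputable def tg (M : ℕ) : ℕ :=
  if C.NP M then Nat.card (C.F M) ^ Nat.card {i // C.top i < M}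
  else (∏ q ∈ (Finset.range M).filter C.NP, Nat.card (C.F q)) ^ Nat.card {i // C.top i = M}

omit [Finite I] in
theorem card_res (M : ℕ) (S : Set ((j : Fin M) → RF (C.F M) (C.F j)))
    (hS : Nat.card S * C.tg M ≤ ∏ j : Fin M, Nat.card (RF (C.F M) (C.F j))) (hM : C.ns ≤ M)
    (p : Fin M → α) (hp : ∀ j : Fin M, p j ∈ C.X j) (ε : Fin M → ZMod 2) :
    (Nat.card {a : α // a ∈ C.X M ∧ (∀ j, C.l a (p j) = ε j) ∧
      (fun j => (C.m a (p j)).domRestrict₁₂ (C.F M) (C.F j)) ∈ S} : ℝ) *
      (2 ^ M * C.tg M) ≤ C.c M := by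
  classical
  have hfin : ∀ j : Fin M, Finite (RF (C.F M) (C.F j)) := fun j => finite_RF _ _
  have hXM := (C.hX M).to_subtype
  set A := {a : α // a ∈ C.X M ∧ (∀ j, C.l a (p j) = ε j) ∧
      (fun j => (C.m a (p j)).domRestrict₁₂ (C.F M) (C.F j)) ∈ S} with hA
  let B : S → Type := fun u => {a : α // a ∈ C.X M ∧ ∀ j,
    (C.m a (p j)).domRestrict₁₂ (C.F M) (C.F j) = u.1 j ∧ C.l a (p j) = ε j}
  have hBfin : ∀ u : S, Finite (B u) := fun u =>
    Finite.of_injective (fun a : B u => (⟨a.1, a.2.1⟩ : C.X M)) (by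
      intro a b h
      exact Subtype.ext (congrArg (fun t : C.X M => (t : α)) h))
  have h1 : Nat.card A ≤ Nat.card (Σ u : S, B u) := by
    refine Nat.card_le_card_of_injective (fun a : A => (⟨⟨_, a.2.2.2⟩,
      ⟨a.1, a.2.1, fun j => ⟨rfl, a.2.2.1 j⟩⟩⟩ : Σ u : S, B u)) ?_
    intro a b h
    have h2 := congrArg (fun t : (Σ u : S, B u) => (t.2 : α)) h
    exact Subtype.ext h2
  have hSf : Fintype S := Fintype.ofFinite S
  rw [Nat.card_sigma] at h1
  set D : ℝ := ∏ j : Fin M, (Nat.card (RF (C.F M) (C.F j)) : ℝ) with hD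
  have hDpos : 0 < D := Finset.prod_pos fun j _ => by exact_mod_cast Nat.card_pos
  have h3 : (Nat.card A : ℝ) * (2 ^ M * D) ≤ Nat.card S * C.c M := by
    calc (Nat.card A : ℝ) * (2 ^ M * D) ≤ (∑ u : S, Nat.card (B u) : ℕ) * (2 ^ M * D) := by
          refine mul_le_mul_of_nonneg_right (by exact_mod_cast h1) (by positivity)
      _ = ∑ u : S, (Nat.card (B u) : ℝ) * (2 ^ M * D) := by
          rw [Nat.cast_sum, Finset.sum_mul]
      _ ≤ ∑ _u : S, C.c M := Finset.sum_le_sum fun u _ => C.NI M hM p hp u.1 ε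
      _ = Nat.card S * C.c M := by
          rw [Finset.sum_const, Finset.card_univ, nsmul_eq_mul, Nat.card_eq_fintype_card]
  have h4 : (Nat.card S : ℝ) * C.tg M ≤ D := by
    rw [hD]
    exact_mod_cast hS
  have hc : 0 ≤ C.c M := C.c0 M
  have h6 : (Nat.card A : ℝ) * (2 ^ M * C.tg M) * D ≤ C.c M * D := by
    calc (Nat.card A : ℝ) * (2 ^ M * C.tg M) * D = (Nat.card A : ℝ) * (2 ^ M * D) * C.tg M := by
          ring
      _ ≤ Nat.card S * C.c M * C.tg M := mul_le_mul_of_nonneg_right h3 (Nat.cast_nonneg _)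
      _ = C.c M * (Nat.card S * C.tg M) := by ring
      _ ≤ C.c M * D := mul_le_mul_of_nonneg_left h4 hc
  exact le_of_mul_le_mul_right h6 hDpos

theorem card_Up (η : ℕ → ZMod 2) {M : ℕ} (hM : C.ns ≤ M) (p : Fin M → α)
    (hp : ∀ j : Fin M, p j ∈ C.X j) (ε : Fin M → ZMod 2) :
    (Nat.card {a : α // C.Up η p ε a} : ℝ) * (2 ^ M * C.tg M) ≤ C.c M := by
  classical
  have hXM := (C.hX M).to_subtype
  -- the set of restricted forms
  obtain ⟨S, hS, hSA⟩ : ∃ S : Set ((j : Fin M) → RF (C.F M) (C.F j)),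
      Nat.card S * C.tg M ≤ ∏ j : Fin M, Nat.card (RF (C.F M) (C.F j)) ∧
      ∀ a, C.Up η p ε a → (fun j => (C.m a (p j)).domRestrict₁₂ (C.F M) (C.F j)) ∈ S := by
    by_cases hNP : C.NP M
    · refine ⟨{u : (j : Fin M) → RF (C.F M) (C.F j) | ∀ i : {i // C.top i < M}, ∀ v : C.F M,
        ∑ j : Fin M, u j v ⟨C.x i j, C.hx i j⟩ = C.z i M v}, ?_, ?_⟩
      · rw [tg, if_pos hNP]
        refine card_npiv (I := {i // C.top i < M}) C.F (C.F M) (fun i => C.x i)
          (fun i => C.hx i) (fun i => C.top i) (fun i => i.2) (fun i => C.hx0 i) (fun t => ?_)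
          (fun i => C.z i M)
        exact (C.hind t).comp (fun i : {i : {i // C.top i < M} // C.top i = t} =>
          (⟨i.1.1, i.2⟩ : {i // C.top i = t})) (by
            intro i j h
            exact Subtype.ext (Subtype.ext (congrArg (fun t : {i // C.top i = t} => (t : I)) h)))
      · intro a ha i v
        have h1 := ha.2.2.2 hNP i.1 i.2 v.1 v.2
        simpa [LinearMap.domRestrict₁₂_apply] using h1
    · refine ⟨{u : (j : Fin M) → RF (C.F M) (C.F j) | ∀ q ∈ Finset.univ.filter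
        (fun q : Fin M => C.NP q), ∀ i : {i // C.top i = M}, ∀ v : C.F q,
        u q ⟨C.x i M, C.hx i M⟩ v = eqn C.e C.m C.l C.self C.z C.x η p i.1 q v +
          (ε q + C.R' q M) * C.e v (C.x i q) + C.R q M v (C.x i M)}, ?_, ?_⟩
      · rw [tg, if_neg hNP]
        have h1 := card_piv (I := {i // C.top i = M}) (fun j : Fin M => C.F j) (C.F M)
          (fun i => C.x i M) (fun i => C.hx i M) (C.hind M)
          (Finset.univ.filter (fun q : Fin M => C.NP q))
          (fun q i v => eqn C.e C.m C.l C.self C.z C.x η p i.1 q v +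
            (ε q + C.R' q M) * C.e v (C.x i q) + C.R q M v (C.x i M))
        have h2 : ∏ q ∈ (Finset.range M).filter C.NP, Nat.card (C.F q) =
            ∏ q ∈ Finset.univ.filter (fun q : Fin M => C.NP q), Nat.card (C.F q) := by
          rw [Finset.prod_filter, Finset.prod_filter,
            ← Fin.prod_univ_eq_prod_range (fun q => if C.NP q then Nat.card (C.F q) else 1)]
        rw [h2]
        exact h1
      · intro a ha q hq i v
        have h1 := ha.2.2.1 i.1 i.2 q (Finset.mem_filter.1 hq).2 v.1 v.2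
        simpa [LinearMap.domRestrict₁₂_apply] using h1
  refine le_trans (mul_le_mul_of_nonneg_right ?_ (by positivity)) (C.card_res M S hS hM p hp ε)
  have hfin : Finite {a : α // a ∈ C.X M ∧ (∀ j, C.l a (p j) = ε j) ∧
      (fun j => (C.m a (p j)).domRestrict₁₂ (C.F M) (C.F j)) ∈ S} :=
    Finite.of_injective (fun a => (⟨a.1, a.2.1⟩ : C.X M)) (by
      intro a b h
      exact Subtype.ext (congrArg (fun t : C.X M => (t : α)) h))
  exact_mod_cast Nat.card_le_card_of_injective
    (fun a : {a : α // C.Up η p ε a} => (⟨a.1, a.2.1, a.2.2.1, hSA a.1 a.2⟩ :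
      {a : α // a ∈ C.X M ∧ (∀ j, C.l a (p j) = ε j) ∧
      (fun j => (C.m a (p j)).domRestrict₁₂ (C.F M) (C.F j)) ∈ S})) (by
      intro a b h
      exact Subtype.ext (congrArg (fun t => (t.1 : α)) h))

theorem count_step (M : ℕ) (hM : C.ns ≤ M) (K : ℝ)
    (hK : ∀ η, (Nat.card {p : Fin M → α // C.Sol M η p} : ℝ) ≤ K) (η : ℕ → ZMod 2) :
    (Nat.card {p : Fin (M + 1) → α // C.Sol (M + 1) η p} : ℝ) * C.tg M ≤ C.c M * K := by
  classical
  have hXM := (C.hX M).to_subtype
  have hf1 : ∀ η, Finite {p : Fin M → α // C.Sol M η p} := fun η =>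
    C.finite_pi M _ fun p hp => hp.1
  have hf2 : ∀ (p : Fin M → α) (ε : Fin M → ZMod 2), Finite {a : α // C.Up η p ε a} :=
    fun p ε => Finite.of_injective (fun a : {a : α // C.Up η p ε a} => (⟨a.1, a.2.1⟩ : C.X M)) (by
      intro a b h
      exact Subtype.ext (congrArg (fun t : C.X M => (t : α)) h))
  have h1 : Nat.card {p : Fin (M + 1) → α // C.Sol (M + 1) η p} ≤
      Nat.card (Σ ε : Fin M → ZMod 2, Σ p : {p : Fin M → α // C.Sol M (C.tw η ε) p},
        {a : α // C.Up η p.1 ε a}) := by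
    refine Nat.card_le_card_of_injective (fun p : {p : Fin (M + 1) → α // C.Sol (M + 1) η p} =>
      (⟨fun j => C.l (p.1 (Fin.last M)) (p.1 j.castSucc),
        ⟨⟨fun j => p.1 j.castSucc, (C.sol_split η p.1 p.2).1⟩,
          ⟨p.1 (Fin.last M), (C.sol_split η p.1 p.2).2⟩⟩⟩ :
        Σ ε : Fin M → ZMod 2, Σ p : {p : Fin M → α // C.Sol M (C.tw η ε) p},
        {a : α // C.Up η p.1 ε a})) ?_
    intro p p' h
    have h2 := congrArg (fun t : (Σ ε : Fin M → ZMod 2,
      Σ p : {p : Fin M → α // C.Sol M (C.tw η ε) p}, {a : α // C.Up η p.1 ε a}) =>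
        (t.2.1.1, (t.2.2 : α))) h
    simp only [Prod.mk.injEq] at h2
    apply Subtype.ext
    funext j
    refine Fin.lastCases ?_ (fun j => ?_) j
    · exact h2.2
    · exact congrFun h2.1 j
  have h2 : (Nat.card (Σ ε : Fin M → ZMod 2, Σ p : {p : Fin M → α // C.Sol M (C.tw η ε) p},
        {a : α // C.Up η p.1 ε a}) : ℝ) * (2 ^ M * C.tg M) ≤ 2 ^ M * (K * C.c M) := by
    rw [Nat.card_sigma, Nat.cast_sum, Finset.sum_mul]
    have h3 : ∀ ε : Fin M → ZMod 2, (Nat.card (Σ p : {p : Fin M → α // C.Sol M (C.tw η ε) p},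
        {a : α // C.Up η p.1 ε a}) : ℝ) * (2 ^ M * C.tg M) ≤ K * C.c M := by
      intro ε
      have := Fintype.ofFinite {p : Fin M → α // C.Sol M (C.tw η ε) p}
      rw [Nat.card_sigma, Nat.cast_sum, Finset.sum_mul]
      calc ∑ p : {p : Fin M → α // C.Sol M (C.tw η ε) p},
            (Nat.card {a : α // C.Up η p.1 ε a} : ℝ) * (2 ^ M * C.tg M) ≤
            ∑ _p : {p : Fin M → α // C.Sol M (C.tw η ε) p}, C.c M :=
            Finset.sum_le_sum fun p _ => C.card_Up η hM p.1 p.2.1 ε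
        _ = (Nat.card {p : Fin M → α // C.Sol M (C.tw η ε) p} : ℝ) * C.c M := by
            rw [Finset.sum_const, Finset.card_univ, nsmul_eq_mul, Nat.card_eq_fintype_card]
        _ ≤ K * C.c M := by
            exact mul_le_mul_of_nonneg_right (hK _) (C.c0 M)
    calc _ ≤ ∑ _ε : Fin M → ZMod 2, K * C.c M := Finset.sum_le_sum fun ε _ => h3 ε
      _ = 2 ^ M * (K * C.c M) := by
          rw [Finset.sum_const, Finset.card_univ, nsmul_eq_mul]
          simp [ZMod.card]
  have h4 : (Nat.card {p : Fin (M + 1) → α // C.Sol (M + 1) η p} : ℝ) * (2 ^ M * C.tg M) ≤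
      2 ^ M * (K * C.c M) := by
    refine le_trans (mul_le_mul_of_nonneg_right ?_ (by positivity)) h2
    exact_mod_cast h1
  have h5 : (0 : ℝ) < 2 ^ M := by positivity
  have h6 : 2 ^ M * ((Nat.card {p : Fin (M + 1) → α // C.Sol (M + 1) η p} : ℝ) * C.tg M) ≤
      2 ^ M * (C.c M * K) := by
    calc _ = (Nat.card {p : Fin (M + 1) → α // C.Sol (M + 1) η p} : ℝ) * (2 ^ M * C.tg M) := by ring
      _ ≤ 2 ^ M * (K * C.c M) := h4
      _ = _ := by ring
  exact le_of_mul_le_mul_left h6 h5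

open Classical in
/-- The product of the sizes of the targets. -/
noncomputable def BB (M : ℕ) : ℕ :=
  ∏ q ∈ (Finset.range M).filter C.NP, Nat.card (C.F q) ^ Nat.card {i // C.top i < M}

omit [Finite V] in
theorem BB_succ (M : ℕ) : C.BB (M + 1) = C.BB M * C.tg M := by
  classical
  have := Fintype.ofFinite I
  unfold BB tg
  by_cases hNP : C.NP M
  · have h1 : Nat.card {i // C.top i < M + 1} = Nat.card {i // C.top i < M} := by
      refine Nat.card_congr (Equiv.subtypeEquivRight fun i => ?_)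
      have := hNP i
      omega
    rw [if_pos hNP, Finset.range_add_one, Finset.filter_insert, if_pos hNP,
      Finset.prod_insert (by simp), h1, mul_comm]
  · have h1 : Nat.card {i // C.top i < M + 1} =
        Nat.card {i // C.top i < M} + Nat.card {i // C.top i = M} := by
      rw [← Nat.card_sum]
      refine Nat.card_congr ?_
      refine (Equiv.subtypeEquivRight (q := fun i => C.top i < M ∨ C.top i = M)
        fun i => by omega).trans ?_
      exact subtypeOrEquiv _ _ (by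
        rw [Pi.disjoint_iff]
        intro i
        simp only [Prop.disjoint_iff]
        omega)
    rw [if_neg hNP, Finset.range_add_one, Finset.filter_insert, if_neg hNP, h1,
      ← Finset.prod_pow, ← Finset.prod_mul_distrib]
    exact Finset.prod_congr rfl fun q _ => pow_add _ _ _

omit [Finite V] [Finite I] in
theorem card_base (η : ℕ → ZMod 2) :
    (Nat.card {p : Fin C.ns → α // C.Sol C.ns η p} : ℝ) * C.BB C.ns ≤ 1 := by
  classical
  have h0 : Nat.card {i // C.top i < C.ns} = 0 := by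
    rw [Nat.card_eq_zero]
    left
    exact ⟨fun i => absurd (C.htop i.1) (not_le.2 i.2)⟩
  have h1 : C.BB C.ns = 1 := by
    unfold BB
    rw [h0]
    simp
  rw [h1, Nat.cast_one, mul_one]
  have hf : ∀ j : Fin C.ns, Finite (C.X j) := fun j => (C.hX j).to_subtype
  have h2 : Nat.card {p : Fin C.ns → α // C.Sol C.ns η p} ≤ Nat.card ((j : Fin C.ns) → C.X j) := by
    refine Nat.card_le_card_of_injective (fun p : {p : Fin C.ns → α // C.Sol C.ns η p} =>
      (fun j => ⟨p.1 j, p.2.1 j⟩ : (j : Fin C.ns) → C.X j)) ?_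
    intro p p' h
    apply Subtype.ext
    funext j
    exact congrArg Subtype.val (congrFun h j)
  rw [Nat.card_pi] at h2
  have h3 : ∏ j : Fin C.ns, Nat.card (C.X j) ≤ 1 :=
    Finset.prod_le_one' fun j _ => C.small j j.2
  exact_mod_cast h2.trans h3

/-- **Main counting theorem.** -/
theorem count_main (M : ℕ) (hM : C.ns ≤ M) (η : ℕ → ZMod 2) :
    (Nat.card {p : Fin M → α // C.Sol M η p} : ℝ) * C.BB M ≤ ∏ j ∈ Finset.Ico C.ns M, C.c j := by
  classical
  have hB : ∀ M, 0 < C.BB M := by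
    intro M
    unfold BB
    exact Finset.prod_pos fun q _ => pow_pos Nat.card_pos _
  have key : ∀ M, C.ns ≤ M → ∀ η : ℕ → ZMod 2,
      (Nat.card {p : Fin M → α // C.Sol M η p} : ℝ) ≤
        (∏ j ∈ Finset.Ico C.ns M, C.c j) / C.BB M := by
    intro M hM
    induction M, hM using Nat.le_induction with
    | base =>
      intro η
      rw [Finset.Ico_self, Finset.prod_empty, le_div_iff₀ (by exact_mod_cast hB _)]
      exact C.card_base η
    | succ M hM ih =>
      intro η
      have h1 := C.count_step M hM _ ih η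
      have h2 : (0 : ℝ) < C.BB M := by exact_mod_cast hB _
      have h3 : (0 : ℝ) < C.BB (M + 1) := by exact_mod_cast hB _
      rw [le_div_iff₀ h3, C.BB_succ, Nat.cast_mul, Finset.prod_Ico_succ_top hM]
      rw [mul_div_assoc'] at h1
      rw [le_div_iff₀ h2] at h1
      calc _ = (Nat.card {p : Fin (M + 1) → α // C.Sol (M + 1) η p} : ℝ) * C.tg M * C.BB M := by
            ring
        _ ≤ _ := h1
        _ = _ := by ring
  have h2 : (0 : ℝ) < C.BB M := by exact_mod_cast hB _
  exact (le_div_iff₀ h2).1 (key M hM η)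

end CD

end Pool.Agent.SmN.J
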