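import Mathlib

/-!
Project SMITH without rational 2-torsion (MP_48b749_nt), block J: linear algebra over `F_2`.
Fibres of a surjective additive map; surjectivity of the two evaluation maps used in the
counting of codes in echelon form.
-/

set_option autoImplicit false

open Module

namespace Pool.Agent.SmN.J

theorem card_fib {U T : Type} [AddCommGroup U] [AddCommGroup T] [Finite U] (Y : U →+ T)
    (hY : Function.Surjective Y) (C : Set U) (hC : ∀ u ∈ C, ∀ u' ∈ C, Y u = Y u') :
    Nat.card C * Nat.card T ≤ Nat.card U := by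
  have hker : Nat.card Y.ker * Nat.card T = Nat.card U := by
    have h1 := AddSubgroup.card_mul_index Y.ker
    rw [AddSubgroup.index_ker, AddMonoidHom.range_eq_top.2 hY] at h1
    rw [← h1]
    simp
  rw [← hker]
  refine Nat.mul_le_mul_right _ ?_
  rcases C.eq_empty_or_nonempty with h0 | ⟨u0, hu0⟩
  · simp [h0]
  · refine Nat.card_le_card_of_injective
      (fun u : C => (⟨u.1 - u0, by
        rw [AddMonoidHom.mem_ker, map_sub, hC u.1 u.2 u0 hu0, sub_self]⟩ : Y.ker)) ?_
    intro u u' h
    simp only [Subtype.mk.injEq, sub_left_inj] at h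
    exact Subtype.ext h

variable {V : Type} [AddCommGroup V] [Module (ZMod 2) V] [Finite V]

theorem card_dual (F : Submodule (ZMod 2) V) :
    Nat.card (F →ₗ[ZMod 2] ZMod 2) = Nat.card F := by
  have h1 : Nat.card (Dual (ZMod 2) F) = Nat.card F := by
    rw [Module.natCard_eq_pow_finrank (K := ZMod 2) (V := Dual (ZMod 2) F),
      Module.natCard_eq_pow_finrank (K := ZMod 2) (V := F), Subspace.dual_finrank_eq]
  exact h1


omit [Finite V] in
/-- A linear map with prescribed values on a linearly independent family. -/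
theorem exists_lin {I W : Type} [AddCommGroup W] [Module (ZMod 2) W] (x : I → V)
    (hx : LinearIndependent (ZMod 2) x) (t : I → W) :
    ∃ f : V →ₗ[ZMod 2] W, ∀ i, f (x i) = t i := by
  obtain ⟨f, hf⟩ := LinearMap.exists_extend ((Basis.span hx).constr (ZMod 2) t)
  refine ⟨f, fun i => ?_⟩
  have h1 := LinearMap.congr_fun hf (Basis.span hx i)
  rw [Basis.constr_basis, LinearMap.comp_apply, Submodule.subtype_apply, Basis.span_apply] at h1
  exact h1

omit [Finite V] in
/-- The triangular system. -/
theorem exists_tri {I W : Type} [AddCommGroup W] [Module (ZMod 2) W] (x : I → ℕ → V)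
    (top : I → ℕ) (hx0 : ∀ i j, top i < j → x i j = 0)
    (hind : ∀ t, LinearIndependent (ZMod 2) (fun i : {i // top i = t} => x i t)) (t : I → W)
    (M : ℕ) :
    ∃ w : ℕ → (V →ₗ[ZMod 2] W), ∀ i, top i < M → ∑ j ∈ Finset.range M, w j (x i j) = t i := by
  induction M with
  | zero => exact ⟨0, fun i hi => absurd hi (Nat.not_lt_zero _)⟩
  | succ M ih =>
    obtain ⟨w, hw⟩ := ih
    obtain ⟨f, hf⟩ := exists_lin (fun i : {i // top i = M} => x i M) (hind M)
      (fun i => t i - ∑ j ∈ Finset.range M, w j (x i j))
    refine ⟨Function.update w M f, fun i hi => ?_⟩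
    have h1 : ∑ j ∈ Finset.range M, Function.update w M f j (x i j) =
        ∑ j ∈ Finset.range M, w j (x i j) := by
      refine Finset.sum_congr rfl fun j hj => ?_
      rw [Function.update_of_ne (Finset.mem_range.1 hj).ne]
    rw [Finset.sum_range_succ, h1, Function.update_self]
    rcases Nat.lt_succ_iff_lt_or_eq.1 hi with h | h
    · rw [hw i h, hx0 i M h, map_zero, add_zero]
    · rw [hf ⟨i, h⟩]
      abel

end Pool.Agent.SmN.J
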