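import Pool.Agent.Lib.SmN.J.Tr

/-!
Project SMITH without rational 2-torsion (MP_48b749_nt), block J: the grid of `Ds`, `T` with its
positions in order.
-/

set_option autoImplicit false

open Module Finset

namespace Pool.Agent.SmN.J

variable {G V V1 Pl : Type} [Group G] [AddCommGroup V] [DistribMulAction G V]
  [AddCommGroup V1] [Module (ZMod 2) V1] {S : Sys G V V1 Pl} {X : PSys} {cd : CData S X}

/-- The positions. -/
noncomputable def sg (Ds : Finset X.Pr) (T : Finset ℕ) : Fin (Ds.card + T.card) ≃ CData.JG Ds T :=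
  finSumFinEquiv.symm.trans (Equiv.sumCongr Ds.equivFin.symm T.equivFin.symm)

theorem sg_small (Ds : Finset X.Pr) (T : Finset ℕ) (j : Fin (Ds.card + T.card))
    (hj : (j : ℕ) < Ds.card) : ∃ P, sg Ds T j = Sum.inl P := by
  have h1 : j = Fin.castAdd T.card ⟨j, hj⟩ := rfl
  rw [h1]
  exact ⟨Ds.equivFin.symm ⟨j, hj⟩, by
    rw [sg, Equiv.trans_apply, finSumFinEquiv_symm_apply_castAdd]
    rfl⟩

theorem sg_large (Ds : Finset X.Pr) (T : Finset ℕ) (j : Fin (Ds.card + T.card))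
    (hj : Ds.card ≤ (j : ℕ)) : ∃ t, sg Ds T j = Sum.inr t := by
  have h1 : j = Fin.natAdd Ds.card ⟨j - Ds.card, by omega⟩ := by
    apply Fin.ext
    simp only [Fin.natAdd_mk]
    omega
  rw [h1]
  exact ⟨T.equivFin.symm ⟨j - Ds.card, by omega⟩, by
    rw [sg, Equiv.trans_apply, finSumFinEquiv_symm_apply_natAdd]
    rfl⟩

/-- The places of a position. -/
def YJ (cd : CData S X) (r0 : {g : G // g ∈ cd.R}) {Ds : Finset X.Pr} {T : Finset ℕ} :
    CData.JG Ds T → Set cd.Mk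
  | Sum.inl P => {(P.1, r0)}
  | Sum.inr t => {x | X.deg x.1 = t.1}

/-- The degree of a position. -/
def DJ {Ds : Finset X.Pr} {T : Finset ℕ} : CData.JG Ds T → ℕ
  | Sum.inl P => X.deg P.1
  | Sum.inr t => t.1

theorem deg_YJ {r0 : {g : G // g ∈ cd.R}} {Ds : Finset X.Pr} {T : Finset ℕ}
    (u : CData.JG Ds T) {x : cd.Mk} (hx : x ∈ YJ cd r0 u) : X.deg x.1 = DJ u := by
  rcases u with P | t
  · have h1 : x = (P.1, r0) := hx
    rw [h1]
    rfl
  · exact hx

theorem ne_YJ {r0 : {g : G // g ∈ cd.R}} {Ds : Finset X.Pr} {T : Finset ℕ}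
    (hDT : ∀ P ∈ Ds, ∀ t ∈ T, X.deg P ≠ t) {u u' : CData.JG Ds T} (huu : u ≠ u')
    {x y : cd.Mk} (hx : x ∈ YJ cd r0 u) (hy : y ∈ YJ cd r0 u') : x.1 ≠ y.1 := by
  intro h
  rcases u with P | t
  · rcases u' with P' | t'
    · have h1 : x = (P.1, r0) := hx
      have h2 : y = (P'.1, r0) := hy
      rw [h1, h2] at h
      exact huu (congrArg Sum.inl (Subtype.ext h))
    · have h1 : x = (P.1, r0) := hx
      have h2 : X.deg y.1 = t'.1 := hy
      rw [← h, h1] at h2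
      exact hDT P.1 P.2 t'.1 t'.2 h2
  · rcases u' with P' | t'
    · have h1 : X.deg x.1 = t.1 := hx
      have h2 : y = (P'.1, r0) := hy
      rw [h, h2] at h1
      exact hDT P'.1 P'.2 t.1 t.2 h1
    · have h1 : X.deg x.1 = t.1 := hx
      have h2 : X.deg y.1 = t'.1 := hy
      rw [← h, h1] at h2
      exact huu (congrArg Sum.inr (Subtype.ext h2))

/-- The grid. -/
noncomputable def grd (cd : CData S X) (r0 : {g : G // g ∈ cd.R}) (Ds : Finset X.Pr)
    (T : Finset ℕ) (n : ℕ) (hDT : ∀ P ∈ Ds, ∀ t ∈ T, X.deg P ≠ t) (hT : ∀ t ∈ T, 1 ≤ t)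
    (hn : X.degS Ds + ∑ t ∈ T, t ≤ n) : Grid cd n where
  ns := Ds.card
  M := Ds.card + T.card
  hns := Nat.le_add_right _ _
  Xs := fun j => if h : j < Ds.card + T.card then YJ cd r0 (sg Ds T ⟨j, h⟩) else ∅
  dd := fun j => if h : j < Ds.card + T.card then DJ (sg Ds T ⟨j, h⟩) else 0
  small := by
    intro j hj
    have h : j < Ds.card + T.card := by omega
    simp only [h, dif_pos]
    obtain ⟨P, hP⟩ := sg_small Ds T ⟨j, h⟩ hj
    rw [hP]
    change Nat.card ({(P.1, r0)} : Set cd.Mk) = 1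
    exact Nat.card_unique
  large := by
    intro j hj hjM
    simp only [hjM, dif_pos]
    obtain ⟨t, ht⟩ := sg_large Ds T ⟨j, hjM⟩ hj
    rw [ht]
    rfl
  out := by
    intro j hj
    rw [dif_neg (by omega)]
  pos := by
    intro j hj hjM
    simp only [hjM, dif_pos]
    obtain ⟨t, ht⟩ := sg_large Ds T ⟨j, hjM⟩ hj
    rw [ht]
    exact hT t.1 t.2
  ne := by
    intro i j hij x hx y hy
    by_cases hj : j < Ds.card + T.card
    · have hi : i < Ds.card + T.card := by omega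
      simp only [hi, dif_pos] at hx
      simp only [hj, dif_pos] at hy
      refine ne_YJ hDT ?_ hx hy
      intro h
      have h1 := (sg Ds T).injective h
      rw [Fin.mk.injEq] at h1
      omega
    · simp only [hj, dif_neg, not_false_iff] at hy
      exact absurd hy (Set.notMem_empty _)
  nd := by
    intro i j hij hj hjM x hx
    have hi : i < Ds.card + T.card := by omega
    simp only [hi, dif_pos] at hx
    simp only [hjM, dif_pos]
    obtain ⟨t, ht⟩ := sg_large Ds T ⟨j, hjM⟩ hj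
    rw [ht, deg_YJ _ hx]
    rcases hu : sg Ds T ⟨i, hi⟩ with P | t'
    · exact hDT P.1 P.2 t.1 t.2
    · intro h
      have h1 : t' = t := Subtype.ext h
      rw [h1, ← ht] at hu
      have h2 := (sg Ds T).injective hu
      rw [Fin.mk.injEq] at h2
      omega
  sum := by
    intro j hj p hp
    have h1 : ∀ i : Fin j, X.deg (p i).1 = DJ (sg Ds T ⟨i, i.2.trans hj⟩) := by
      intro i
      have h2 := hp i
      have hi : (i : ℕ) < Ds.card + T.card := i.2.trans hj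
      simp only [hi, dif_pos] at h2
      exact deg_YJ _ h2
    rw [Finset.sum_congr rfl fun i _ => h1 i]
    have h3 : ∑ i : Fin j, DJ (sg Ds T ⟨i, i.2.trans hj⟩) ≤
        ∑ i : Fin (Ds.card + T.card), DJ (sg Ds T i) := by
      have h4 : ∑ i : Fin j, DJ (sg Ds T ⟨i, i.2.trans hj⟩) =
          ∑ i ∈ Finset.univ.image (fun i : Fin j => (⟨i, i.2.trans hj⟩ : Fin (Ds.card + T.card))),
            DJ (sg Ds T i) := by
        rw [Finset.sum_image]
        intro i _ i' _ h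
        rw [Fin.mk.injEq] at h
        exact Fin.ext h
      rw [h4]
      exact Finset.sum_le_sum_of_subset (Finset.subset_univ _)
    refine h3.trans ?_
    rw [Equiv.sum_comp (sg Ds T) DJ, Fintype.sum_sum_type]
    refine le_trans (le_of_eq ?_) hn
    congr 1
    · exact Finset.sum_coe_sort Ds X.deg
    · exact Finset.sum_coe_sort T (fun t => t)

variable {Geo : Subgroup G} {fr : G} {q a C : ℕ} {N1 : Subgroup G}

theorem pts_grd (H : Hyp cd Geo fr q a C N1) (r0 : {g : G // g ∈ cd.R}) (Ds : Finset X.Pr)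
    (T : Finset ℕ) (n : ℕ) (hDT : ∀ P ∈ Ds, ∀ t ∈ T, X.deg P ≠ t) (hT : ∀ t ∈ T, 1 ≤ t)
    (hn : X.degS Ds + ∑ t ∈ T, t ≤ n) :
    (gd H (grd cd r0 Ds T n hDT hT hn)).pts = Nat.card (cd.MPts T) := by
  have h1 : (gd H (grd cd r0 Ds T n hDT hT hn)).pts =
      ∏ i : Fin (Ds.card + T.card), (Nat.card (YJ cd r0 (sg Ds T i)) : ℝ) := by
    refine Finset.prod_congr rfl fun i _ => ?_
    change (Nat.card (if h : (i : ℕ) < Ds.card + T.card then YJ cd r0 (sg Ds T ⟨i, h⟩) else ∅ :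
      Set cd.Mk) : ℝ) = _
    have hi : (i : ℕ) < Ds.card + T.card := i.2
    rw [dif_pos hi]
    rfl
  rw [h1, Equiv.prod_comp (sg Ds T) (fun u => (Nat.card (YJ cd r0 u) : ℝ)), Fintype.prod_sum_type]
  have h2 : ∀ P : Ds, (Nat.card (YJ cd r0 (Sum.inl P : CData.JG Ds T)) : ℝ) = 1 := by
    intro P
    change ((Nat.card ({(P.1, r0)} : Set cd.Mk) : ℕ) : ℝ) = 1
    rw [Nat.card_unique, Nat.cast_one]
  rw [Finset.prod_congr rfl fun P _ => h2 P, Finset.prod_const_one, one_mul, Nat.card_pi,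
    Nat.cast_prod]
  refine Finset.prod_congr rfl fun t _ => ?_
  congr 1
  exact Nat.card_congr ⟨fun x => (⟨x.1.1, x.2⟩, x.1.2), fun y => ⟨(y.1.1, y.2), y.1.2⟩,
    fun x => rfl, fun y => rfl⟩

/-- The points which are not typical. -/
theorem card_notTypN (H : Hyp cd Geo fr q a C N1) (r0 : {g : G // g ∈ cd.R}) (Ds : Finset X.Pr)
    (T : Finset ℕ) (n : ℕ) (hDT : ∀ P ∈ Ds, ∀ t ∈ T, X.deg P ≠ t) (hT : ∀ t ∈ T, 1 ≤ t)
    (hn : X.degS Ds + ∑ t ∈ T, t ≤ n) {m0 R k N0 : ℕ} {ρ : ℝ}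
    (hk : ρ * ((Ds.card + T.card : ℕ) : ℝ) ≤ k) (hN0 : ∀ t ∈ T, N0 ≤ t) :
    Nat.card {x : cd.MPts T // ¬ cd.TypN (cd.vec r0 Ds x) R ρ N0} ≤
      Nat.card {p : Fin (grd cd r0 Ds T n hDT hT hn).M → cd.Mk //
        (∀ j : Fin (grd cd r0 Ds T n hDT hT hn).M, p j ∈ (grd cd r0 Ds T n hDT hT hn).Xs j) ∧
        ¬ (gd H (grd cd r0 Ds T n hDT hT hn)).Typ (gA (grd cd r0 Ds T n hDT hT hn) m0) (spK cd)
          (Kb cd) R k p} := by
  set g := grd cd r0 Ds T n hDT hT hn with hg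
  have hmem : ∀ (x : cd.MPts T) (j : Fin g.M), cd.vec r0 Ds x (sg Ds T j) ∈ g.Xs j := by
    intro x j
    have h1 : g.Xs j = YJ cd r0 (sg Ds T j) := by
      change (if h : (j : ℕ) < Ds.card + T.card then YJ cd r0 (sg Ds T ⟨j, h⟩) else ∅) = _
      have hj : (j : ℕ) < Ds.card + T.card := j.2
      rw [dif_pos hj]
      rfl
    rw [h1]
    rcases sg Ds T j with P | t
    · rfl
    · exact (x t).1.2
  have hfin : Finite {p : Fin g.M → cd.Mk // (∀ j : Fin g.M, p j ∈ g.Xs j) ∧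
      ¬ (gd H g).Typ (gA g m0) (spK cd) (Kb cd) R k p} :=
    GD.finite_P (G := gd H g) _ fun p hp => hp.1
  have hcardJ : Nat.card (CData.JG Ds T) = Ds.card + T.card := by
    rw [Nat.card_eq_fintype_card, Fintype.card_sum, Fintype.card_coe, Fintype.card_coe]
  refine Nat.card_le_card_of_injective (fun x : {x : cd.MPts T //
      ¬ cd.TypN (cd.vec r0 Ds x) R ρ N0} =>
    (⟨fun j => cd.vec r0 Ds x.1 (sg Ds T j), hmem x.1, fun hTyp => x.2 ?_⟩ :
      {p : Fin g.M → cd.Mk // (∀ j : Fin g.M, p j ∈ g.Xs j) ∧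
      ¬ (gd H g).Typ (gA g m0) (spK cd) (Kb cd) R k p})) ?_
  · refine typN_of H g (sg Ds T) (cd.vec r0 Ds x.1) (hmem x.1) (m0 := m0) (k := k) ?_ ?_ hTyp
    · rw [hcardJ]
      exact hk
    · have h2 : ∀ j : Fin (Ds.card + T.card), Ds.card ≤ (j : ℕ) →
          N0 ≤ X.deg (cd.vec r0 Ds x.1 (sg Ds T j)).1 := by
        intro j h1
        obtain ⟨t, ht⟩ := sg_large Ds T j h1
        rw [ht]
        change N0 ≤ X.deg ((x.1 t).1.1)
        rw [(x.1 t).1.2]
        exact hN0 t.1 t.2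
      intro j hj
      exact h2 j (Finset.mem_filter.1 hj).2.1
  · intro x y h
    have h1 : (fun j : Fin g.M => cd.vec r0 Ds x.1 (sg Ds T j)) =
        fun j : Fin g.M => cd.vec r0 Ds y.1 (sg Ds T j) := congrArg Subtype.val h
    apply Subtype.ext
    funext t
    have h2 := congrFun h1 ((sg Ds T).symm (Sum.inr t))
    rw [Equiv.apply_symm_apply] at h2
    have h3 : ((x.1 t).1.1, (x.1 t).2) = ((y.1 t).1.1, (y.1 t).2) := h2
    rw [Prod.mk.injEq] at h3
    exact Prod.ext (Subtype.ext h3.1) h3.2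

theorem card_gA_grd (r0 : {g : G // g ∈ cd.R}) (Ds : Finset X.Pr)
    (T : Finset ℕ) (n : ℕ) (hDT : ∀ P ∈ Ds, ∀ t ∈ T, X.deg P ≠ t) (hT : ∀ t ∈ T, 1 ≤ t)
    (hn : X.degS Ds + ∑ t ∈ T, t ≤ n) (m0 : ℕ) :
    (T.filter fun t => m0 ∣ t).card ≤ (gA (grd cd r0 Ds T n hDT hT hn) m0).card := by
  classical
  let f : {t // t ∈ T.filter fun t => m0 ∣ t} → Fin (Ds.card + T.card) := fun t =>
    (sg Ds T).symm (Sum.inr ⟨t.1, (Finset.mem_filter.1 t.2).1⟩)
  have hf : Function.Injective f := by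
    intro t t' h
    have h1 := Sum.inr_injective ((sg Ds T).symm.injective h)
    exact Subtype.ext (congrArg (fun s : {t // t ∈ T} => (s : ℕ)) h1)
  have hmem : ∀ t, f t ∈ gA (grd cd r0 Ds T n hDT hT hn) m0 := by
    intro t
    have h1 : sg Ds T (f t) = Sum.inr ⟨t.1, (Finset.mem_filter.1 t.2).1⟩ :=
      Equiv.apply_symm_apply _ _
    refine Finset.mem_filter.2 ⟨Finset.mem_univ _, ?_, ?_⟩
    · change Ds.card ≤ (f t : ℕ)
      by_contra hlt
      obtain ⟨P, hP⟩ := sg_small Ds T (f t) (not_le.1 hlt)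
      rw [h1] at hP
      exact absurd hP Sum.inr_ne_inl
    · change m0 ∣ (if h : (f t : ℕ) < Ds.card + T.card then DJ (sg Ds T ⟨f t, h⟩) else 0)
      rw [dif_pos (f t).2]
      change m0 ∣ DJ (sg Ds T (f t))
      rw [h1]
      exact (Finset.mem_filter.1 t.2).2
  have h2 := Finset.card_le_card_of_injOn (s := Finset.univ) (t := gA (grd cd r0 Ds T n hDT hT hn) m0)
    f (fun t _ => hmem t) (fun t _ t' _ h => hf h)
  rwa [Finset.card_univ, Fintype.card_coe] at h2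

end Pool.Agent.SmN.J
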