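import Pool.Agent.Lib.SmN.J.Low

/-!
Project SMITH without rational 2-torsion (MP_48b749_nt), block J: the data `GD` of a grid.
-/

set_option autoImplicit false

open Module Finset

namespace Pool.Agent.SmN.J

variable {G V V1 Pl : Type} [Group G] [AddCommGroup V] [DistribMulAction G V]
  [AddCommGroup V1] [Module (ZMod 2) V1] {S : Sys G V V1 Pl} {X : PSys} {cd : CData S X}

/-- What is fixed once and for all: all hypotheses. -/
structure Hyp (cd : CData S X) (Geo : Subgroup G) (fr : G) (q a C : ℕ) (N1 : Subgroup G) :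
    Prop where
  hS : S.Ok
  hX : X.Ok q
  hc : cd.Ok
  hG : CData.GeoOk (S := S) Geo fr
  hC : cd.Cheb Geo fr q a C
  hN : N1 ∈ S.NN
  hi : N1.index ≠ 0
  hsg : ∀ P, S.sg (cd.pl P) ∈ N1
  hk : ∀ s, ∀ n ∈ N1, cd.kf (s * n) = cd.kf s

/-- The error term. -/
noncomputable def er (cd : CData S X) (q a C : ℕ) (N1 : Subgroup G) (n j d : ℕ) : ℝ :=
  (1 + (((2 ^ Nat.card V1) ^ Nat.card V1 * 2 : ℕ) : ℝ) ^ j) *
    (cd.R.card * (C * ((((Nat.card V1 ^ Nat.card V1 * 2) ^ j * (N1 ⊓ S.GN).index : ℕ) : ℝ) *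
      (n + 1)) ^ a * √((q : ℝ) ^ d)))

/-- A grid with its positions in order. -/
structure Grid (cd : CData S X) (n : ℕ) where
  ns : ℕ
  M : ℕ
  hns : ns ≤ M
  Xs : ℕ → Set cd.Mk
  dd : ℕ → ℕ
  small : ∀ j < ns, Nat.card (Xs j) = 1
  large : ∀ j, ns ≤ j → j < M → Xs j = {x | X.deg x.1 = dd j}
  out : ∀ j, M ≤ j → Xs j = ∅
  pos : ∀ j, ns ≤ j → j < M → 1 ≤ dd j
  ne : ∀ i j, i < j → ∀ a ∈ Xs i, ∀ b ∈ Xs j, a.1 ≠ b.1
  nd : ∀ i j, i < j → ns ≤ j → j < M → ∀ a ∈ Xs i, X.deg a.1 ≠ dd j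
  sum : ∀ j < M, ∀ p : Fin j → cd.Mk, (∀ i : Fin j, p i ∈ Xs i) → ∑ i, X.deg (p i).1 ≤ n

theorem finite_deg {q : ℕ} (cd : CData S X) (hX : X.Ok q) (d : ℕ) :
    ({x : cd.Mk | X.deg x.1 = d} : Set cd.Mk).Finite := by
  have := hX.fin d
  have : Finite {x : cd.Mk | X.deg x.1 = d} :=
    Finite.of_injective (fun x : {x : cd.Mk | X.deg x.1 = d} =>
      ((⟨x.1.1, x.2⟩, x.1.2) : X.Of d × {g : G // g ∈ cd.R})) (by
        intro x y h
        simp only [Prod.mk.injEq, Subtype.mk.injEq] at h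
        exact Subtype.ext (Prod.ext h.1 h.2))
  exact Set.toFinite _

variable {Geo : Subgroup G} {fr : G} {q a C : ℕ} {N1 : Subgroup G}

theorem Grid.fin (H : Hyp cd Geo fr q a C N1) {n : ℕ} (g : Grid cd n) (j : ℕ) :
    (g.Xs j).Finite := by
  by_cases h1 : j < g.ns
  · have := g.small j h1
    exact Set.finite_of_ncard_ne_zero (s := g.Xs j) (by
      change Nat.card (g.Xs j) ≠ 0
      rw [this]
      exact one_ne_zero)
  · by_cases h2 : j < g.M
    · rw [g.large j (by omega) h2]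
      exact finite_deg cd H.hX _
    · rw [g.out j (by omega)]
      exact Set.finite_empty

/-- The self form. -/
noncomputable def sf (hS : S.Ok) (hc : cd.Ok) (x : cd.Mk) (v : V1) : V1 →ₗ[ZMod 2] ZMod 2 :=
  tau hS (cd.phx x) v + (mS hc x (cd.phx x) v) +
    (cd.chi0 (cd.phx x) + cd.ch x.1 (cd.phx x)) • S.e v

theorem exists_E (hX : X.Ok q) (d : ℕ) : ∃ E : Finset X.Pr, ∀ P, P ∈ E ↔ X.deg P = d := by
  have : ({P | X.deg P = d} : Set X.Pr).Finite := Set.finite_coe_iff.1 (hX.fin d)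
  exact ⟨this.toFinset, fun P => by rw [Set.Finite.mem_toFinset]; rfl⟩

theorem er_nonneg (cd : CData S X) (q a C : ℕ) (N1 : Subgroup G) (n j d : ℕ) :
    0 ≤ er cd q a C N1 n j d := by
  unfold er
  positivity

theorem NI_grid (H : Hyp cd Geo fr q a C N1) {n : ℕ} (g : Grid cd n) (j : ℕ) (hj : g.ns ≤ j)
    (hjM : j < g.M) (p : Fin j → cd.Mk) (hp : ∀ i : Fin j, p i ∈ g.Xs i) (t : cd.Kf)
    (u : (i : Fin j) → RF (FK cd t) (FK cd (cd.kf (cd.phx (p i))))) (ε : Fin j → ZMod 2) :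
    (Nat.card {x : cd.Mk // x ∈ g.Xs j ∧ cd.kf (cd.phx x) = t ∧ ∀ i,
      (mS H.hc (p i) (cd.phx x)).domRestrict₁₂ (FK cd t) (FK cd (cd.kf (cd.phx (p i)))) = u i ∧
      cd.ch (p i).1 (cd.phx x) = ε i} : ℝ) *
      (2 ^ j * ∏ i : Fin j, (Nat.card (RF (FK cd t) (FK cd (cd.kf (cd.phx (p i))))) : ℝ)) ≤
    Nat.card (MkP cd (g.dd j) (fun s => cd.kf s = t)) + er cd q a C N1 n j (g.dd j) := by
  classical
  have := H.hS.fin1
  obtain ⟨E, hE⟩ := exists_E H.hX (g.dd j)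
  have hinj : Function.Injective fun i => (p i).1 := by
    intro i i' h
    by_contra hne
    rcases lt_or_gt_of_ne hne with h1 | h1
    · exact g.ne i i' h1 _ (hp i) _ (hp i') h
    · exact g.ne i' i h1 _ (hp i') _ (hp i) h.symm
  have h1 := NI_main H.hS H.hc H.hG H.hC H.hN H.hi H.hsg H.hk (g.pos j hj hjM) hE p hinj
    (fun i => g.nd i j i.2 hj hjM _ (hp i)) (g.sum j hjM p hp) t (fun i => (u i, ε i))
  have h2 : Nat.card {x : cd.Mk // x ∈ g.Xs j ∧ cd.kf (cd.phx x) = t ∧ ∀ i,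
      (mS H.hc (p i) (cd.phx x)).domRestrict₁₂ (FK cd t) (FK cd (cd.kf (cd.phx (p i)))) = u i ∧
      cd.ch (p i).1 (cd.phx x) = ε i} =
      Nat.card (MkP cd (g.dd j) (fun s => cd.kf s = t ∧ ∀ i, sym H.hc t (p i) s = (u i, ε i))) := by
    refine Nat.card_congr (Equiv.subtypeEquivRight fun x => ?_)
    rw [g.large j hj hjM]
    simp only [sym, Prod.mk.injEq]
    rfl
  have hfin : ∀ i : Fin j, Finite (RF (FK cd t) (FK cd (cd.kf (cd.phx (p i))))) :=
    fun i => finite_RF _ _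
  have h3 : (Nat.card ((i : Fin j) → RF (FK cd t) (FK cd (cd.kf (cd.phx (p i)))) × ZMod 2) : ℝ) =
      2 ^ j * ∏ i : Fin j, (Nat.card (RF (FK cd t) (FK cd (cd.kf (cd.phx (p i))))) : ℝ) := by
    rw [Nat.card_pi]
    have h4 : ∀ i : Fin j, Nat.card (RF (FK cd t) (FK cd (cd.kf (cd.phx (p i)))) × ZMod 2) =
        2 * Nat.card (RF (FK cd t) (FK cd (cd.kf (cd.phx (p i))))) := by
      intro i
      rw [Nat.card_prod, Nat.card_zmod, mul_comm]
    rw [Finset.prod_congr rfl fun i _ => h4 i, Finset.prod_mul_distrib, Finset.prod_const,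
      Finset.card_univ, Fintype.card_fin]
    push_cast
    rfl
  have h5 : (Nat.card ((i : Fin j) → RF (FK cd t) (FK cd (cd.kf (cd.phx (p i)))) × ZMod 2) : ℝ) ≤
      (((2 ^ Nat.card V1) ^ Nat.card V1 * 2 : ℕ) : ℝ) ^ j := by
    rw [Nat.card_pi]
    have h6 : ∏ i : Fin j, Nat.card (RF (FK cd t) (FK cd (cd.kf (cd.phx (p i)))) × ZMod 2) ≤
        ((2 ^ Nat.card V1) ^ Nat.card V1 * 2) ^ j := by
      calc _ ≤ ∏ _i : Fin j, (2 ^ Nat.card V1) ^ Nat.card V1 * 2 := by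
            refine Finset.prod_le_prod' fun i _ => ?_
            rw [Nat.card_prod, Nat.card_zmod]
            exact Nat.mul_le_mul_right _ (card_RF_le _ _)
        _ = _ := by rw [Finset.prod_const, Finset.card_univ, Fintype.card_fin]
    exact_mod_cast h6
  rw [h2, ← h3]
  refine h1.trans (add_le_add_right ?_ _)
  unfold er
  exact mul_le_mul_of_nonneg_right (add_le_add_right h5 _) (by positivity)

/-- The data of the grid. -/
noncomputable def gd (H : Hyp cd Geo fr q a C N1) {n : ℕ} (g : Grid cd n) :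
    GD V1 cd.Kf cd.Mk (Fin cd.h → ZMod 2) where
  e := S.e
  F := FK cd
  ty := fun x => cd.kf (cd.phx x)
  m := fun x y => mS H.hc y (cd.phx x)
  l := fun x y => cd.ch y.1 (cd.phx x)
  self := sf H.hS H.hc
  zz := zzS cd
  R := RR H.hc
  R' := H.hc.ch_rec.choose
  X := g.Xs
  ns := g.ns
  M := g.M
  hns := g.hns
  hX := g.fin H
  recip := by
    intro i j hij x hx y hy v hv w hw
    rw [FK_kf H.hc] at hv hw
    exact RR_eq H.hS H.hc (g.ne i j hij x hx y hy) hv hw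
  recip' := by
    intro i j hij x hx y hy
    rw [add_comm]
    exact H.hc.ch_rec.choose_spec x y (g.ne i j hij x hx y hy)
  small := fun j hj => (g.small j hj).le
  c := fun j t => Nat.card (MkP cd (g.dd j) (fun s => cd.kf s = t)) + er cd q a C N1 n j (g.dd j)
  c0 := fun j t => add_nonneg (Nat.cast_nonneg _) (er_nonneg _ _ _ _ _ _ _ _)
  NI := by
    intro j hj hjM p ts hp t u ε
    obtain rfl : ts = fun i => cd.kf (cd.phx (p i)) := funext fun i => (hp i).2.symm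
    exact NI_grid H g j hj hjM p (fun i => (hp i).1) t u ε

end Pool.Agent.SmN.J
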