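import Pool.Agent.Lib.SmN.J.Sml

/-!
Project SMITH without rational 2-torsion (MP_48b749_nt), block J: the number of the points of a grid
which are not typical (abstract form).
-/

set_option autoImplicit false

open Module Finset

namespace Pool.Agent.SmN.J

namespace GD

variable {V Th α Z : Type} [AddCommGroup V] [Module (ZMod 2) V] [AddCommGroup Z]
  [Module (ZMod 2) Z] (G : GD V Th α Z)

/-- The typical points. -/
structure Typ (A : Finset (Fin G.M)) (sp : Th → Prop) (K : Submodule (ZMod 2) Z) (R k : ℕ)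
    (p : Fin G.M → α) : Prop where
  small : Nat.card (G.Selp p) ≤ 2 ^ R
  sml : ∀ c ∈ G.Selp p, (∀ j : Fin G.M, G.ns ≤ j → c.2 j = 0) → c.2 = 0 ∧ c.1 ∈ K
  pat : ∀ r ≤ R, ∀ c : Fin r → G.Cod, (∀ i, c i ∈ G.Selp p) → G.IndL (fun i => (c i).2) →
    ∀ w : Fin r → V, k ≤ Nat.card (G.pc A sp (fun j => G.ty (p j)) (fun i => (c i).2) w)

variable {G} [Finite V] [Finite Z] [Fintype Th] [Inhabited Th] {A : Finset (Fin G.M)}
  {sp : Th → Prop} {K : Submodule (ZMod 2) Z} {κ δ : ℝ}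

omit [Finite V] [Finite Z] [Fintype Th] [Inhabited Th] in
theorem finite_P (P : (Fin G.M → α) → Prop) (h : ∀ p, P p → ∀ j : Fin G.M, p j ∈ G.X j) :
    Finite {p : Fin G.M → α // P p} := by
  have : ∀ j : Fin G.M, Finite (G.X j) := fun j => (G.hX j).to_subtype
  exact Finite.of_injective (fun p : {p : Fin G.M → α // P p} =>
    (fun j => ⟨p.1 j, h p.1 p.2 j⟩ : (j : Fin G.M) → G.X j)) (by
      intro p p' h
      apply Subtype.ext
      funext j
      exact congrArg Subtype.val (congrFun h j))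

/-- The points with a large Selmer group. -/
theorem GW.card_big (h : G.GW A sp K κ δ) (R : ℕ) :
    (Nat.card {p : Fin G.M → α // (∀ j : Fin G.M, p j ∈ G.X j) ∧
      (∀ c ∈ G.Selp p, (∀ j : Fin G.M, G.ns ≤ j → c.2 j = 0) → c.2 = 0 ∧ c.1 ∈ K) ∧
      2 ^ R < Nat.card (G.Selp p)} : ℝ) * (2 ^ R - Nat.card K) ≤
      2 * Nat.card Z * Nat.card V * ((1 + δ) ^ G.M * G.pts) := by
  classical
  have h0 := h.mom_true Unit
  rw [Fintype.card_unit, mul_one, pow_one, pow_one, pow_one] at h0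
  refine le_trans ?_ h0
  let P2 := {p : Fin G.M → α // (∀ j : Fin G.M, p j ∈ G.X j) ∧
      (∀ c ∈ G.Selp p, (∀ j : Fin G.M, G.ns ≤ j → c.2 j = 0) → c.2 = 0 ∧ c.1 ∈ K) ∧
      2 ^ R < Nat.card (G.Selp p)}
  let Sn : P2 → Type := fun p => {c : G.Cod // c ∈ G.Selp p.1 ∧ ∃ j : Fin G.M, G.ns ≤ j ∧ c.2 j ≠ 0}
  have hPf : Finite P2 := G.finite_P _ fun p hp => hp.1
  have := Fintype.ofFinite P2
  have h1 : Nat.card (Σ p : P2, Sn p) ≤ Nat.card {pW // G.Fam (I := Unit) (fun _ _ => True) pW} := by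
    have := G.finite_FamE (I := Unit) (G.Fam (fun _ _ => True)) fun pW h => h.1
    refine Nat.card_le_card_of_injective (fun s : (Σ p : P2, Sn p) =>
      (⟨(s.1.1, fun _ => s.2.1), s.1.2.1, fun _ => s.2.2.1, fun a ha => ?_, trivial⟩ :
        {pW // G.Fam (I := Unit) (fun _ _ => True) pW})) ?_
    · obtain ⟨j, hj, hne⟩ := s.2.2.2
      have h2 := ha j hj
      simp only [Fintype.sum_unique] at h2
      rcases smul_eq_zero.1 h2 with h3 | h3
      · funext i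
        exact h3
      · exact absurd h3 hne
    · intro s s' hss
      have h2 := congrArg (fun u : {pW // G.Fam (I := Unit) (fun _ _ => True) pW} =>
        (u.1.1, u.1.2 ())) hss
      simp only [Prod.mk.injEq] at h2
      obtain ⟨⟨p, hp⟩, ⟨c, hc⟩⟩ := s
      obtain ⟨⟨p', hp'⟩, ⟨c', hc'⟩⟩ := s'
      obtain ⟨h3, h4⟩ := h2
      subst h3
      subst h4
      rfl
  have h2 : ∀ p : P2, (2 ^ R - Nat.card K : ℝ) ≤ Nat.card (Sn p) := by
    intro p
    have h3 : Nat.card (G.Selp p.1) ≤ Nat.card K + Nat.card (Sn p) := by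
      rw [← Nat.card_sum]
      refine Nat.card_le_card_of_injective (fun c : G.Selp p.1 =>
        if hc : ∃ j : Fin G.M, G.ns ≤ j ∧ c.1.2 j ≠ 0 then
          (Sum.inr ⟨c.1, c.2, hc⟩ : K ⊕ Sn p)
        else Sum.inl ⟨c.1.1, (p.2.2.1 c.1 c.2 (fun j hj => by
          by_contra hne
          exact hc ⟨j, hj, hne⟩)).2⟩) ?_
      intro c c' hcc
      dsimp only at hcc
      by_cases hc : ∃ j : Fin G.M, G.ns ≤ j ∧ c.1.2 j ≠ 0
      · by_cases hc' : ∃ j : Fin G.M, G.ns ≤ j ∧ c'.1.2 j ≠ 0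
        · rw [dif_pos hc, dif_pos hc'] at hcc
          have h4 := Sum.inr_injective hcc
          exact Subtype.ext (congrArg (fun s : Sn p => s.1) h4)
        · rw [dif_pos hc, dif_neg hc'] at hcc
          exact absurd hcc Sum.inr_ne_inl
      · by_cases hc' : ∃ j : Fin G.M, G.ns ≤ j ∧ c'.1.2 j ≠ 0
        · rw [dif_neg hc, dif_pos hc'] at hcc
          exact absurd hcc Sum.inl_ne_inr
        · rw [dif_neg hc, dif_neg hc'] at hcc
          have h4 := congrArg Subtype.val (Sum.inl_injective hcc)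
          have h5 := (p.2.2.1 c.1 c.2 (fun j hj => by
            by_contra hne
            exact hc ⟨j, hj, hne⟩)).1
          have h6 := (p.2.2.1 c'.1 c'.2 (fun j hj => by
            by_contra hne
            exact hc' ⟨j, hj, hne⟩)).1
          exact Subtype.ext (Prod.ext h4 (h5.trans h6.symm))
    have h4 := p.2.2.2
    have h5 : (2 ^ R : ℝ) ≤ Nat.card K + Nat.card (Sn p) := by
      exact_mod_cast h4.le.trans h3
    linarith
  rw [Nat.card_sigma] at h1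
  calc _ = ∑ _p : P2, (2 ^ R - Nat.card K : ℝ) := by
        rw [Finset.sum_const, Finset.card_univ, nsmul_eq_mul, Nat.card_eq_fintype_card]
    _ ≤ ∑ p : P2, (Nat.card (Sn p) : ℝ) := Finset.sum_le_sum fun p _ => h2 p
    _ ≤ _ := by exact_mod_cast h1

/-- The points with a rare pattern. -/
theorem GW.card_pat (h : G.GW A sp K κ δ) (r k : ℕ) :
    (Nat.card {p : Fin G.M → α // (∀ j : Fin G.M, p j ∈ G.X j) ∧
      ∃ c : Fin r → G.Cod, (∀ i, c i ∈ G.Selp p) ∧ G.IndL (fun i => (c i).2) ∧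
      ∃ w : Fin r → V, Nat.card (G.pc A sp (fun j => G.ty (p j)) (fun i => (c i).2) w) < k} : ℝ) ≤
      2 ^ (r * r) * (Nat.card Z : ℝ) ^ r * (Nat.card V : ℝ) ^ (r * r) * ((Nat.card V : ℝ) ^ r *
      (2 ^ k * ((1 + δ) ^ G.M * (1 + δ - κ / (2 * (Nat.card V : ℝ) ^ r)) ^ A.card * G.pts))) := by
  classical
  have h0 := h.mom_pat (Fin r) k
  rw [Fintype.card_fin] at h0
  refine le_trans ?_ h0
  have := G.finite_FamE (I := Fin r) (G.Fam (fun t x => ∃ w : Fin r → V,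
    Nat.card (G.pc A sp t x w) < k)) fun pW h => h.1
  refine Nat.cast_le.2 (Nat.card_le_card_of_injective (fun p : {p : Fin G.M → α //
      (∀ j : Fin G.M, p j ∈ G.X j) ∧
      ∃ c : Fin r → G.Cod, (∀ i, c i ∈ G.Selp p) ∧ G.IndL (fun i => (c i).2) ∧
      ∃ w : Fin r → V, Nat.card (G.pc A sp (fun j => G.ty (p j)) (fun i => (c i).2) w) < k} =>
    (⟨(p.1, p.2.2.choose), p.2.1, p.2.2.choose_spec.1, p.2.2.choose_spec.2.1,
      p.2.2.choose_spec.2.2⟩ : {pW // G.Fam (I := Fin r) (fun t x => ∃ w : Fin r → V,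
        Nat.card (G.pc A sp t x w) < k) pW})) ?_)
  intro a b hab
  exact Subtype.ext (congrArg (fun s : {pW // G.Fam (I := Fin r) (fun t x => ∃ w : Fin r → V,
        Nat.card (G.pc A sp t x w) < k) pW} => s.1.1) hab)

/-- **The number of the points which are not typical.** -/
theorem GW.card_notTyp (h : G.GW A sp K κ δ) (hV : 2 ≤ Nat.card V) (R k : ℕ)
    (hR : (Nat.card K : ℝ) < 2 ^ R) :
    (Nat.card {p : Fin G.M → α // (∀ j : Fin G.M, p j ∈ G.X j) ∧ ¬ G.Typ A sp K R k p} : ℝ) ≤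
      Nat.card Z * (Nat.card V : ℝ) ^ G.ns *
        ((1 + δ) ^ G.M * (1 + δ - κ / 2) ^ A.card * G.pts) +
      2 * Nat.card Z * Nat.card V * ((1 + δ) ^ G.M * G.pts) / (2 ^ R - Nat.card K) +
      ∑ r ∈ Finset.range (R + 1),
      2 ^ (r * r) * (Nat.card Z : ℝ) ^ r * (Nat.card V : ℝ) ^ (r * r) * ((Nat.card V : ℝ) ^ r *
      (2 ^ k * ((1 + δ) ^ G.M * (1 + δ - κ / (2 * (Nat.card V : ℝ) ^ r)) ^ A.card * G.pts))) := by
  classical
  have h1 := h.card_sml hV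
  have h2 : (Nat.card {p : Fin G.M → α // (∀ j : Fin G.M, p j ∈ G.X j) ∧
      (∀ c ∈ G.Selp p, (∀ j : Fin G.M, G.ns ≤ j → c.2 j = 0) → c.2 = 0 ∧ c.1 ∈ K) ∧
      2 ^ R < Nat.card (G.Selp p)} : ℝ) ≤
      2 * Nat.card Z * Nat.card V * ((1 + δ) ^ G.M * G.pts) / (2 ^ R - Nat.card K) := by
    rw [le_div_iff₀ (by linarith)]
    exact h.card_big R
  have h3 := fun r => h.card_pat r k
  refine le_trans ?_ (add_le_add (add_le_add h1 h2) (Finset.sum_le_sum fun r _ => h3 r))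
  let B1 := {p : Fin G.M → α // (∀ j : Fin G.M, p j ∈ G.X j) ∧
      ∃ c ∈ G.Selp p, (∀ j : Fin G.M, G.ns ≤ j → c.2 j = 0) ∧ ¬ (c.2 = 0 ∧ c.1 ∈ K)}
  let B2 := {p : Fin G.M → α // (∀ j : Fin G.M, p j ∈ G.X j) ∧
      (∀ c ∈ G.Selp p, (∀ j : Fin G.M, G.ns ≤ j → c.2 j = 0) → c.2 = 0 ∧ c.1 ∈ K) ∧
      2 ^ R < Nat.card (G.Selp p)}
  let B3 : Fin (R + 1) → Type := fun r => {p : Fin G.M → α // (∀ j : Fin G.M, p j ∈ G.X j) ∧
      ∃ c : Fin r → G.Cod, (∀ i, c i ∈ G.Selp p) ∧ G.IndL (fun i => (c i).2) ∧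
      ∃ w : Fin r → V, Nat.card (G.pc A sp (fun j => G.ty (p j)) (fun i => (c i).2) w) < k}
  have hf1 : Finite B1 := G.finite_P _ fun p hp => hp.1
  have hf2 : Finite B2 := G.finite_P _ fun p hp => hp.1
  have hf3 : ∀ r, Finite (B3 r) := fun r => G.finite_P _ fun p hp => hp.1
  have key : Nat.card {p : Fin G.M → α // (∀ j : Fin G.M, p j ∈ G.X j) ∧
      ¬ G.Typ A sp K R k p} ≤ Nat.card ((B1 ⊕ B2) ⊕ (Σ r, B3 r)) := by
    have hex : ∀ p : {p : Fin G.M → α // (∀ j : Fin G.M, p j ∈ G.X j) ∧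
        ¬ G.Typ A sp K R k p}, ∃ s : (B1 ⊕ B2) ⊕ (Σ r, B3 r),
        (Sum.elim (Sum.elim (fun b : B1 => b.1) (fun b : B2 => b.1))
          (fun b : (Σ r, B3 r) => b.2.1)) s = p.1 := by
      rintro ⟨p, hp, hT⟩
      by_cases hb1 : ∃ c ∈ G.Selp p, (∀ j : Fin G.M, G.ns ≤ j → c.2 j = 0) ∧
          ¬ (c.2 = 0 ∧ c.1 ∈ K)
      · exact ⟨Sum.inl (Sum.inl ⟨p, hp, hb1⟩), rfl⟩
      · have hs : ∀ c ∈ G.Selp p, (∀ j : Fin G.M, G.ns ≤ j → c.2 j = 0) → c.2 = 0 ∧ c.1 ∈ K := by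
          intro c hc h4
          by_contra h5
          exact hb1 ⟨c, hc, h4, h5⟩
        by_cases hb2 : 2 ^ R < Nat.card (G.Selp p)
        · exact ⟨Sum.inl (Sum.inr ⟨p, hp, hs, hb2⟩), rfl⟩
        · have hb3 : ∃ r : Fin (R + 1), ∃ c : Fin r → G.Cod, (∀ i, c i ∈ G.Selp p) ∧
              G.IndL (fun i => (c i).2) ∧
              ∃ w : Fin r → V,
                Nat.card (G.pc A sp (fun j => G.ty (p j)) (fun i => (c i).2) w) < k := by
            by_contra hcon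
            refine hT ⟨not_lt.1 hb2, hs, fun r hr c hc hI w => ?_⟩
            by_contra h4
            exact hcon ⟨⟨r, by omega⟩, c, hc, hI, w, not_le.1 h4⟩
          obtain ⟨r, hr⟩ := hb3
          exact ⟨Sum.inr ⟨r, ⟨p, hp, hr⟩⟩, rfl⟩
    choose s hs using hex
    refine Nat.card_le_card_of_injective s ?_
    intro a b hab
    apply Subtype.ext
    rw [← hs a, ← hs b, hab]
  rw [Nat.card_sum, Nat.card_sum, Nat.card_sigma] at key
  have h4 : ∑ r ∈ Finset.range (R + 1), (Nat.card {p : Fin G.M → α //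
      (∀ j : Fin G.M, p j ∈ G.X j) ∧
      ∃ c : Fin r → G.Cod, (∀ i, c i ∈ G.Selp p) ∧ G.IndL (fun i => (c i).2) ∧
      ∃ w : Fin r → V, Nat.card (G.pc A sp (fun j => G.ty (p j)) (fun i => (c i).2) w) < k} : ℝ) =
      ∑ r : Fin (R + 1), (Nat.card (B3 r) : ℝ) :=
    (Fin.sum_univ_eq_sum_range (fun r => (Nat.card {p : Fin G.M → α //
      (∀ j : Fin G.M, p j ∈ G.X j) ∧
      ∃ c : Fin r → G.Cod, (∀ i, c i ∈ G.Selp p) ∧ G.IndL (fun i => (c i).2) ∧
      ∃ w : Fin r → V, Nat.card (G.pc A sp (fun j => G.ty (p j)) (fun i => (c i).2) w) < k} : ℝ))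
      (R + 1)).symm
  rw [h4]
  exact_mod_cast key

end GD

end Pool.Agent.SmN.J
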