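import Pool.Agent.Lib.SmN.G6.Codes
import Pool.Agent.Lib.SmN.G.Conj
import Pool.Agent.Lib.SmN.J.Typ

/-!
Project SMITH without rational 2-torsion (MP_48b749_nt), block J: the symbols of a marked prime and
the explicit Selmer condition at the primes of the twist.
-/

set_option autoImplicit false

open Module Finset

namespace Pool.Agent.SmN.J

variable {G V V1 Pl : Type} [Group G] [AddCommGroup V] [DistribMulAction G V]
  [AddCommGroup V1] [Module (ZMod 2) V1]

/-- The fixed space of `s`. -/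
def Fix (S : Sys G V V1 Pl) (s : G) : Submodule (ZMod 2) V1 where
  carrier := {w | S.ac s w = w}
  zero_mem' := map_zero _
  add_mem' := by
    intro a b ha hb
    change S.ac s (a + b) = a + b
    rw [map_add, show S.ac s a = a from ha, show S.ac s b = b from hb]
  smul_mem' := by
    intro c a ha
    change S.ac s (c • a) = c • a
    rw [map_smul, show S.ac s a = a from ha]

variable {S : Sys G V V1 Pl}

theorem mem_Fix {s : G} {w : V1} : w ∈ Fix S s ↔ S.ac s w = w := Iff.rfl

theorem e_symm (h : S.Ok) (a b : V1) : S.e a b = S.e b a := by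
  have h1 := h.e_alt (a + b)
  rw [map_add, map_add, LinearMap.add_apply, LinearMap.add_apply, h.e_alt, h.e_alt, add_zero,
    zero_add] at h1
  have h2 : ∀ x y : ZMod 2, y + x = 0 → x = y := by decide
  exact h2 _ _ h1

theorem e_sub (h : S.Ok) {s : G} {v : V1} (hv : v ∈ Fix S s) (z : V1) :
    S.e v (S.ac s z - z) = 0 := by
  have h1 := h.e_inv s v z
  rw [mem_Fix.1 hv] at h1
  rw [map_sub, h1, sub_self]

theorem e_ac (h : S.Ok) {s : G} {v : V1} (hv : v ∈ Fix S s) (z : V1) :
    S.e v (S.ac s z) = S.e v z := by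
  have h1 := h.e_inv s v z
  rwa [mem_Fix.1 hv] at h1

theorem e_nondeg' (h : S.Ok) (w : V1) (hw : ∀ w', S.e w' w = 0) : w = 0 :=
  h.e_nondeg w fun w' => by rw [e_symm h, hw]

/-- Every form on `A × B` comes from an endomorphism. -/
theorem exists_L (h : S.Ok) (A B : Submodule (ZMod 2) V1) (u : RF A B) :
    ∃ L : V1 →ₗ[ZMod 2] V1, ∀ (v : A) (y : B), S.e v (L y) = u v y := by
  have := h.fin1
  obtain ⟨g, hg⟩ := LinearMap.exists_extend u
  obtain ⟨k, hk⟩ := LinearMap.exists_extend g.flip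
  have hinj : Function.Injective S.e.flip := by
    rw [← LinearMap.ker_eq_bot, LinearMap.ker_eq_bot']
    intro w hw
    refine e_nondeg' h w fun w' => ?_
    have := LinearMap.congr_fun hw w'
    rwa [LinearMap.flip_apply] at this
  let E := LinearMap.linearEquivOfInjective S.e.flip hinj (Subspace.dual_finrank_eq (K := ZMod 2) (V := V1)).symm
  refine ⟨E.symm.toLinearMap ∘ₗ k, fun v y => ?_⟩
  have h1 : S.e.flip (E.symm (k y)) = k y := E.apply_symm_apply (k y)
  have h2 : S.e v (E.symm (k y)) = k y v := LinearMap.congr_fun h1 (v : V1)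
  have h3 : k y v = g v y := by
    have := LinearMap.congr_fun (LinearMap.congr_fun hk y) v
    simpa using this
  have h4 : g v = u v := by
    have := LinearMap.congr_fun hg v
    simpa using this
  change S.e v (E.symm (k y)) = u v y
  rw [h2, h3, h4]

variable {X : PSys} {cd : CData S X}

theorem fx_iff_Fix (x : cd.Mk) (w : V1) : cd.Fx x w ↔ w ∈ Fix S (cd.phx x) := Iff.rfl

theorem exists_bexL (hc : cd.Ok) (b : cd.Mk) (s : G) :
    ∃ f : V1 →ₗ[ZMod 2] V1, ∀ y ∈ Fix S (cd.phx b), f y = cd.bex b y s := by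
  let f0 : Fix S (cd.phx b) →+ V1 :=
    { toFun := fun y => cd.bex b y s
      map_zero' := congrFun (CData.bex_zero hc b) s
      map_add' := fun y y' => congrFun (CData.bex_add hc (x := b) y.2 y'.2) s }
  obtain ⟨f, hf⟩ := LinearMap.exists_extend (f0.toZModLinearMap 2)
  refine ⟨f, fun y hy => ?_⟩
  have := LinearMap.congr_fun hf ⟨y, hy⟩
  exact this

/-- The linear map `y ↦ bex b y s` (on the fixed space of `phx b`). -/
noncomputable def bexL (hc : cd.Ok) (b : cd.Mk) (s : G) : V1 →ₗ[ZMod 2] V1 :=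
  (exists_bexL hc b s).choose

theorem bexL_apply (hc : cd.Ok) (b : cd.Mk) (s : G) {y : V1} (hy : y ∈ Fix S (cd.phx b)) :
    bexL hc b s y = cd.bex b y s := (exists_bexL hc b s).choose_spec y hy

/-- The symbol of `s` with respect to `b`. -/
noncomputable def mS (hc : cd.Ok) (b : cd.Mk) (s : G) : V1 →ₗ[ZMod 2] V1 →ₗ[ZMod 2] ZMod 2 :=
  S.e.compl₂ (bexL hc b s)

theorem mS_apply (hc : cd.Ok) (b : cd.Mk) (s : G) (v : V1) {y : V1} (hy : y ∈ Fix S (cd.phx b)) :
    mS hc b s v y = S.e v (cd.bex b y s) := by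
  rw [mS, LinearMap.compl₂_apply, bexL_apply hc b s hy]

/-! ### The functional `tau` -/

theorem two_sub_smul (h : S.Ok) {s : G} {y : V1} (hy : y ∈ Fix S s) {Q : V}
    (hQ : (2 : ℕ) • Q = S.iota y) : (2 : ℕ) • (s • Q - Q) = 0 := by
  rw [smul_sub, ← smul_comm, hQ, h.iota_ac, mem_Fix.1 hy, sub_self]

theorem tau_indep (h : S.Ok) {s : G} {v : V1} (hv : v ∈ Fix S s) {y : V1} (hy : y ∈ Fix S s)
    {Q Q' : V} (hQ : (2 : ℕ) • Q = S.iota y) (hQ' : (2 : ℕ) • Q' = S.iota y) :
    S.e v (S.un (s • Q - Q)) = S.e v (S.un (s • Q' - Q')) := by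
  obtain ⟨z, hz⟩ := h.iota_range (Q' - Q) (by rw [smul_sub, hQ, hQ', sub_self])
  have h1 : Q' = Q + S.iota z := by rw [hz]; abel
  have h2 : s • Q' - Q' = (s • Q - Q) + S.iota (S.ac s z - z) := by
    rw [h1, smul_add, h.iota_ac, map_sub]
    abel
  rw [h2, Sys.un_add h (two_sub_smul h hy hQ) (Sys.two_iota S _), Sys.un_iota h, map_add, e_sub h hv, add_zero]

theorem exists_tau (h : S.Ok) (s : G) (v : V1) : ∃ f : V1 →ₗ[ZMod 2] ZMod 2,
    v ∈ Fix S s → ∀ y ∈ Fix S s, ∀ Q : V, (2 : ℕ) • Q = S.iota y →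
      f y = S.e v (S.un (s • Q - Q)) := by
  by_cases hv : v ∈ Fix S s
  · obtain ⟨hf, hhf⟩ := Sys.exists_hf h
    let f0 : Fix S s →+ ZMod 2 :=
      { toFun := fun y => S.e v (S.un (s • hf (S.iota y) - hf (S.iota y)))
        map_zero' := by
          have h1 := tau_indep h hv (zero_mem (Fix S s)) (Q := 0) (Q' := hf (S.iota 0))
            (by rw [smul_zero, map_zero]) (hhf _)
          rw [Submodule.coe_zero, ← h1, smul_zero, sub_zero, Sys.un_zero h, map_zero]
        map_add' := fun y y' => by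
          have h1 := tau_indep h hv (add_mem y.2 y'.2) (Q := hf (S.iota y) + hf (S.iota y'))
            (Q' := hf (S.iota (y + y' : V1))) (by rw [smul_add, hhf, hhf, map_add]) (hhf _)
          rw [Submodule.coe_add, ← h1]
          have h2 : s • (hf (S.iota y) + hf (S.iota y')) - (hf (S.iota y) + hf (S.iota y')) =
              (s • hf (S.iota y) - hf (S.iota y)) + (s • hf (S.iota y') - hf (S.iota y')) := by
            rw [smul_add]
            abel
          rw [h2, Sys.un_add h (two_sub_smul h y.2 (hhf _)) (two_sub_smul h y'.2 (hhf _)),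
            map_add] }
    obtain ⟨f, hf'⟩ := LinearMap.exists_extend (f0.toZModLinearMap 2)
    refine ⟨f, fun _ y hy Q hQ => ?_⟩
    have h1 : f y = f0 ⟨y, hy⟩ := LinearMap.congr_fun hf' ⟨y, hy⟩
    rw [h1]
    exact tau_indep h hv hy (hhf _) hQ
  · exact ⟨0, fun h => absurd h hv⟩

/-- The functional `y ↦ e(v, s Q - Q)`, `2 Q = y`. -/
noncomputable def tau (h : S.Ok) (s : G) (v : V1) : V1 →ₗ[ZMod 2] ZMod 2 :=
  (exists_tau h s v).choose

theorem tau_apply (h : S.Ok) {s : G} {v : V1} (hv : v ∈ Fix S s) {y : V1} (hy : y ∈ Fix S s)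
    {Q : V} (hQ : (2 : ℕ) • Q = S.iota y) : tau h s v y = S.e v (S.un (s • Q - Q)) :=
  (exists_tau h s v).choose_spec hv y hy Q hQ

/-- **The explicit Selmer condition** at the primes of the twist. -/
theorem sel_eq (h : S.Ok) (hc : cd.Ok) {J : Type} [Fintype J] {p : J → cd.Mk} (hp : cd.PVecN p)
    {c : cd.CodeN J} (hcS : c ∈ cd.SelpN p) (j : J) {v : V1} (hv : v ∈ Fix S (cd.phx (p j))) :
    S.e v (cd.homN p c (cd.phx (p j))) =
      tau h (cd.phx (p j)) v (c.2 j) + cd.chiN p (cd.phx (p j)) * S.e v (c.2 j) := by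
  obtain ⟨hval, hW⟩ := hcS
  obtain ⟨Q, hQ2, h1, h2⟩ := hW j
  have hchi := CData.chiN_hom h hc p
  have hcoc := CData.homN_coc h hc hval
  set r := (p j).2.1 with hr
  set s0 := S.phi (cd.pl (p j).1) with hs0
  have hphx : cd.phx (p j) = r * s0 * r⁻¹ := rfl
  have hsg : cd.chiN p (S.sg (cd.pl (p j).1)) = 1 := CData.chiN_ram hc hp j
  have h3 : (S.loc (cd.pl (p j).1) (cd.homN p c)).1 = S.ac r⁻¹ (c.2 j) :=
    CData.homN_ram hc hp hval j
  have h4 : (2 : ℕ) • Q = S.iota (S.ac r⁻¹ (c.2 j)) := by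
    rw [Sys.dl_sg_one h (hc.pl_good _) hsg, h3] at h1
    rw [← neg_eq_iff_eq_neg.2 h1.symm, Sys.neg_iota]
  have h5 : (2 : ℕ) • (r • Q) = S.iota (c.2 j) := by
    rw [smul_comm, h4, h.iota_ac, Sys.ac_inv_cancel]
  have hy : c.2 j ∈ Fix S (cd.phx (p j)) := hval j
  -- the value of the cocycle
  have h6 : S.e v (cd.homN p c (cd.phx (p j))) = S.e v (S.ac r (cd.homN p c s0)) := by
    rw [hphx, Sys.coc_conj hcoc.2, map_add, map_add]
    have h7 : S.ac r (S.ac s0 (S.ac r⁻¹ (cd.homN p c r)) - S.ac r⁻¹ (cd.homN p c r)) =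
        S.ac (cd.phx (p j)) (cd.homN p c r) - cd.homN p c r := by
      rw [hphx, Sys.ac_mul, Sys.ac_mul, map_sub, Sys.ac_inv_cancel]
    rw [h7, e_sub h hv, add_zero]
  -- the value of the character
  have h8 : cd.chiN p (cd.phx (p j)) = cd.chiN p s0 := by
    have h9 : cd.chiN p r + cd.chiN p r⁻¹ = 0 := by
      rw [← hchi.2, mul_inv_cancel]
      have := hchi.2 1 1
      rw [one_mul] at this
      exact left_eq_add.mp this
    rw [hphx, hchi.2, hchi.2, add_right_comm, h9, zero_add]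
  rw [h6, h8]
  -- the Kummer point
  have h10 : S.iota (S.ac r (cd.homN p c s0)) = r • dl (cd.chiN p) Q s0 := by
    rw [← h.iota_ac]
    exact congrArg (fun t => r • t) h2.symm
  have h11 : r • (s0 • Q) = cd.phx (p j) • (r • Q) := by
    rw [hphx, smul_smul, smul_smul]
    congr 1
    group
  have htau := tau_apply h hv hy h5
  have h2s := two_sub_smul h hy h5
  have h01 : ∀ a : ZMod 2, a = 0 ∨ a = 1 := by decide
  rcases h01 (cd.chiN p s0) with h0 | h0
  · have h12 : S.iota (S.ac r (cd.homN p c s0)) = cd.phx (p j) • (r • Q) - r • Q := by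
      rw [h10, dl, tw, h0, sgn_zero, one_smul, smul_sub, h11]
    rw [h0, zero_mul, add_zero, htau, ← h12, Sys.un_iota h]
  · have h12 : S.iota (S.ac r (cd.homN p c s0)) =
        (cd.phx (p j) • (r • Q) - r • Q) + S.iota (c.2 j) := by
      have h13 : sgn (1 : ZMod 2) = -1 := rfl
      rw [h10, dl, tw, h0, h13, neg_smul, one_smul, smul_sub, smul_neg, h11]
      have h14 := Sys.neg_of_two h2s
      have h15 : S.iota (c.2 j) = - S.iota (c.2 j) := (Sys.neg_iota S _).symm
      rw [h15, ← h5, two_nsmul, ← h14]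
      abel
    have h16 : S.ac r (cd.homN p c s0) =
        S.un (cd.phx (p j) • (r • Q) - r • Q) + c.2 j := by
      rw [← Sys.un_iota h (S.ac r (cd.homN p c s0)), h12, Sys.un_add h h2s (Sys.two_iota S _),
        Sys.un_iota h]
    rw [h0, one_mul, htau, h16, map_add]

end Pool.Agent.SmN.J
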