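import Pool.Agent.Lib.SmN.J.Mom

/-!
Project SMITH without rational 2-torsion (MP_48b749_nt), block J: the moment theorem for families of
codes which are independent on the large places.
-/

set_option autoImplicit false

open Module

namespace Pool.Agent.SmN.J

variable {V Th α Z : Type} [AddCommGroup V] [Module (ZMod 2) V] [AddCommGroup Z]
  [Module (ZMod 2) Z]

open Classical in
/-- `b` with independent rows is invertible. -/
theorem RowInd.inv {I : Type} [Fintype I] {b : I → I → ZMod 2} (hb : RowInd b) :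
    ∃ b' : I → I → ZMod 2, ∀ k k', ∑ i, b' k i * b i k' = if k = k' then 1 else 0 := by
  classical
  have h1 : LinearIndependent (ZMod 2) (Matrix.of b).row := by
    rw [Fintype.linearIndependent_iff]
    intro a ha
    have h2 := hb a (fun k => by
      have h3 := congrFun ha k
      simpa [Matrix.row, Finset.sum_apply] using h3)
    exact fun i => congrFun h2 i
  have h2 : IsUnit (Matrix.of b) := Matrix.linearIndependent_rows_iff_isUnit.1 h1
  obtain ⟨u, hu⟩ := h2
  refine ⟨fun k i => (↑u⁻¹ : Matrix I I (ZMod 2)) k i, fun k k' => ?_⟩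
  have h3 : ((↑u⁻¹ : Matrix I I (ZMod 2)) * (Matrix.of b)) = 1 := by
    rw [← hu]
    exact u.inv_mul
  have h4 := congrFun (congrFun h3 k) k'
  rw [Matrix.mul_apply, Matrix.one_apply] at h4
  exact h4

theorem RowInd.inj {I W : Type} [Fintype I] [AddCommGroup W] [Module (ZMod 2) W]
    {b : I → I → ZMod 2} (hb : RowInd b) {y z : I → W}
    (h : ∀ i, ∑ k, b i k • y k = ∑ k, b i k • z k) : y = z := by
  classical
  obtain ⟨b', hb'⟩ := hb.inv
  have key : ∀ w : I → W, ∀ k, w k = ∑ i, b' k i • ∑ k', b i k' • w k' := by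
    intro w k
    have h1 : ∑ i, b' k i • ∑ k', b i k' • w k' = ∑ k', (∑ i, b' k i * b i k') • w k' := by
      simp only [Finset.smul_sum, Finset.sum_smul, smul_smul]
      exact Finset.sum_comm
    rw [h1]
    simp [hb']
  funext k
  rw [key y k, key z k]
  exact Finset.sum_congr rfl fun i _ => by rw [h i]

namespace GD

variable (G : GD V Th α Z) {I : Type} [Fintype I]

/-- The families counted by the moment theorem. -/
def Fam (Bad : (Fin G.M → Th) → (I → Fin G.M → V) → Prop) (pW : (Fin G.M → α) × (I → G.Cod)) :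
    Prop :=
  (∀ j : Fin G.M, pW.1 j ∈ G.X j) ∧ (∀ i, pW.2 i ∈ G.Selp pW.1) ∧
    G.IndL (fun i => (pW.2 i).2) ∧ Bad (fun j => G.ty (pW.1 j)) (fun i => (pW.2 i).2)

/-- The same with echelon form instead of independence. -/
def FamE (Bad : (Fin G.M → Th) → (I → Fin G.M → V) → Prop) (pW : (Fin G.M → α) × (I → G.Cod)) :
    Prop :=
  (∀ j : Fin G.M, pW.1 j ∈ G.X j) ∧ (∀ i, pW.2 i ∈ G.Selp pW.1) ∧
    (∃ top, G.EchT top (fun i => (pW.2 i).2)) ∧
    Bad (fun j => G.ty (pW.1 j)) (fun i => (pW.2 i).2)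

theorem exists_ech (W : I → Fin G.M → V) (hW : G.IndL W) :
    ∃ b : I → I → ZMod 2, RowInd b ∧
      ∃ top, G.EchT top (fun i j => ∑ k, b i k • W k j) := by
  classical
  let y : I → ℕ → V := fun i j => if h : j < G.M then W i ⟨j, h⟩ else 0
  obtain ⟨b, hb, top, h1, h2, h3⟩ := echelon G.ns G.M y (fun a ha => hW a fun j hj => by
    have h := ha j hj j.2
    simpa [y] using h)
  have hy : ∀ i (j : Fin G.M), tr b y i j = ∑ k, b i k • W k j := by
    intro i j
    simp [tr, y]
  refine ⟨b, hb, fun i => ⟨top i, (h1 i).2⟩, fun i => (h1 i).1, fun i j hij => ?_, fun t => ?_⟩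
  · have h := h2 i j hij j.2
    rw [hy] at h
    exact h
  · have h4 := (h3 t).comp (fun i : {i // (⟨top i, (h1 i).2⟩ : Fin G.M) = t} =>
      (⟨i.1, congrArg Fin.val i.2⟩ : {i // top i = (t : ℕ)})) (by
        intro a b hab
        exact Subtype.ext (congrArg (fun s : {i // top i = (t : ℕ)} => (s : I)) hab))
    simpa [Function.comp_def, hy] using h4

theorem finite_FamE [Finite V] [Finite Z] (P : (Fin G.M → α) × (I → G.Cod) → Prop)
    (hP : ∀ pW, P pW → ∀ j : Fin G.M, pW.1 j ∈ G.X j) : Finite {pW // P pW} := by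
  have : ∀ j : Fin G.M, Finite (G.X j) := fun j => (G.hX j).to_subtype
  exact Finite.of_injective (fun pW : {pW // P pW} =>
    ((fun j => ⟨pW.1.1 j, hP pW.1 pW.2 j⟩, pW.1.2) : ((j : Fin G.M) → G.X j) × (I → G.Cod))) (by
      intro a b hab
      simp only [Prod.mk.injEq] at hab
      apply Subtype.ext
      refine Prod.ext ?_ hab.2
      funext j
      exact congrArg Subtype.val (congrFun hab.1 j))

theorem card_Fam_le [Finite V] [Finite Z] (Bad : (Fin G.M → Th) → (I → Fin G.M → V) → Prop)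
    (hBad : ∀ t b y, RowInd b → Bad t y → Bad t (fun i j => ∑ k, b i k • y k j)) :
    Nat.card {pW // G.Fam Bad pW} ≤
      2 ^ (Fintype.card I * Fintype.card I) * Nat.card {pW // G.FamE Bad pW} := by
  classical
  have hE : ∀ pW : {pW // G.Fam Bad pW}, ∃ b : I → I → ZMod 2, RowInd b ∧
      ∃ top, G.EchT top (fun i j => ∑ k, b i k • (pW.1.2 k).2 j) := fun pW =>
    G.exists_ech _ pW.2.2.2.1
  choose b hb htop using hE
  have hfin := G.finite_FamE (I := I) (G.FamE Bad) fun pW h => h.1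
  have hcard : Nat.card (I → I → ZMod 2) = 2 ^ (Fintype.card I * Fintype.card I) := by
    rw [Nat.card_fun, Nat.card_fun, Nat.card_zmod, Nat.card_eq_fintype_card, pow_mul]
  rw [← hcard, ← Nat.card_prod]
  have hmem : ∀ pW : {pW // G.Fam Bad pW}, G.FamE Bad
      (pW.1.1, fun i => ∑ k, b pW i k • pW.1.2 k) := by
    intro pW
    have h1 : ∀ i, (∑ k, b pW i k • pW.1.2 k).2 = fun j => ∑ k, b pW i k • (pW.1.2 k).2 j := by
      intro i
      funext j
      rw [Prod.snd_sum, Finset.sum_apply]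
      rfl
    refine ⟨pW.2.1, fun i => Submodule.sum_mem _ fun k _ => Submodule.smul_mem _ _ (pW.2.2.1 k),
      ?_, ?_⟩
    · simp only [h1]
      exact htop pW
    · simp only [h1]
      exact hBad _ _ _ (hb pW) pW.2.2.2.2
  refine Nat.card_le_card_of_injective (fun pW : {pW // G.Fam Bad pW} =>
    ((b pW, ⟨_, hmem pW⟩) : (I → I → ZMod 2) × {pW // G.FamE Bad pW})) ?_
  intro pW pW' h
  simp only [Prod.mk.injEq, Subtype.mk.injEq] at h
  obtain ⟨h1, h2, h3⟩ := h
  apply Subtype.ext
  refine Prod.ext h2 ?_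
  refine (hb pW).inj fun i => ?_
  have h4 := congrFun h3 i
  rw [h4, h1]

open Classical in
/-- **Moment theorem.** -/
theorem moment [Finite V] [Finite Z] [Fintype Th] [Inhabited Th]
    (Bad : (Fin G.M → Th) → (I → Fin G.M → V) → Prop)
    (hBad : ∀ t b y, RowInd b → Bad t y → Bad t (fun i j => ∑ k, b i k • y k j)) :
    (Nat.card {pW // G.Fam Bad pW} : ℝ) ≤
      2 ^ (Fintype.card I * Fintype.card I) * (Nat.card Z : ℝ) ^ Fintype.card I *
      (Nat.card V : ℝ) ^ (Fintype.card I * Fintype.card I) *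
      ∑ t : Fin G.M → Th, (∏ j : Fin G.M, G.wt j (t j)) *
        ((Nat.card {x : I → (j : Fin G.M) → G.F (t j) // Bad t (fun i j => x i j)} : ℝ) /
          ∏ j, (Nat.card (G.F (t j)) : ℝ) ^ Fintype.card I) := by
  have : ∀ j : Fin G.M, Finite (G.X j) := fun j => (G.hX j).to_subtype
  have h0 : (Nat.card {pW // G.Fam Bad pW} : ℝ) ≤
      2 ^ (Fintype.card I * Fintype.card I) * (Nat.card {pW // G.FamE Bad pW} : ℝ) := by
    exact_mod_cast G.card_Fam_le Bad hBad
  refine h0.trans ?_
  rw [mul_assoc, mul_assoc]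
  refine mul_le_mul_of_nonneg_left ?_ (by positivity)
  -- fibration over the types, the first components and the rows
  let Xs : (Fin G.M → Th) → Type := fun t =>
    {x : I → (j : Fin G.M) → G.F (t j) // Bad t (fun i j => x i j) ∧
      ∃ top, G.EchT top (fun i j => (x i j : V))}
  let Ps : (t : Fin G.M → Th) → (I → Z) → Xs t → Type := fun t g x =>
    {p : Fin G.M → α // (∀ j : Fin G.M, p j ∈ G.X j) ∧ (∀ j, G.ty (p j) = t j) ∧
      ∀ i, (g i, fun j => (x.1 i j : V)) ∈ G.Selp p}
  have hPf : ∀ t g x, Finite (Ps t g x) := fun t g x =>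
    Finite.of_injective (fun p : Ps t g x =>
      (fun j => ⟨p.1 j, p.2.1 j⟩ : (j : Fin G.M) → G.X j)) (by
        intro a b hab
        apply Subtype.ext
        funext j
        exact congrArg Subtype.val (congrFun hab j))
  have hXf : ∀ t, Finite (Xs t) := fun t => inferInstance
  have h1 : Nat.card {pW // G.FamE Bad pW} ≤
      Nat.card (Σ t : Fin G.M → Th, Σ g : I → Z, Σ x : Xs t, Ps t g x) := by
    refine Nat.card_le_card_of_injective (fun pW : {pW // G.FamE Bad pW} =>
      (⟨fun j => G.ty (pW.1.1 j), fun i => (pW.1.2 i).1,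
        ⟨fun i j => ⟨(pW.1.2 i).2 j, (pW.2.2.1 i).1 j⟩, pW.2.2.2.2, pW.2.2.2.1⟩,
        ⟨pW.1.1, pW.2.1, fun j => rfl, fun i => pW.2.2.1 i⟩⟩ :
        Σ t : Fin G.M → Th, Σ g : I → Z, Σ x : Xs t, Ps t g x)) ?_
    intro a b hab
    have h2 := congrArg (fun s : (Σ t : Fin G.M → Th, Σ g : I → Z, Σ x : Xs t, Ps t g x) =>
      (s.2.2.2.1, s.2.1, fun i j => (s.2.2.1.1 i j : V))) hab
    simp only [Prod.mk.injEq] at h2
    apply Subtype.ext
    refine Prod.ext h2.1 ?_
    funext i
    exact Prod.ext (congrFun h2.2.1 i) (congrFun h2.2.2 i)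
  have h2 : (Nat.card {pW // G.FamE Bad pW} : ℝ) ≤
      ∑ t : Fin G.M → Th, (Nat.card Z : ℝ) ^ Fintype.card I * (Nat.card (Xs t) *
        ((∏ j : Fin G.M, G.wt j (t j)) * (Nat.card V : ℝ) ^ (Fintype.card I * Fintype.card I) /
          ∏ j, (Nat.card (G.F (t j)) : ℝ) ^ Fintype.card I)) := by
    refine le_trans (Nat.cast_le.2 h1) ?_
    rw [Nat.card_sigma, Nat.cast_sum]
    refine Finset.sum_le_sum fun t _ => ?_
    have := Fintype.ofFinite Z
    have := Fintype.ofFinite (Xs t)
    rw [Nat.card_sigma, Nat.cast_sum]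
    have h3 : ∀ g : I → Z, (Nat.card (Σ x : Xs t, Ps t g x) : ℝ) ≤ Nat.card (Xs t) *
        ((∏ j : Fin G.M, G.wt j (t j)) * (Nat.card V : ℝ) ^ (Fintype.card I * Fintype.card I) /
          ∏ j, (Nat.card (G.F (t j)) : ℝ) ^ Fintype.card I) := by
      intro g
      rw [Nat.card_sigma, Nat.cast_sum]
      have h4 : ∀ x : Xs t, (Nat.card (Ps t g x) : ℝ) ≤
          (∏ j : Fin G.M, G.wt j (t j)) * (Nat.card V : ℝ) ^ (Fintype.card I * Fintype.card I) /
          ∏ j, (Nat.card (G.F (t j)) : ℝ) ^ Fintype.card I := by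
        intro x
        obtain ⟨top, htop⟩ := x.2.2
        rw [le_div_iff₀ (Finset.prod_pos fun j _ => pow_pos (by exact_mod_cast Nat.card_pos) _)]
        exact G.fib_le top t g (fun i j => (x.1 i j : V)) (fun i j => (x.1 i j).2) htop
      calc _ ≤ ∑ _x : Xs t, (∏ j : Fin G.M, G.wt j (t j)) *
            (Nat.card V : ℝ) ^ (Fintype.card I * Fintype.card I) /
            ∏ j, (Nat.card (G.F (t j)) : ℝ) ^ Fintype.card I := Finset.sum_le_sum fun x _ => h4 x
        _ = _ := by
            rw [Finset.sum_const, Finset.card_univ, nsmul_eq_mul,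
              Nat.card_eq_fintype_card (α := Xs t)]
    calc _ ≤ ∑ _g : I → Z, (Nat.card (Xs t) *
          ((∏ j : Fin G.M, G.wt j (t j)) * (Nat.card V : ℝ) ^ (Fintype.card I * Fintype.card I) /
          ∏ j, (Nat.card (G.F (t j)) : ℝ) ^ Fintype.card I)) := Finset.sum_le_sum fun g _ => h3 g
      _ = _ := by
          rw [Finset.sum_const, Finset.card_univ, nsmul_eq_mul]
          congr 1
          rw [Fintype.card_fun, Nat.card_eq_fintype_card (α := Z)]
          push_cast
          rfl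
  refine h2.trans ?_
  rw [Finset.mul_sum, Finset.mul_sum]
  refine Finset.sum_le_sum fun t _ => ?_
  have h5 : (Nat.card (Xs t) : ℝ) ≤
      Nat.card {x : I → (j : Fin G.M) → G.F (t j) // Bad t (fun i j => x i j)} := by
    exact_mod_cast Nat.card_le_card_of_injective
      (fun x : Xs t => (⟨x.1, x.2.1⟩ :
        {x : I → (j : Fin G.M) → G.F (t j) // Bad t (fun i j => x i j)})) (by
        intro a b hab
        exact Subtype.ext (congrArg (fun s :
          {x : I → (j : Fin G.M) → G.F (t j) // Bad t (fun i j => x i j)} => s.1) hab))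
  have hw : 0 ≤ ∏ j : Fin G.M, G.wt j (t j) := Finset.prod_nonneg fun j _ => G.wt_nonneg _ _
  have hF : (0 : ℝ) ≤ ∏ j, (Nat.card (G.F (t j)) : ℝ) ^ Fintype.card I :=
    Finset.prod_nonneg fun j _ => by positivity
  calc (Nat.card Z : ℝ) ^ Fintype.card I * (Nat.card (Xs t) *
        ((∏ j : Fin G.M, G.wt j (t j)) * (Nat.card V : ℝ) ^ (Fintype.card I * Fintype.card I) /
          ∏ j, (Nat.card (G.F (t j)) : ℝ) ^ Fintype.card I)) ≤
      (Nat.card Z : ℝ) ^ Fintype.card I *
        (Nat.card {x : I → (j : Fin G.M) → G.F (t j) // Bad t (fun i j => x i j)} *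
        ((∏ j : Fin G.M, G.wt j (t j)) * (Nat.card V : ℝ) ^ (Fintype.card I * Fintype.card I) /
          ∏ j, (Nat.card (G.F (t j)) : ℝ) ^ Fintype.card I)) := by
        refine mul_le_mul_of_nonneg_left (mul_le_mul_of_nonneg_right h5 ?_) (by positivity)
        exact div_nonneg (mul_nonneg hw (by positivity)) hF
    _ = _ := by ring

end GD

end Pool.Agent.SmN.J
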