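import Pool.Agent.Lib.SmN.J.Mom2

/-!
Project SMITH without rational 2-torsion (MP_48b749_nt), block J: the number of the points with a
small pattern count (exponential moment).
-/

set_option autoImplicit false

open Module Finset

namespace Pool.Agent.SmN.J

theorem sum_prod_pi {M : ℕ} {Th : Type} [Fintype Th] (f : Fin M → Th → ℝ) :
    ∑ t : Fin M → Th, ∏ j, f j (t j) = ∏ j, ∑ t, f j t := by
  classical
  rw [Finset.prod_univ_sum, Fintype.piFinset_univ]

namespace GD

variable {V Th α Z : Type} [AddCommGroup V] [Module (ZMod 2) V] [AddCommGroup Z]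
  [Module (ZMod 2) Z] (G : GD V Th α Z)

open Classical in
/-- The weights of a grid: `A` = good positions, `sp` = split types, `K` = the codes of the
coboundaries. -/
structure GW [Fintype Th] (A : Finset (Fin G.M)) (sp : Th → Prop) (K : Submodule (ZMod 2) Z)
    (κ δ : ℝ) : Prop where
  one : ∀ j < G.ns, Nat.card (G.X j) = 1
  ns_le : ∀ j ∈ A, G.ns ≤ j
  sp_top : ∀ t, sp t → G.F t = ⊤
  κ0 : 0 < κ
  κ1 : κ ≤ 1
  δ0 : 0 ≤ δ
  tot : ∀ j, G.ns ≤ j → j < G.M → ∑ t, G.c j t ≤ (1 + δ) * Nat.card (G.X j)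
  spl : ∀ j ∈ A, κ * Nat.card (G.X j) ≤ ∑ t ∈ univ.filter sp, G.c j t
  zr : ∀ j ∈ A, ∀ g ∉ K, κ * Nat.card (G.X j) ≤
    ∑ t ∈ univ.filter (fun t => ∃ v ∈ G.F t, G.zz t v g ≠ 0), G.c j t

/-- The number of the points of the grid. -/
noncomputable def pts : ℝ := ∏ j : Fin G.M, (Nat.card (G.X j) : ℝ)

/-- Pattern count: the number of the good split positions with the pattern `w`. -/
def pc {I : Type} (A : Finset (Fin G.M)) (sp : Th → Prop) (t : Fin G.M → Th)
    (x : I → Fin G.M → V) (w : I → V) : Set (Fin G.M) :=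
  {j | j ∈ A ∧ sp (t j) ∧ ∀ i, x i j = w i}

variable {G} [Fintype Th] {A : Finset (Fin G.M)} {sp : Th → Prop} {K : Submodule (ZMod 2) Z}
  {κ δ : ℝ}

theorem GW.sum_wt (h : G.GW A sp K κ δ) (j : Fin G.M) :
    ∑ t, G.wt j t ≤ (1 + δ) * Nat.card (G.X j) := by
  classical
  by_cases hj : (j : ℕ) < G.ns
  · have h1 := h.one j hj
    obtain ⟨a, ha⟩ : ∃ a, G.X j = {a} := by
      have := (G.hX j).to_subtype
      have h2 : (G.X j).ncard = 1 := h1
      exact Set.ncard_eq_one.1 h2
    have h2 : ∀ t, G.wt j t = if t = G.ty a then 1 else 0 := by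
      intro t
      unfold wt
      rw [if_pos hj, ha]
      simp only [Set.mem_singleton_iff, exists_eq_left]
      congr 1
      exact propext eq_comm
    rw [Finset.sum_congr rfl fun t _ => h2 t, Finset.sum_ite_eq' , if_pos (mem_univ _), h1]
    simpa using h.δ0
  · push Not at hj
    have h2 : ∀ t, G.wt j t = G.c j t := by
      intro t
      unfold wt
      rw [if_neg (not_lt.2 hj)]
    rw [Finset.sum_congr rfl fun t _ => h2 t]
    exact h.tot j hj j.2

theorem GW.wt_large (h : G.GW A sp K κ δ) {j : Fin G.M} (hj : j ∈ A) (t : Th) :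
    G.wt j t = G.c j t := by
  unfold wt
  rw [if_neg (not_lt.2 (h.ns_le j hj))]

open Classical in
theorem card_bad_rows {I : Type} [Fintype I] [Finite V] (h : G.GW A sp K κ δ) (k : ℕ)
    (t : Fin G.M → Th) (w : I → V) :
    (Nat.card {x : I → (j : Fin G.M) → G.F (t j) //
      Nat.card (G.pc A sp t (fun i j => x i j) w) < k} : ℝ) /
      ∏ j, (Nat.card (G.F (t j)) : ℝ) ^ Fintype.card I ≤
    2 ^ k * ∏ j : Fin G.M, (if j ∈ A ∧ sp (t j) then
      1 - 1 / (2 * (Nat.card V : ℝ) ^ Fintype.card I) else 1) := by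
  have hV : (0 : ℝ) < Nat.card V := by exact_mod_cast Nat.card_pos
  have hF : ∀ j, (0 : ℝ) < (Nat.card (G.F (t j)) : ℝ) ^ Fintype.card I := fun j =>
    pow_pos (by exact_mod_cast Nat.card_pos) _
  rw [div_le_iff₀ (Finset.prod_pos fun j _ => hF j)]
  have hfin2 : ∀ j, Fintype (I → G.F (t j)) := fun j => Fintype.ofFinite _
  -- the weight of a row
  let wg : (j : Fin G.M) → (I → G.F (t j)) → ℝ := fun j y =>
    if j ∈ A ∧ sp (t j) ∧ ∀ i, (y i : V) = w i then 1 / 2 else 1
  have hw0 : ∀ j y, 0 ≤ wg j y := by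
    intro j y
    simp only [wg]
    split_ifs <;> norm_num
  have h1 : (Nat.card {x : I → (j : Fin G.M) → G.F (t j) //
      Nat.card (G.pc A sp t (fun i j => x i j) w) < k} : ℝ) ≤
      ∑ y : (j : Fin G.M) → I → G.F (t j), 2 ^ k * ∏ j, wg j (y j) := by
    have e : {x : I → (j : Fin G.M) → G.F (t j) //
      Nat.card (G.pc A sp t (fun i j => x i j) w) < k} ≃
      {y : (j : Fin G.M) → I → G.F (t j) //
      Nat.card (G.pc A sp t (fun i j => y j i) w) < k} :=
      Equiv.subtypeEquiv (Equiv.piComm _) (fun x => Iff.rfl)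
    rw [Nat.card_congr e, Nat.card_eq_fintype_card, Fintype.card_subtype,
      Finset.card_eq_sum_ones, Nat.cast_sum, Finset.sum_filter]
    refine Finset.sum_le_sum fun y _ => ?_
    split_ifs with hy
    · have h2 : ∏ j, wg j (y j) = (1 / 2 : ℝ) ^ Nat.card (G.pc A sp t (fun i j => y j i) w) := by
        simp only [wg]
        rw [Finset.prod_ite, Finset.prod_const, Finset.prod_const_one, mul_one]
        congr 1
        refine (Nat.subtype_card _ fun j => ?_).symm
        rw [Finset.mem_filter]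
        simp [pc]
      rw [h2, Nat.cast_one]
      have h3 : (1 / 2 : ℝ) ^ k ≤ (1 / 2 : ℝ) ^ Nat.card (G.pc A sp t (fun i j => y j i) w) :=
        pow_le_pow_of_le_one (by norm_num) (by norm_num) hy.le
      calc (1 : ℝ) = 2 ^ k * (1 / 2) ^ k := by rw [← mul_pow]; norm_num
        _ ≤ _ := mul_le_mul_of_nonneg_left h3 (by positivity)
    · exact mul_nonneg (by positivity) (Finset.prod_nonneg fun j _ => hw0 j _)
  refine h1.trans ?_
  rw [← Finset.mul_sum, mul_assoc]
  refine mul_le_mul_of_nonneg_left ?_ (by positivity)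
  have h2 : ∑ y : (j : Fin G.M) → I → G.F (t j), ∏ j, wg j (y j) =
      ∏ j, ∑ y : I → G.F (t j), wg j y := by
    rw [Finset.prod_univ_sum, Fintype.piFinset_univ]
  rw [h2, ← Finset.prod_mul_distrib]
  refine Finset.prod_le_prod (fun j _ => Finset.sum_nonneg fun y _ => hw0 j y) fun j _ => ?_
  have hcard : (Fintype.card (I → G.F (t j)) : ℝ) =
      (Nat.card (G.F (t j)) : ℝ) ^ Fintype.card I := by
    rw [← Nat.card_eq_fintype_card, Nat.card_fun, Nat.card_eq_fintype_card (α := I)]
    push_cast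
    rfl
  by_cases hj : j ∈ A ∧ sp (t j)
  · rw [if_pos hj]
    have htop := h.sp_top _ hj.2
    have hcV : (Nat.card (G.F (t j)) : ℝ) = Nat.card V := by
      rw [htop]
      exact_mod_cast Nat.card_congr (Submodule.topEquiv (R := ZMod 2) (M := V)).toEquiv
    let y0 : I → G.F (t j) := fun i => ⟨w i, by rw [htop]; trivial⟩
    have h3 : ∑ y : I → G.F (t j), wg j y ≤
        ∑ y : I → G.F (t j), (1 - if y = y0 then 1 / 2 else 0) := by
      refine Finset.sum_le_sum fun y _ => ?_
      by_cases hy : y = y0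
      · rw [if_pos hy]
        simp only [wg]
        rw [if_pos ⟨hj.1, hj.2, fun i => by rw [hy]⟩]
        norm_num
      · rw [if_neg hy]
        simp only [wg]
        split_ifs <;> norm_num
    refine h3.trans ?_
    rw [Finset.sum_sub_distrib, Finset.sum_ite_eq', if_pos (mem_univ _), Finset.sum_const,
      Finset.card_univ, nsmul_eq_mul, mul_one, hcard, hcV]
    have h4 : (Nat.card V : ℝ) ^ Fintype.card I ≠ 0 := (pow_pos hV _).ne'
    have h5 : (1 - 1 / (2 * (Nat.card V : ℝ) ^ Fintype.card I)) *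
        (Nat.card V : ℝ) ^ Fintype.card I = (Nat.card V : ℝ) ^ Fintype.card I - 1 / 2 := by
      field_simp
    rw [h5]
  · rw [if_neg hj, one_mul]
    have h3 : ∀ y : I → G.F (t j), wg j y = 1 := by
      intro y
      simp only [wg]
      rw [if_neg]
      rintro ⟨h1, h2, _⟩
      exact hj ⟨h1, h2⟩
    rw [Finset.sum_congr rfl fun y _ => h3 y, Finset.sum_const, Finset.card_univ, nsmul_eq_mul,
      mul_one, hcard]

end GD

end Pool.Agent.SmN.J
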