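import Pool.Agent.Lib.SmN.J.Pat

/-!
Project SMITH without rational 2-torsion (MP_48b749_nt), block J: the moment theorem with weights,
all families and the families with a rare pattern.
-/

set_option autoImplicit false

open Module Finset

namespace Pool.Agent.SmN.J

namespace GD

variable {V Th α Z : Type} [AddCommGroup V] [Module (ZMod 2) V] [AddCommGroup Z]
  [Module (ZMod 2) Z] {G : GD V Th α Z}

theorem pts_nonneg : 0 ≤ G.pts := Finset.prod_nonneg fun _ _ => Nat.cast_nonneg _

variable [Fintype Th] {A : Finset (Fin G.M)} {sp : Th → Prop} {K : Submodule (ZMod 2) Z}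
  {κ δ : ℝ}

/-- A product over the positions. -/
theorem GW.prod_le (h : G.GW A sp K κ δ) {u : ℝ} (hu : 0 ≤ u) (f : Fin G.M → ℝ)
    (hf0 : ∀ j, 0 ≤ f j) (hf : ∀ j, f j ≤ (1 + δ) * Nat.card (G.X j))
    (hfA : ∀ j ∈ A, f j ≤ u * Nat.card (G.X j)) :
    ∏ j, f j ≤ (1 + δ) ^ G.M * u ^ A.card * G.pts := by
  classical
  have hδ := h.δ0
  calc ∏ j, f j ≤ ∏ j, (((1 + δ) * if j ∈ A then u else 1) * (Nat.card (G.X j) : ℝ)) := by
        refine Finset.prod_le_prod (fun j _ => hf0 j) fun j _ => ?_
        by_cases hj : j ∈ A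
        · rw [if_pos hj]
          refine (hfA j hj).trans (mul_le_mul_of_nonneg_right ?_ (Nat.cast_nonneg _))
          nlinarith
        · rw [if_neg hj, mul_one]
          exact hf j
    _ = _ := by
        rw [Finset.prod_mul_distrib, Finset.prod_mul_distrib, Finset.prod_const, Finset.card_univ,
          Fintype.card_fin, Finset.prod_ite, Finset.prod_const, Finset.prod_const_one, mul_one]
        unfold pts
        congr 3
        congr 1
        ext j
        simp

variable [Finite V] [Finite Z] [Inhabited Th]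

theorem GW.mom_true (h : G.GW A sp K κ δ) (I : Type) [Fintype I] :
    (Nat.card {pW // G.Fam (I := I) (fun _ _ => True) pW} : ℝ) ≤
      2 ^ (Fintype.card I * Fintype.card I) * (Nat.card Z : ℝ) ^ Fintype.card I *
      (Nat.card V : ℝ) ^ (Fintype.card I * Fintype.card I) * ((1 + δ) ^ G.M * G.pts) := by
  classical
  refine (G.moment (I := I) (fun _ _ => True) (fun _ _ _ _ _ => trivial)).trans ?_
  refine mul_le_mul_of_nonneg_left ?_ (by positivity)
  have h1 : ∀ t : Fin G.M → Th, (Nat.card {x : I → (j : Fin G.M) → G.F (t j) // True} : ℝ) /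
      ∏ j, (Nat.card (G.F (t j)) : ℝ) ^ Fintype.card I = 1 := by
    intro t
    have h2 : Nat.card {x : I → (j : Fin G.M) → G.F (t j) // True} =
        (∏ j, Nat.card (G.F (t j))) ^ Fintype.card I := by
      rw [Nat.card_congr (Equiv.subtypeUnivEquiv fun _ => trivial), Nat.card_fun, Nat.card_pi,
        Nat.card_eq_fintype_card (α := I)]
    rw [h2, ← Finset.prod_pow]
    push_cast
    rw [Finset.prod_pow]
    refine div_self (pow_ne_zero _ (Finset.prod_ne_zero_iff.2 fun j _ => ?_))
    exact_mod_cast Nat.card_pos.ne'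
  rw [Finset.sum_congr rfl fun t _ => by rw [h1 t, mul_one], sum_prod_pi (fun j t => G.wt j t)]
  have h3 := h.prod_le (u := 1 + δ) (by linarith [h.δ0]) (fun j => ∑ t, G.wt j t)
    (fun j => Finset.sum_nonneg fun t _ => G.wt_nonneg _ _) (fun j => h.sum_wt j)
    (fun j _ => h.sum_wt j)
  have h4 : ∏ j : Fin G.M, ∑ t, G.wt j t ≤ ∏ j : Fin G.M, ((1 + δ) * (Nat.card (G.X j) : ℝ)) :=
    Finset.prod_le_prod (fun j _ => Finset.sum_nonneg fun t _ => G.wt_nonneg _ _)
      fun j _ => h.sum_wt j
  refine h4.trans (le_of_eq ?_)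
  rw [Finset.prod_mul_distrib, Finset.prod_const, Finset.card_univ, Fintype.card_fin]
  rfl

theorem GW.mom_pat (h : G.GW A sp K κ δ) (I : Type) [Fintype I] (k : ℕ) :
    (Nat.card {pW // G.Fam (I := I) (fun t x => ∃ w : I → V, Nat.card (G.pc A sp t x w) < k) pW} :
      ℝ) ≤
      2 ^ (Fintype.card I * Fintype.card I) * (Nat.card Z : ℝ) ^ Fintype.card I *
      (Nat.card V : ℝ) ^ (Fintype.card I * Fintype.card I) * ((Nat.card V : ℝ) ^ Fintype.card I *
      (2 ^ k * ((1 + δ) ^ G.M * (1 + δ - κ / (2 * (Nat.card V : ℝ) ^ Fintype.card I)) ^ A.card *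
        G.pts))) := by
  classical
  refine (G.moment (I := I) (fun t x => ∃ w : I → V, Nat.card (G.pc A sp t x w) < k)
    (fun t b y hb hy => ?_)).trans ?_
  · -- invariance
    obtain ⟨w, hw⟩ := hy
    refine ⟨fun i => ∑ k, b i k • w k, lt_of_le_of_lt (le_of_eq ?_) hw⟩
    congr 1
    have : G.pc A sp t (fun i j => ∑ k, b i k • y k j) (fun i => ∑ k, b i k • w k) =
        G.pc A sp t y w := by
      ext j
      simp only [pc, Set.mem_ofPred_eq]
      constructor
      · rintro ⟨h1, h2, h3⟩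
        refine ⟨h1, h2, fun i => ?_⟩
        exact congrFun (hb.inj (y := fun i => y i j) (z := w) h3) i
      · rintro ⟨h1, h2, h3⟩
        refine ⟨h1, h2, fun i => Finset.sum_congr rfl fun k _ => by rw [h3 k]⟩
    rw [this]
  refine mul_le_mul_of_nonneg_left ?_ (by positivity)
  set r0 : ℝ := 1 / (2 * (Nat.card V : ℝ) ^ Fintype.card I) with hr0
  have hV : (1 : ℝ) ≤ Nat.card V := by exact_mod_cast Nat.card_pos
  have hVI : (1 : ℝ) ≤ (Nat.card V : ℝ) ^ Fintype.card I := one_le_pow₀ hV
  have hr00 : 0 ≤ r0 := by positivity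
  have hr01 : r0 ≤ 1 / 2 := by
    rw [hr0, div_le_div_iff₀ (by positivity) (by norm_num)]
    linarith
  let ρ : Fin G.M → Th → ℝ := fun j t => if j ∈ A ∧ sp t then 1 - r0 else 1
  have hρ0 : ∀ j t, 0 ≤ ρ j t := by
    intro j t
    simp only [ρ]
    split_ifs <;> linarith
  have hρ1 : ∀ j t, ρ j t ≤ 1 := by
    intro j t
    simp only [ρ]
    split_ifs <;> linarith
  have h1 : ∀ t : Fin G.M → Th, (Nat.card {x : I → (j : Fin G.M) → G.F (t j) //
      ∃ w : I → V, Nat.card (G.pc A sp t (fun i j => x i j) w) < k} : ℝ) /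
      ∏ j, (Nat.card (G.F (t j)) : ℝ) ^ Fintype.card I ≤
      (Nat.card V : ℝ) ^ Fintype.card I * (2 ^ k * ∏ j, ρ j (t j)) := by
    intro t
    have hfinV : Fintype (I → V) := Fintype.ofFinite _
    have h2 : (Nat.card {x : I → (j : Fin G.M) → G.F (t j) //
      ∃ w : I → V, Nat.card (G.pc A sp t (fun i j => x i j) w) < k} : ℝ) ≤
      ∑ w : I → V, (Nat.card {x : I → (j : Fin G.M) → G.F (t j) //
        Nat.card (G.pc A sp t (fun i j => x i j) w) < k} : ℝ) := by
      have h3 : Nat.card {x : I → (j : Fin G.M) → G.F (t j) //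
          ∃ w : I → V, Nat.card (G.pc A sp t (fun i j => x i j) w) < k} ≤
          Nat.card (Σ w : I → V, {x : I → (j : Fin G.M) → G.F (t j) //
            Nat.card (G.pc A sp t (fun i j => x i j) w) < k}) := by
        refine Nat.card_le_card_of_injective
          (fun x : {x : I → (j : Fin G.M) → G.F (t j) //
            ∃ w : I → V, Nat.card (G.pc A sp t (fun i j => x i j) w) < k} =>
            (⟨x.2.choose, ⟨x.1, x.2.choose_spec⟩⟩ : Σ w : I → V,
              {x : I → (j : Fin G.M) → G.F (t j) //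
            Nat.card (G.pc A sp t (fun i j => x i j) w) < k})) ?_
        intro a b hab
        have h4 := congrArg (fun s : (Σ w : I → V, {x : I → (j : Fin G.M) → G.F (t j) //
            Nat.card (G.pc A sp t (fun i j => x i j) w) < k}) => s.2.1) hab
        exact Subtype.ext h4
      rw [Nat.card_sigma] at h3
      exact_mod_cast h3
    refine (div_le_div_of_nonneg_right h2 (Finset.prod_nonneg fun j _ => by positivity)).trans ?_
    rw [Finset.sum_div]
    have h5 : ∀ w : I → V, (Nat.card {x : I → (j : Fin G.M) → G.F (t j) //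
        Nat.card (G.pc A sp t (fun i j => x i j) w) < k} : ℝ) /
        ∏ j, (Nat.card (G.F (t j)) : ℝ) ^ Fintype.card I ≤ 2 ^ k * ∏ j, ρ j (t j) :=
      fun w => card_bad_rows h k t w
    calc _ ≤ ∑ _w : I → V, 2 ^ k * ∏ j, ρ j (t j) := Finset.sum_le_sum fun w _ => h5 w
      _ = _ := by
          rw [Finset.sum_const, Finset.card_univ, nsmul_eq_mul]
          congr 1
          rw [← Nat.card_eq_fintype_card, Nat.card_fun, Nat.card_eq_fintype_card (α := I)]
          push_cast
          rfl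
  have h6 : ∑ t : Fin G.M → Th, (∏ j : Fin G.M, G.wt j (t j)) *
        ((Nat.card {x : I → (j : Fin G.M) → G.F (t j) //
          ∃ w : I → V, Nat.card (G.pc A sp t (fun i j => x i j) w) < k} : ℝ) /
          ∏ j, (Nat.card (G.F (t j)) : ℝ) ^ Fintype.card I) ≤
      (Nat.card V : ℝ) ^ Fintype.card I * (2 ^ k *
        ∑ t : Fin G.M → Th, ∏ j : Fin G.M, (G.wt j (t j) * ρ j (t j))) := by
    rw [Finset.mul_sum, Finset.mul_sum]
    refine Finset.sum_le_sum fun t _ => ?_
    refine (mul_le_mul_of_nonneg_left (h1 t)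
      (Finset.prod_nonneg fun j _ => G.wt_nonneg _ _)).trans (le_of_eq ?_)
    rw [Finset.prod_mul_distrib]
    ring
  refine h6.trans ?_
  refine mul_le_mul_of_nonneg_left (mul_le_mul_of_nonneg_left ?_ (by positivity)) (by positivity)
  rw [sum_prod_pi (fun j t => G.wt j t * ρ j t)]
  refine h.prod_le ?_ _ (fun j => Finset.sum_nonneg fun t _ =>
    mul_nonneg (G.wt_nonneg _ _) (hρ0 _ _)) (fun j => ?_) fun j hj => ?_
  · have h7 : κ / (2 * (Nat.card V : ℝ) ^ Fintype.card I) = κ * r0 := by rw [hr0]; ring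
    rw [h7]
    nlinarith [h.κ0, h.κ1, h.δ0]
  · refine le_trans (Finset.sum_le_sum fun t _ => ?_) (h.sum_wt j)
    exact mul_le_of_le_one_right (G.wt_nonneg _ _) (hρ1 _ _)
  · have h7 : ∑ t, G.wt j t * ρ j t = ∑ t, G.wt j t -
        r0 * ∑ t ∈ univ.filter sp, G.c j t := by
      rw [Finset.mul_sum, Finset.sum_filter, ← Finset.sum_sub_distrib]
      refine Finset.sum_congr rfl fun t _ => ?_
      rw [h.wt_large hj]
      simp only [ρ, hj, true_and]
      split_ifs <;> ring
    rw [h7]
    have h8 := h.spl j hj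
    have h9 := h.sum_wt j
    have h10 : κ / (2 * (Nat.card V : ℝ) ^ Fintype.card I) = κ * r0 := by rw [hr0]; ring
    rw [h10]
    have h11 : r0 * (κ * Nat.card (G.X j)) ≤ r0 * ∑ t ∈ univ.filter sp, G.c j t :=
      mul_le_mul_of_nonneg_left h8 hr00
    nlinarith

end GD

end Pool.Agent.SmN.J
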