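import Pool.Agent.Lib.SmN.J.Pat2

/-!
Project SMITH without rational 2-torsion (MP_48b749_nt), block J: the codes which are supported on
the small places.
-/

set_option autoImplicit false

open Module Finset

namespace Pool.Agent.SmN.J

/-- Sequential counting. -/
theorem card_seq {α : Type} (Q : (j : ℕ) → (Fin j → α) → α → Prop) (b : ℕ → ℝ)
    (hb0 : ∀ j, 0 ≤ b j) (M : ℕ) (hfin : ∀ j < M, ∀ p : Fin j → α, Finite {a // Q j p a})
    (hb : ∀ j < M, ∀ p : Fin j → α, (∀ i : Fin j, Q i (fun k => p ⟨k, k.2.trans i.2⟩) (p i)) →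
      (Nat.card {a // Q j p a} : ℝ) ≤ b j) :
    Finite {p : Fin M → α // ∀ i : Fin M, Q i (fun k => p ⟨k, k.2.trans i.2⟩) (p i)} ∧
    (Nat.card {p : Fin M → α // ∀ i : Fin M, Q i (fun k => p ⟨k, k.2.trans i.2⟩) (p i)} : ℝ) ≤
      ∏ j ∈ Finset.range M, b j := by
  induction M with
  | zero =>
    refine ⟨inferInstance, ?_⟩
    rw [Finset.range_zero, Finset.prod_empty]
    exact_mod_cast Finite.card_le_one_iff_subsingleton.2 inferInstance
  | succ M ih =>
    obtain ⟨h1, h2⟩ := ih (fun j hj => hfin j (hj.trans M.lt_succ_self))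
      (fun j hj => hb j (hj.trans M.lt_succ_self))
    have hf : ∀ p : {p : Fin M → α // ∀ i : Fin M, Q i (fun k => p ⟨k, k.2.trans i.2⟩) (p i)},
        Finite {a // Q M p.1 a} := fun p => hfin M M.lt_succ_self p.1
    let f : {p : Fin (M + 1) → α // ∀ i : Fin (M + 1),
        Q i (fun k => p ⟨k, k.2.trans i.2⟩) (p i)} →
        Σ p : {p : Fin M → α // ∀ i : Fin M, Q i (fun k => p ⟨k, k.2.trans i.2⟩) (p i)},
        {a // Q M p.1 a} := fun p =>
      ⟨⟨fun i => p.1 i.castSucc, fun i => p.2 i.castSucc⟩, ⟨p.1 (Fin.last M), p.2 (Fin.last M)⟩⟩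
    have hinj : Function.Injective f := by
      intro p p' h
      have h3 := congrArg (fun s : (Σ p : {p : Fin M → α // ∀ i : Fin M,
        Q i (fun k => p ⟨k, k.2.trans i.2⟩) (p i)}, {a // Q M p.1 a}) => (s.1.1, (s.2 : α))) h
      simp only [f, Prod.mk.injEq] at h3
      apply Subtype.ext
      funext j
      refine Fin.lastCases ?_ (fun j => ?_) j
      · exact h3.2
      · exact congrFun h3.1 j
    refine ⟨Finite.of_injective f hinj, ?_⟩
    have := Fintype.ofFinite {p : Fin M → α // ∀ i : Fin M,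
      Q i (fun k => p ⟨k, k.2.trans i.2⟩) (p i)}
    have h3 := Nat.card_le_card_of_injective f hinj
    rw [Nat.card_sigma] at h3
    refine (Nat.cast_le.2 h3).trans ?_
    rw [Nat.cast_sum, Finset.prod_range_succ]
    calc _ ≤ ∑ _p : {p : Fin M → α // ∀ i : Fin M, Q i (fun k => p ⟨k, k.2.trans i.2⟩) (p i)},
          b M := Finset.sum_le_sum fun p _ => hb M M.lt_succ_self p.1 p.2
      _ = (Nat.card {p : Fin M → α // ∀ i : Fin M,
          Q i (fun k => p ⟨k, k.2.trans i.2⟩) (p i)} : ℝ) * b M := by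
          rw [Finset.sum_const, Finset.card_univ, nsmul_eq_mul, Nat.card_eq_fintype_card]
      _ ≤ _ := mul_le_mul_of_nonneg_right h2 (hb0 M)

namespace GD

variable {V Th α Z : Type} [AddCommGroup V] [Module (ZMod 2) V] [AddCommGroup Z]
  [Module (ZMod 2) Z] {G : GD V Th α Z} [Finite V]

/-- The places of one type with the restricted forms in a given set. -/
theorem card_ty_res {j : ℕ} (hj : G.ns ≤ j) (hjM : j < G.M) (p : Fin j → α) (ts : Fin j → Th)
    (hp : ∀ i : Fin j, p i ∈ G.X i ∧ G.ty (p i) = ts i) (t : Th)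
    (S : Set ((i : Fin j) → RF (G.F t) (G.F (ts i)))) :
    (Nat.card {a : α // a ∈ G.X j ∧ G.ty a = t ∧
      (fun i => (G.m a (p i)).domRestrict₁₂ (G.F t) (G.F (ts i))) ∈ S} : ℝ) *
      ∏ i : Fin j, (Nat.card (RF (G.F t) (G.F (ts i))) : ℝ) ≤ Nat.card S * G.c j t := by
  classical
  have hfin : ∀ i : Fin j, Finite (RF (G.F t) (G.F (ts i))) := fun i => finite_RF _ _
  have hXM := (G.hX j).to_subtype
  set A := {a : α // a ∈ G.X j ∧ G.ty a = t ∧
      (fun i => (G.m a (p i)).domRestrict₁₂ (G.F t) (G.F (ts i))) ∈ S} with hA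
  let B : S × (Fin j → ZMod 2) → Type := fun u => {a : α // a ∈ G.X j ∧ G.ty a = t ∧
    ∀ i, (G.m a (p i)).domRestrict₁₂ (G.F t) (G.F (ts i)) = u.1.1 i ∧ G.l a (p i) = u.2 i}
  have hBfin : ∀ u, Finite (B u) := fun u =>
    Finite.of_injective (fun a : B u => (⟨a.1, a.2.1⟩ : G.X j)) (by
      intro a b h
      exact Subtype.ext (congrArg (fun t : G.X j => (t : α)) h))
  have h1 : Nat.card A ≤ Nat.card (Σ u, B u) := by
    refine Nat.card_le_card_of_injective (fun a : A => (⟨(⟨_, a.2.2.2⟩, fun i => G.l a.1 (p i)),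
      ⟨a.1, a.2.1, a.2.2.1, fun i => ⟨rfl, rfl⟩⟩⟩ : Σ u, B u)) ?_
    intro a b h
    have h2 := congrArg (fun t : (Σ u, B u) => (t.2 : α)) h
    exact Subtype.ext h2
  have hSf : Fintype S := Fintype.ofFinite S
  rw [Nat.card_sigma] at h1
  set D : ℝ := ∏ i : Fin j, (Nat.card (RF (G.F t) (G.F (ts i))) : ℝ) with hD
  have hDpos : 0 < D := Finset.prod_pos fun j _ => by exact_mod_cast Nat.card_pos
  have h3 : (Nat.card A : ℝ) * (2 ^ j * D) ≤ 2 ^ j * (Nat.card S * G.c j t) := by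
    calc (Nat.card A : ℝ) * (2 ^ j * D) ≤ (∑ u, Nat.card (B u) : ℕ) * (2 ^ j * D) := by
          refine mul_le_mul_of_nonneg_right (by exact_mod_cast h1) (by positivity)
      _ = ∑ u, (Nat.card (B u) : ℝ) * (2 ^ j * D) := by
          rw [Nat.cast_sum, Finset.sum_mul]
      _ ≤ ∑ _u : S × (Fin j → ZMod 2), G.c j t :=
          Finset.sum_le_sum fun u _ => G.NI j hj hjM p ts hp t u.1.1 u.2
      _ = _ := by
          rw [Finset.sum_const, Finset.card_univ, nsmul_eq_mul, Fintype.card_prod,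
            Nat.card_eq_fintype_card]
          simp only [Fintype.card_fun, ZMod.card, Fintype.card_fin]
          push_cast
          ring
  have h5 : (0 : ℝ) < 2 ^ j := by positivity
  refine le_of_mul_le_mul_left ?_ h5
  calc _ = (Nat.card A : ℝ) * (2 ^ j * D) := by ring
    _ ≤ _ := h3

theorem card_ty_le {j : ℕ} (hj : G.ns ≤ j) (hjM : j < G.M) (p : Fin j → α)
    (hp : ∀ i : Fin j, p i ∈ G.X i) (t : Th) :
    (Nat.card {a : α // a ∈ G.X j ∧ G.ty a = t} : ℝ) ≤ G.c j t := by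
  have h1 := card_ty_res hj hjM p (fun i => G.ty (p i)) (fun i => ⟨hp i, rfl⟩) t Set.univ
  have hfin : ∀ i : Fin j, Finite (RF (G.F t) (G.F (G.ty (p i)))) := fun i => finite_RF _ _
  have h2 : (Nat.card (Set.univ : Set ((i : Fin j) → RF (G.F t) (G.F (G.ty (p i))))) : ℝ) =
      ∏ i : Fin j, (Nat.card (RF (G.F t) (G.F (G.ty (p i)))) : ℝ) := by
    rw [Nat.card_congr (Equiv.Set.univ _), Nat.card_pi]
    push_cast
    rfl
  have hDpos : 0 < ∏ i : Fin j, (Nat.card (RF (G.F t) (G.F (G.ty (p i)))) : ℝ) :=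
    Finset.prod_pos fun j _ => by exact_mod_cast Nat.card_pos
  rw [h2, mul_comm (∏ i : Fin j, (Nat.card (RF (G.F t) (G.F (G.ty (p i)))) : ℝ))] at h1
  have h3 := le_of_mul_le_mul_right h1 hDpos
  simpa using h3

/-- One code supported on the small places, not zero. -/
theorem card_ty_small [Inhabited Th] {j : ℕ} (hj : G.ns ≤ j) (hjM : j < G.M) (p : Fin j → α)
    (x : ℕ → V) (hp : ∀ i : Fin j, p i ∈ G.X i ∧ x i ∈ G.F (G.ty (p i)))
    (hx0 : ∀ i, G.ns ≤ i → x i = 0) (hx : ∃ i, x i ≠ 0) (g : Z) (t : Th) :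
    (Nat.card {a : α // a ∈ G.X j ∧ G.ty a = t ∧
      ∀ v ∈ G.F t, ∑ i : Fin j, G.m a (p i) v (x i) = G.zz t v g} : ℝ) * Nat.card (G.F t) ≤
      G.c j t := by
  classical
  let ts : ℕ → Th := fun k => if h : k < j then G.ty (p ⟨k, h⟩) else default
  have hts : ∀ i : Fin j, G.ty (p i) = ts i := fun i => by simp [ts]
  have hxF : ∀ i, x i ∈ G.F (ts i) := by
    intro i
    by_cases h : i < j
    · have h1 := (hp ⟨i, h⟩).2
      simp only [ts, h, dif_pos]
      exact h1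
    · rw [hx0 i (by omega)]
      exact zero_mem _
  obtain ⟨i0, hi0⟩ := hx
  have hi0' : i0 < G.ns := by
    by_contra h
    exact hi0 (hx0 i0 (by omega))
  have htp := tp_spec hi0' hi0
  set top := tp G.ns x with htop
  let S : Set ((i : Fin j) → RF (G.F t) (G.F (ts i))) :=
    {u | ∀ (_i : Unit), ∀ v : G.F t, ∑ i : Fin j, u i v ⟨x i, hxF i⟩ = G.zz t v g}
  have hS : Nat.card S * Nat.card (G.F t) ≤ ∏ i : Fin j, Nat.card (RF (G.F t) (G.F (ts i))) := by
    have h1 := card_npiv (I := Unit) (M := j) (fun i => G.F (ts i)) (G.F t) (fun _ => x)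
      (fun _ i => hxF i) (fun _ => top) (fun _ => htp.1.trans_le hj) (fun _ i hi => by
        by_cases h : i < G.ns
        · by_contra hc
          exact absurd (le_tp h hc) (not_le.2 hi)
        · exact hx0 i (by omega)) (fun s => by
        rw [Fintype.linearIndependent_iff]
        intro c hc i
        have h2 : top = s := i.2
        have h3 : ∑ i : {_i : Unit // top = s}, c i • x s = c i • x s := by
          rw [Finset.sum_eq_single i (fun i' _ hi' => absurd (Subsingleton.elim i' i) hi')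
            (fun h => absurd (mem_univ _) h)]
        rw [h3] at hc
        rcases smul_eq_zero.1 hc with h4 | h4
        · exact h4
        · rw [← h2] at h4
          exact absurd h4 htp.2) (fun _ v => G.zz t v g)
    rw [Nat.card_unique (α := Unit), pow_one] at h1
    exact h1
  have h1 := card_ty_res hj hjM p (fun i => ts i) (fun i => ⟨(hp i).1, hts i⟩) t S
  have hfin : ∀ i : Fin j, Finite (RF (G.F t) (G.F (ts i))) := fun i => finite_RF _ _
  have hXM := (G.hX j).to_subtype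
  have hDpos : 0 < ∏ i : Fin j, (Nat.card (RF (G.F t) (G.F (ts i))) : ℝ) :=
    Finset.prod_pos fun j _ => by exact_mod_cast Nat.card_pos
  have h2 : (Nat.card {a : α // a ∈ G.X j ∧ G.ty a = t ∧
      ∀ v ∈ G.F t, ∑ i : Fin j, G.m a (p i) v (x i) = G.zz t v g} : ℝ) ≤
      Nat.card {a : α // a ∈ G.X j ∧ G.ty a = t ∧
      (fun i : Fin j => (G.m a (p i)).domRestrict₁₂ (G.F t) (G.F (ts i))) ∈ S} := by
    have hf : Finite {a : α // a ∈ G.X j ∧ G.ty a = t ∧
      (fun i : Fin j => (G.m a (p i)).domRestrict₁₂ (G.F t) (G.F (ts i))) ∈ S} :=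
      Finite.of_injective (fun a => (⟨a.1, a.2.1⟩ : G.X j)) (by
        intro a b h
        exact Subtype.ext (congrArg (fun t : G.X j => (t : α)) h))
    refine Nat.cast_le.2 (Nat.card_le_card_of_injective
      (fun a : {a : α // a ∈ G.X j ∧ G.ty a = t ∧
        ∀ v ∈ G.F t, ∑ i : Fin j, G.m a (p i) v (x i) = G.zz t v g} =>
        (⟨a.1, a.2.1, a.2.2.1, fun _ v => by
          simpa [LinearMap.domRestrict₁₂_apply] using a.2.2.2 v.1 v.2⟩ :
        {a : α // a ∈ G.X j ∧ G.ty a = t ∧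
        (fun i : Fin j => (G.m a (p i)).domRestrict₁₂ (G.F t) (G.F (ts i))) ∈ S})) ?_)
    intro a b h
    exact Subtype.ext (congrArg (fun t => (t.1 : α)) h)
  have h3 : (Nat.card S : ℝ) * Nat.card (G.F t) ≤
      ∏ i : Fin j, (Nat.card (RF (G.F t) (G.F (ts i))) : ℝ) := by exact_mod_cast hS
  have hc := G.c0 j t
  refine le_of_mul_le_mul_right ?_ hDpos
  calc _ ≤ (Nat.card {a : α // a ∈ G.X j ∧ G.ty a = t ∧
      (fun i : Fin j => (G.m a (p i)).domRestrict₁₂ (G.F t) (G.F (ts i))) ∈ S} : ℝ) *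
        Nat.card (G.F t) * ∏ i : Fin j, (Nat.card (RF (G.F t) (G.F (ts i))) : ℝ) :=
        mul_le_mul_of_nonneg_right (mul_le_mul_of_nonneg_right h2 (Nat.cast_nonneg _)) hDpos.le
    _ = (Nat.card {a : α // a ∈ G.X j ∧ G.ty a = t ∧
      (fun i : Fin j => (G.m a (p i)).domRestrict₁₂ (G.F t) (G.F (ts i))) ∈ S} : ℝ) *
        (∏ i : Fin j, (Nat.card (RF (G.F t) (G.F (ts i))) : ℝ)) * Nat.card (G.F t) := by ring
    _ ≤ Nat.card S * G.c j t * Nat.card (G.F t) :=
        mul_le_mul_of_nonneg_right h1 (Nat.cast_nonneg _)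
    _ = Nat.card S * Nat.card (G.F t) * G.c j t := by ring
    _ ≤ _ := (mul_le_mul_of_nonneg_right h3 hc).trans (le_of_eq (mul_comm _ _))

variable [Fintype Th] [Inhabited Th] {A : Finset (Fin G.M)} {sp : Th → Prop}
  {K : Submodule (ZMod 2) Z} {κ δ : ℝ}

/-- The condition on the place number `j`, for the code `(g, x)`. -/
def QQ (g : Z) (x : ℕ → V) (j : ℕ) (p : Fin j → α) (a : α) : Prop :=
  a ∈ G.X j ∧ x j ∈ G.F (G.ty a) ∧ (G.ns ≤ j →
    ∀ v ∈ G.F (G.ty a), ∑ i : Fin j, G.m a (p i) v (x i) = G.zz (G.ty a) v g)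

omit [Finite V] [Fintype Th] [Inhabited Th] in
theorem finite_X (j : ℕ) (P : α → Prop) (h : ∀ a, P a → a ∈ G.X j) : Finite {a // P a} := by
  have hXM := (G.hX j).to_subtype
  exact Finite.of_injective (fun a : {a // P a} => (⟨a.1, h a.1 a.2⟩ : G.X j)) (by
    intro a b h
    exact Subtype.ext (congrArg (fun t : G.X j => (t : α)) h))

omit [Finite V] [Inhabited Th] in
theorem card_sum_ty (j : ℕ) (P : α → Prop) (h : ∀ a, P a → a ∈ G.X j) :
    (Nat.card {a // P a} : ℝ) ≤ ∑ t, (Nat.card {a // a ∈ G.X j ∧ G.ty a = t ∧ P a} : ℝ) := by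
  have hf : ∀ t, Finite {a // a ∈ G.X j ∧ G.ty a = t ∧ P a} := fun t =>
    G.finite_X j _ fun a ha => ha.1
  have h1 : Nat.card {a // P a} ≤ Nat.card (Σ t, {a // a ∈ G.X j ∧ G.ty a = t ∧ P a}) := by
    refine Nat.card_le_card_of_injective (fun a : {a // P a} =>
      (⟨G.ty a.1, ⟨a.1, h a.1 a.2, rfl, a.2⟩⟩ : Σ t, {a // a ∈ G.X j ∧ G.ty a = t ∧ P a})) ?_
    intro a b hab
    exact Subtype.ext (congrArg (fun s : (Σ t, {a // a ∈ G.X j ∧ G.ty a = t ∧ P a}) =>
      (s.2 : α)) hab)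
  rw [Nat.card_sigma] at h1
  exact_mod_cast h1

theorem GW.card_QQ (h : G.GW A sp K κ δ) (hV : 2 ≤ Nat.card V) (g : Z) (x : ℕ → V)
    (hx0 : ∀ i, G.ns ≤ i → x i = 0) (hgx : (∃ i, x i ≠ 0) ∨ g ∉ K) (j : Fin G.M)
    (hjA : j ∈ A) (p : Fin j → α) (hp : ∀ i : Fin j, p i ∈ G.X i ∧ x i ∈ G.F (G.ty (p i))) :
    (Nat.card {a // QQ (G := G) g x j p a} : ℝ) ≤ (1 + δ - κ / 2) * Nat.card (G.X j) := by
  classical
  have hj := h.ns_le j hjA
  have htot := h.tot j hj j.2
  have hκ := h.κ0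
  have hX0 : (0 : ℝ) ≤ Nat.card (G.X j) := Nat.cast_nonneg _
  refine (G.card_sum_ty j _ (fun a ha => ha.1)).trans ?_
  by_cases hx : ∃ i, x i ≠ 0
  · have h1 : ∀ t, (Nat.card {a // a ∈ G.X j ∧ G.ty a = t ∧ QQ (G := G) g x j p a} : ℝ) ≤
        G.c j t - (if sp t then G.c j t / 2 else 0) := by
      intro t
      have h2 : (Nat.card {a // a ∈ G.X j ∧ G.ty a = t ∧ QQ (G := G) g x j p a} : ℝ) ≤
          Nat.card {a : α // a ∈ G.X j ∧ G.ty a = t ∧
          ∀ v ∈ G.F t, ∑ i : Fin j, G.m a (p i) v (x i) = G.zz t v g} := by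
        have := G.finite_X j (fun a => a ∈ G.X j ∧ G.ty a = t ∧
          ∀ v ∈ G.F t, ∑ i : Fin j, G.m a (p i) v (x i) = G.zz t v g) fun a ha => ha.1
        refine Nat.cast_le.2 (Nat.card_le_card_of_injective
          (fun a : {a // a ∈ G.X j ∧ G.ty a = t ∧ QQ (G := G) g x j p a} =>
          (⟨a.1, a.2.1, a.2.2.1, fun v hv => by
            have h3 := a.2.2.2.2.2 hj v (by rw [a.2.2.1]; exact hv)
            rw [h3, a.2.2.1]⟩ : {a : α // a ∈ G.X j ∧ G.ty a = t ∧
            ∀ v ∈ G.F t, ∑ i : Fin j, G.m a (p i) v (x i) = G.zz t v g})) ?_)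
        intro a b hab
        exact Subtype.ext (congrArg (fun t => (t.1 : α)) hab)
      have h3 := card_ty_small hj j.2 p x hp hx0 hx g t
      have hc := G.c0 j t
      have hF1 : (1 : ℝ) ≤ Nat.card (G.F t) := by exact_mod_cast Nat.card_pos
      have h4 := h2.trans (le_mul_of_one_le_right (Nat.cast_nonneg _) hF1)
      split_ifs with hsp
      · have hF2 : (2 : ℝ) ≤ Nat.card (G.F t) := by
          rw [h.sp_top t hsp, Nat.card_congr
            (Submodule.topEquiv (R := ZMod 2) (M := V)).toEquiv]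
          exact_mod_cast hV
        have h5 : (Nat.card {a : α // a ∈ G.X j ∧ G.ty a = t ∧
          ∀ v ∈ G.F t, ∑ i : Fin j, G.m a (p i) v (x i) = G.zz t v g} : ℝ) * 2 ≤ G.c j t :=
          (mul_le_mul_of_nonneg_left hF2 (Nat.cast_nonneg _)).trans h3
        linarith
      · rw [sub_zero]
        exact h4.trans h3
    refine (Finset.sum_le_sum fun t _ => h1 t).trans ?_
    rw [Finset.sum_sub_distrib, ← Finset.sum_filter, ← Finset.sum_div]
    have h6 := h.spl j hjA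
    linarith
  · have hx1 : ∀ i, x i = 0 := by
      intro i
      by_contra hc
      exact hx ⟨i, hc⟩
    have hg : g ∉ K := hgx.resolve_left hx
    have h1 : ∀ t, (Nat.card {a // a ∈ G.X j ∧ G.ty a = t ∧ QQ (G := G) g x j p a} : ℝ) ≤
        G.c j t - (if ∃ v ∈ G.F t, G.zz t v g ≠ 0 then G.c j t else 0) := by
      intro t
      split_ifs with ht
      · rw [sub_self]
        obtain ⟨v, hv, hne⟩ := ht
        have : IsEmpty {a // a ∈ G.X j ∧ G.ty a = t ∧ QQ (G := G) g x j p a} := by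
          refine ⟨fun a => hne ?_⟩
          have h3 := a.2.2.2.2.2 hj v (by rw [a.2.2.1]; exact hv)
          simp only [hx1, map_zero, Finset.sum_const_zero] at h3
          rw [← a.2.2.1]
          exact h3.symm
        simp
      · rw [sub_zero]
        have h2 := card_ty_le hj j.2 p (fun i => (hp i).1) t
        refine le_trans (Nat.cast_le.2 ?_) h2
        have := G.finite_X j (fun a => a ∈ G.X j ∧ G.ty a = t) fun a ha => ha.1
        refine Nat.card_le_card_of_injective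
          (fun a : {a // a ∈ G.X j ∧ G.ty a = t ∧ QQ (G := G) g x j p a} =>
          (⟨a.1, a.2.1, a.2.2.1⟩ : {a : α // a ∈ G.X j ∧ G.ty a = t})) ?_
        intro a b hab
        exact Subtype.ext (congrArg (fun t => (t.1 : α)) hab)
    refine (Finset.sum_le_sum fun t _ => h1 t).trans ?_
    rw [Finset.sum_sub_distrib, ← Finset.sum_filter]
    have h6 := h.zr j hjA g hg
    nlinarith

omit [Finite V] [Fintype Th] [Inhabited Th] in
/-- The equation of a code supported on the small places. -/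
theorem equ_small (p : Fin G.M → α) (c : G.Cod) (x : ℕ → V)
    (hx : ∀ j : Fin G.M, x j = c.2 j) (hx0 : ∀ i, G.ns ≤ i → x i = 0) (q : Fin G.M)
    (hq : G.ns ≤ q) (v : V) :
    G.equ p c q v = G.zz (G.ty (p q)) v c.1 +
      ∑ i : Fin (q : ℕ), G.m (p q) (p ⟨i, i.2.trans q.2⟩) v (x i) := by
  classical
  unfold equ
  have h1 : c.2 q = 0 := by rw [← hx, hx0 q hq]
  rw [h1, map_zero, add_zero]
  congr 1
  let f : ℕ → ZMod 2 := fun k => if h : k < G.M then G.m (p q) (p ⟨k, h⟩) v (x k) else 0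
  have h2 : ∑ i : Fin (q : ℕ), G.m (p q) (p ⟨i, i.2.trans q.2⟩) v (x i) =
      ∑ k ∈ Finset.range q, f k := by
    rw [← Fin.sum_univ_eq_sum_range]
    refine Finset.sum_congr rfl fun i _ => ?_
    have h3 : (i : ℕ) < G.M := i.2.trans q.2
    simp only [f, h3, dif_pos]
  have h4 : ∑ q' : Fin G.M, (if q' = q then 0 else
      G.m (p q) (p q') v (c.2 q') + G.l (p q) (p q') * G.e v 0) = ∑ k ∈ Finset.range G.M, f k := by
    rw [← Fin.sum_univ_eq_sum_range]
    refine Finset.sum_congr rfl fun i _ => ?_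
    simp only [f, i.2, dif_pos, map_zero, mul_zero, add_zero, hx]
    split_ifs with h5
    · rw [h5, h1, map_zero]
    · rfl
  rw [h2, h4]
  symm
  refine Finset.sum_subset (Finset.range_subset_range.2 q.2.le) fun k hk hk' => ?_
  have h5 : G.ns ≤ k := by
    rw [Finset.mem_range] at hk'
    omega
  simp only [f, hx0 k h5, map_zero]
  split_ifs <;> rfl

/-- One code supported on the small places. -/
theorem GW.card_one (h : G.GW A sp K κ δ) (hV : 2 ≤ Nat.card V) (c : G.Cod)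
    (hc0 : ∀ j : Fin G.M, G.ns ≤ j → c.2 j = 0) (hc : ¬ (c.2 = 0 ∧ c.1 ∈ K)) :
    (Nat.card {p : Fin G.M → α // (∀ j : Fin G.M, p j ∈ G.X j) ∧ c ∈ G.Selp p} : ℝ) ≤
      (1 + δ) ^ G.M * (1 + δ - κ / 2) ^ A.card * G.pts := by
  classical
  let x : ℕ → V := fun i => if h : i < G.M then c.2 ⟨i, h⟩ else 0
  have hx : ∀ j : Fin G.M, x j = c.2 j := fun j => by simp [x]
  have hx0 : ∀ i, G.ns ≤ i → x i = 0 := by
    intro i hi
    by_cases h : i < G.M
    · simp only [x, h, dif_pos]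
      exact hc0 ⟨i, h⟩ hi
    · simp only [x, h, dif_neg, not_false_iff]
  have hgx : (∃ i, x i ≠ 0) ∨ c.1 ∉ K := by
    by_contra hcon
    push Not at hcon
    refine hc ⟨?_, hcon.2⟩
    funext j
    rw [← hx]
    exact hcon.1 j
  have hδ := h.δ0
  have hκ := h.κ0
  have hκ1 := h.κ1
  let b : ℕ → ℝ := fun j => if hj : j < G.M then
    (if (⟨j, hj⟩ : Fin G.M) ∈ A then (1 + δ - κ / 2) * Nat.card (G.X j)
      else (1 + δ) * Nat.card (G.X j)) else 0
  have hb0 : ∀ j, 0 ≤ b j := by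
    intro j
    simp only [b]
    split_ifs
    · exact mul_nonneg (by linarith) (Nat.cast_nonneg _)
    · exact mul_nonneg (by linarith) (Nat.cast_nonneg _)
    · exact le_rfl
  have key := card_seq (QQ (G := G) c.1 x) b hb0 G.M (fun j _ p =>
    G.finite_X j _ fun a ha => ha.1) (by
    intro j hj p hp
    have hp' : ∀ i : Fin j, p i ∈ G.X i ∧ x i ∈ G.F (G.ty (p i)) := fun i =>
      ⟨(hp i).1, (hp i).2.1⟩
    by_cases hjA : (⟨j, hj⟩ : Fin G.M) ∈ A
    · simp only [b, hj, dif_pos, hjA, if_pos]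
      exact h.card_QQ hV c.1 x hx0 hgx ⟨j, hj⟩ hjA p hp'
    · simp only [b, hj, dif_pos, hjA, if_neg, not_false_iff]
      have hXM := (G.hX j).to_subtype
      have h1 : (Nat.card {a // QQ (G := G) c.1 x j p a} : ℝ) ≤ Nat.card (G.X j) := by
        refine Nat.cast_le.2 (Nat.card_le_card_of_injective
          (fun a : {a // QQ (G := G) c.1 x j p a} => (⟨a.1, a.2.1⟩ : G.X j)) ?_)
        intro a b hab
        exact Subtype.ext (congrArg (fun t : G.X j => (t : α)) hab)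
      have h2 : (0 : ℝ) ≤ Nat.card (G.X j) := Nat.cast_nonneg _
      nlinarith)
  have hfin := key.1
  have h1 : (Nat.card {p : Fin G.M → α // (∀ j : Fin G.M, p j ∈ G.X j) ∧ c ∈ G.Selp p} : ℝ) ≤
      Nat.card {p : Fin G.M → α // ∀ i : Fin G.M,
        QQ (G := G) c.1 x i (fun k => p ⟨k, k.2.trans i.2⟩) (p i)} := by
    refine Nat.cast_le.2 (Nat.card_le_card_of_injective
      (fun p : {p : Fin G.M → α // (∀ j : Fin G.M, p j ∈ G.X j) ∧ c ∈ G.Selp p} =>
        (⟨p.1, fun i => ⟨p.2.1 i, by rw [hx]; exact p.2.2.1 i, fun hi v hv => ?_⟩⟩ :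
        {p : Fin G.M → α // ∀ i : Fin G.M,
        QQ (G := G) c.1 x i (fun k => p ⟨k, k.2.trans i.2⟩) (p i)})) ?_)
    · have h2 := p.2.2.2 i v hv
      rw [equ_small p.1 c x hx hx0 i hi v] at h2
      exact (CD.eq_of_add _ _ h2).symm
    · intro p p' hpp
      exact Subtype.ext (congrArg (fun s : {p : Fin G.M → α // ∀ i : Fin G.M,
        QQ (G := G) c.1 x i (fun k => p ⟨k, k.2.trans i.2⟩) (p i)} => s.1) hpp)
  refine h1.trans (key.2.trans ?_)
  rw [← Fin.prod_univ_eq_prod_range]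
  refine h.prod_le (by linarith) _ (fun j => hb0 j) (fun j => ?_) fun j hj => ?_
  · have h2 : (0 : ℝ) ≤ Nat.card (G.X j) := Nat.cast_nonneg _
    simp only [b, j.2, dif_pos]
    split_ifs
    · nlinarith
    · exact le_rfl
  · simp only [b, j.2, dif_pos, Fin.eta, hj, if_pos]
    exact le_rfl

/-- The points with a code supported on the small places which is not a coboundary. -/
theorem GW.card_sml [Finite Z] (h : G.GW A sp K κ δ) (hV : 2 ≤ Nat.card V) :
    (Nat.card {p : Fin G.M → α // (∀ j : Fin G.M, p j ∈ G.X j) ∧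
      ∃ c ∈ G.Selp p, (∀ j : Fin G.M, G.ns ≤ j → c.2 j = 0) ∧ ¬ (c.2 = 0 ∧ c.1 ∈ K)} : ℝ) ≤
      Nat.card Z * (Nat.card V : ℝ) ^ G.ns *
        ((1 + δ) ^ G.M * (1 + δ - κ / 2) ^ A.card * G.pts) := by
  classical
  let SC := {c : G.Cod // (∀ j : Fin G.M, G.ns ≤ j → c.2 j = 0) ∧ ¬ (c.2 = 0 ∧ c.1 ∈ K)}
  let Ps : SC → Type := fun c =>
    {p : Fin G.M → α // (∀ j : Fin G.M, p j ∈ G.X j) ∧ c.1 ∈ G.Selp p}
  have hXf : ∀ j : Fin G.M, Finite (G.X j) := fun j => (G.hX j).to_subtype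
  have hPf : ∀ c, Finite (Ps c) := fun c =>
    Finite.of_injective (fun p : Ps c => (fun j => ⟨p.1 j, p.2.1 j⟩ : (j : Fin G.M) → G.X j)) (by
      intro a b hab
      apply Subtype.ext
      funext j
      exact congrArg Subtype.val (congrFun hab j))
  have hSf : Fintype SC := Fintype.ofFinite _
  have h1 : Nat.card {p : Fin G.M → α // (∀ j : Fin G.M, p j ∈ G.X j) ∧
      ∃ c ∈ G.Selp p, (∀ j : Fin G.M, G.ns ≤ j → c.2 j = 0) ∧ ¬ (c.2 = 0 ∧ c.1 ∈ K)} ≤
      Nat.card (Σ c : SC, Ps c) := by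
    refine Nat.card_le_card_of_injective (fun p : {p : Fin G.M → α //
      (∀ j : Fin G.M, p j ∈ G.X j) ∧
      ∃ c ∈ G.Selp p, (∀ j : Fin G.M, G.ns ≤ j → c.2 j = 0) ∧ ¬ (c.2 = 0 ∧ c.1 ∈ K)} =>
      (⟨⟨p.2.2.choose, p.2.2.choose_spec.2⟩, ⟨p.1, p.2.1, p.2.2.choose_spec.1⟩⟩ :
        Σ c : SC, Ps c)) ?_
    intro a b hab
    exact Subtype.ext (congrArg (fun s : (Σ c : SC, Ps c) => s.2.1) hab)
  rw [Nat.card_sigma] at h1
  have h2 : (Nat.card SC : ℝ) ≤ Nat.card Z * (Nat.card V : ℝ) ^ G.ns := by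
    have h3 : Nat.card SC ≤ Nat.card (Z × (Fin G.ns → V)) := by
      refine Nat.card_le_card_of_injective (fun c : SC =>
        ((c.1.1, fun i => c.1.2 ⟨i, i.2.trans_le G.hns⟩) : Z × (Fin G.ns → V))) ?_
      intro a b hab
      simp only [Prod.mk.injEq] at hab
      apply Subtype.ext
      refine Prod.ext hab.1 ?_
      funext j
      by_cases hj : (j : ℕ) < G.ns
      · exact congrFun hab.2 ⟨j, hj⟩
      · rw [a.2.1 j (by omega), b.2.1 j (by omega)]
    rw [Nat.card_prod, Nat.card_fun, Nat.card_fin] at h3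
    exact_mod_cast h3
  have h4 : 0 ≤ (1 + δ) ^ G.M * (1 + δ - κ / 2) ^ A.card * G.pts := by
    have := h.κ1
    have := h.δ0
    exact mul_nonneg (mul_nonneg (pow_nonneg (by linarith) _) (pow_nonneg (by linarith) _))
      pts_nonneg
  refine (Nat.cast_le.2 h1).trans ?_
  rw [Nat.cast_sum]
  calc _ ≤ ∑ _c : SC, ((1 + δ) ^ G.M * (1 + δ - κ / 2) ^ A.card * G.pts) :=
        Finset.sum_le_sum fun c _ => h.card_one hV c.1 c.2.1 c.2.2
    _ = Nat.card SC * ((1 + δ) ^ G.M * (1 + δ - κ / 2) ^ A.card * G.pts) := by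
        rw [Finset.sum_const, Finset.card_univ, nsmul_eq_mul, Nat.card_eq_fintype_card]
    _ ≤ _ := mul_le_mul_of_nonneg_right h2 h4

end GD

end Pool.Agent.SmN.J
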