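import Pool.Agent.Lib.SmN.J.Fib

/-!
Project SMITH without rational 2-torsion (MP_48b749_nt), block J: the number of families of
restricted forms satisfying the equations in which they are uniform (pivot and non-pivot case).
-/

set_option autoImplicit false

open Module

namespace Pool.Agent.SmN.J

variable {V : Type} [AddCommGroup V] [Module (ZMod 2) V] [Finite V]

/-- Forms on `F' × F`. -/
abbrev RF (F' F : Submodule (ZMod 2) V) : Type := F' →ₗ[ZMod 2] F →ₗ[ZMod 2] ZMod 2

theorem finite_RF (F' F : Submodule (ZMod 2) V) : Finite (RF F' F) :=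
  Finite.of_injective (fun f : RF F' F => fun (v : F') (x : F) => f v x) (by
    intro f g h
    ext v x
    exact congrFun (congrFun h v) x)

/-- Pivot: the codes `i : I` have their last coordinate `x i` at the new place. -/
theorem card_piv {M : ℕ} {I : Type} [Finite I] (F : Fin M → Submodule (ZMod 2) V)
    (F' : Submodule (ZMod 2) V) (x : I → V) (hxF : ∀ i, x i ∈ F')
    (hx : LinearIndependent (ZMod 2) x) (NP : Finset (Fin M))
    (f : Fin M → I → V → ZMod 2) :
    Nat.card {u : (j : Fin M) → RF F' (F j) //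
      ∀ q ∈ NP, ∀ i, ∀ v : F q, u q ⟨x i, hxF i⟩ v = f q i v} *
      (∏ q ∈ NP, Nat.card (F q)) ^ Nat.card I ≤ ∏ j, Nat.card (RF F' (F j)) := by
  classical
  have hfin : ∀ j, Finite (RF F' (F j)) := fun j => finite_RF F' (F j)
  let Y : ((j : Fin M) → RF F' (F j)) →+ ((q : NP) → I → (F q.1 →ₗ[ZMod 2] ZMod 2)) :=
    { toFun := fun u q i => u q.1 ⟨x i, hxF i⟩
      map_zero' := by funext q i; simp
      map_add' := by intro a b; funext q i; simp }
  have hY : Function.Surjective Y := by
    intro t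
    have h1 : ∀ q : Fin M, ∃ g : V →ₗ[ZMod 2] (F q →ₗ[ZMod 2] ZMod 2),
        ∀ i, ∀ h : q ∈ NP, g (x i) = t ⟨q, h⟩ i := by
      intro q
      by_cases h : q ∈ NP
      · obtain ⟨g, hg⟩ := exists_lin x hx (t ⟨q, h⟩)
        exact ⟨g, fun i _ => hg i⟩
      · exact ⟨0, fun i h' => absurd h' h⟩
    choose g hg using h1
    refine ⟨fun j => (g j).domRestrict F', ?_⟩
    funext q i
    exact hg q.1 i q.2
  have h2 := card_fib Y hY {u : (j : Fin M) → RF F' (F j) | ∀ q ∈ NP, ∀ i, ∀ v : F q, u q ⟨x i, hxF i⟩ v = f q i v} (by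
    intro u hu u' hu'
    funext q i
    ext v
    exact (hu q.1 q.2 i v).trans (hu' q.1 q.2 i v).symm)
  have h3 : Nat.card ((q : NP) → I → (F q.1 →ₗ[ZMod 2] ZMod 2)) =
      (∏ q ∈ NP, Nat.card (F q)) ^ Nat.card I := by
    have := Fintype.ofFinite I
    rw [Nat.card_pi, ← Finset.prod_coe_sort NP, ← Finset.prod_pow]
    refine Finset.prod_congr rfl fun q _ => ?_
    rw [Nat.card_pi, Finset.prod_const, card_dual, Finset.card_univ,
      Nat.card_eq_fintype_card (α := I)]
  rw [h3, Nat.card_pi] at h2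
  exact h2

/-- No pivot at the new place: every code `i : I` has its last coordinate at `top i < M`. -/
theorem card_npiv {M : ℕ} {I : Type} [Finite I] (F : ℕ → Submodule (ZMod 2) V)
    (F' : Submodule (ZMod 2) V) (x : I → ℕ → V) (hxF : ∀ i j, x i j ∈ F j)
    (top : I → ℕ) (htop : ∀ i, top i < M) (hx0 : ∀ i j, top i < j → x i j = 0)
    (hind : ∀ t, LinearIndependent (ZMod 2) (fun i : {i // top i = t} => x i t))
    (f : I → V → ZMod 2) :
    Nat.card {u : (j : Fin M) → RF F' (F j) //
      ∀ i, ∀ v : F', ∑ j : Fin M, u j v ⟨x i j, hxF i j⟩ = f i v} *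
      Nat.card F' ^ Nat.card I ≤ ∏ j : Fin M, Nat.card (RF F' (F j)) := by
  classical
  have hfin : ∀ j : Fin M, Finite (RF F' (F j)) := fun j => finite_RF F' (F j)
  let Y : ((j : Fin M) → RF F' (F j)) →+ (I → (F' →ₗ[ZMod 2] ZMod 2)) :=
    { toFun := fun u i => ∑ j : Fin M, (u j).flip ⟨x i j, hxF i j⟩
      map_zero' := by funext i; ext v; simp
      map_add' := by
        intro a b; funext i; ext v
        simp [Finset.sum_add_distrib] }
  have hY : Function.Surjective Y := by
    intro t
    obtain ⟨w, hw⟩ := exists_tri x top hx0 hind t M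
    refine ⟨fun j => ((w j).domRestrict (F j)).flip, ?_⟩
    funext i
    have h1 := hw i (htop i)
    rw [← h1, ← Fin.sum_univ_eq_sum_range (fun j => w j (x i j))]
    ext v
    simp only [Y, AddMonoidHom.coe_mk, ZeroHom.coe_mk, LinearMap.flip_flip,
      LinearMap.domRestrict_apply]
  have h2 := card_fib Y hY
    {u : (j : Fin M) → RF F' (F j) | ∀ i, ∀ v : F', ∑ j : Fin M, u j v ⟨x i j, hxF i j⟩ = f i v} (by
    intro u hu u' hu'
    funext i
    ext v
    have h3 : ∀ u : (j : Fin M) → RF F' (F j), Y u i v =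
        ∑ j : Fin M, u j v ⟨x i j, hxF i j⟩ := by
      intro u
      simp [Y, LinearMap.sum_apply]
    rw [h3, h3]
    exact (hu i v).trans (hu' i v).symm)
  have h3 : Nat.card (I → (F' →ₗ[ZMod 2] ZMod 2)) = Nat.card F' ^ Nat.card I := by
    have := Fintype.ofFinite I
    rw [Nat.card_pi, Finset.prod_const, card_dual, Finset.card_univ,
      Nat.card_eq_fintype_card (α := I)]
  rw [h3, Nat.card_pi] at h2
  exact h2

end Pool.Agent.SmN.J
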