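import Pool.Agent.Lib.SmN.J.Wt

/-!
Project SMITH without rational 2-torsion (MP_48b749_nt), block J: from the explicit Selmer group to
`SelpN` and from `Typ` to `TypN`.
-/

set_option autoImplicit false

open Module Finset

namespace Pool.Agent.SmN.J

variable {G V V1 Pl : Type} [Group G] [AddCommGroup V] [DistribMulAction G V]
  [AddCommGroup V1] [Module (ZMod 2) V1] {S : Sys G V V1 Pl} {X : PSys} {cd : CData S X}
  {Geo : Subgroup G} {fr : G} {q a C : ℕ} {N1 : Subgroup G}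

theorem gd_equ (H : Hyp cd Geo fr q a C N1) {n : ℕ} (g : Grid cd n)
    (p : Fin g.M → cd.Mk) (c : cd.CodeN (Fin g.M)) (j : Fin g.M) (v : V1) :
    (gd H g).equ p c j v = zzS cd (cd.kf (cd.phx (p j))) v c.1 + sf H.hS H.hc (p j) v (c.2 j) +
      ∑ i : Fin g.M, (if i = j then 0 else mS H.hc (p i) (cd.phx (p j)) v (c.2 i) +
        cd.ch (p i).1 (cd.phx (p j)) * S.e v (c.2 j)) := rfl

theorem mem_gd_Selp (H : Hyp cd Geo fr q a C N1) {n : ℕ} (g : Grid cd n)
    (p : Fin g.M → cd.Mk) (hp : ∀ j : Fin g.M, p j ∈ g.Xs j) (c : cd.CodeN (Fin g.M))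
    (hcS : c ∈ cd.SelpN p) : c ∈ (gd H g).Selp p := by
  have hpv : cd.PVecN p := by
    intro i i' h
    by_contra hne
    rcases lt_or_gt_of_ne hne with h1 | h1
    · exact g.ne i i' h1 _ (hp i) _ (hp i') h
    · exact g.ne i' i h1 _ (hp i') _ (hp i) h.symm
  refine ⟨fun (j : Fin g.M) => ?_, fun (j : Fin g.M) v hv => ?_⟩
  · change c.2 j ∈ FK cd (cd.kf (cd.phx (p j)))
    rw [FK_kf H.hc]
    exact hcS.1 j
  · change v ∈ FK cd (cd.kf (cd.phx (p j))) at hv
    rw [FK_kf H.hc] at hv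
    have h1 := sel_eq H.hS H.hc hpv hcS j hv
    refine (gd_equ H g p c j v).trans ?_
    have h2 : ∑ i : Fin g.M, (if i = j then 0 else mS H.hc (p i) (cd.phx (p j)) v (c.2 i) +
        cd.ch (p i).1 (cd.phx (p j)) * S.e v (c.2 j)) =
        ∑ i : Fin g.M, (mS H.hc (p i) (cd.phx (p j)) v (c.2 i) +
        cd.ch (p i).1 (cd.phx (p j)) * S.e v (c.2 j)) +
        (mS H.hc (p j) (cd.phx (p j)) v (c.2 j) +
        cd.ch (p j).1 (cd.phx (p j)) * S.e v (c.2 j)) := by
      rw [← Finset.add_sum_erase _ _ (mem_univ j), if_pos rfl, zero_add,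
        ← Finset.add_sum_erase _ (fun i => mS H.hc (p i) (cd.phx (p j)) v (c.2 i) +
        cd.ch (p i).1 (cd.phx (p j)) * S.e v (c.2 j)) (mem_univ j)]
      have h3 : ∀ x y : ZMod 2, y = x + y + x := by decide
      rw [Finset.sum_congr rfl fun i hi => if_neg (Finset.ne_of_mem_erase hi)]
      exact h3 _ _
    have h4 : S.e v (cd.homN p c (cd.phx (p j))) = S.e v (cd.hb c.1 (cd.phx (p j))) +
        ∑ i : Fin g.M, mS H.hc (p i) (cd.phx (p j)) v (c.2 i) := by
      rw [CData.homN, map_add, map_sum]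
      congr 1
      exact Finset.sum_congr rfl fun i _ => (mS_apply H.hc _ _ _ (hcS.1 i)).symm
    have h5 : cd.chiN p (cd.phx (p j)) = cd.chi0 (cd.phx (p j)) +
        ∑ i, cd.ch (p i).1 (cd.phx (p j)) := rfl
    rw [h2, zzS_apply H.hS H.hc hv, Finset.sum_add_distrib, ← Finset.sum_mul]
    rw [h4, h5] at h1
    simp only [sf, LinearMap.add_apply, LinearMap.smul_apply, smul_eq_mul]
    generalize S.e v (cd.hb c.1 (cd.phx (p j))) = x1 at h1 ⊢
    generalize ∑ i : Fin g.M, mS H.hc (p i) (cd.phx (p j)) v (c.2 i) = x2 at h1 ⊢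
    generalize tau H.hS (cd.phx (p j)) v (c.2 j) = x3 at h1 ⊢
    generalize cd.chi0 (cd.phx (p j)) = x4 at h1 ⊢
    generalize ∑ i, cd.ch (p i).1 (cd.phx (p j)) = x5 at h1 ⊢
    generalize S.e v (c.2 j) = x6 at h1 ⊢
    generalize mS H.hc (p j) (cd.phx (p j)) v (c.2 j) = x7 at h1 ⊢
    generalize cd.ch (p j).1 (cd.phx (p j)) = x8 at h1 ⊢
    revert x1 x2 x3 x4 x5 x6 x7 x8
    decide

/-- Reindexing. -/
theorem reindex {J J' : Type} [Fintype J] [Fintype J'] (σ : J' ≃ J) (p : J → cd.Mk)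
    (c : cd.CodeN J) (hcS : c ∈ cd.SelpN p) :
    ((c.1, fun j => c.2 (σ j)) : cd.CodeN J') ∈ cd.SelpN (fun j => p (σ j)) := by
  have h1 : cd.homN (fun j => p (σ j)) ((c.1, fun j => c.2 (σ j)) : cd.CodeN J') =
      cd.homN p c := by
    funext s
    rw [CData.homN, CData.homN]
    congr 1
    exact Equiv.sum_comp σ (fun j => cd.bex (p j) (c.2 j) s)
  have h2 : cd.chiN (fun j => p (σ j)) = cd.chiN p := by
    funext s
    rw [CData.chiN, CData.chiN]
    congr 1
    exact Equiv.sum_comp σ (fun j => cd.ch (p j).1 s)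
  refine ⟨fun j => hcS.1 (σ j), fun j => ?_⟩
  rw [h1, h2]
  exact hcS.2 (σ j)

/-- From `Typ` to `TypN`. -/
theorem typN_of (H : Hyp cd Geo fr q a C N1) {n : ℕ} (g : Grid cd n) {J : Type} [Fintype J]
    (σ : Fin g.M ≃ J) (p : J → cd.Mk) (hp : ∀ j : Fin g.M, p (σ j) ∈ g.Xs j) {m0 : ℕ}
    {R k : ℕ} {ρ : ℝ} {N0 : ℕ} (hk : ρ * Nat.card J ≤ k)
    (hN0 : ∀ j ∈ gA g m0, N0 ≤ X.deg (p (σ j)).1)
    (hT : (gd H g).Typ (gA g m0) (spK cd) (Kb cd) R k (fun j => p (σ j))) :
    cd.TypN p R ρ N0 := by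
  classical
  have := H.hS.fin1
  have hfCod : Finite (gd H g).Cod := inferInstanceAs (Finite ((Fin cd.h → ZMod 2) × (Fin g.M → V1)))
  let f : cd.CodeN J →ₗ[ZMod 2] (gd H g).Cod :=
    { toFun := fun c => (c.1, fun j => c.2 (σ j))
      map_add' := fun _ _ => rfl
      map_smul' := fun _ _ => rfl }
  have hf : ∀ c ∈ cd.SelpN p, f c ∈ (gd H g).Selp (fun j => p (σ j)) := fun c hc =>
    mem_gd_Selp H g (fun j => p (σ j)) hp (f c) (reindex σ p c hc)
  have hfinj : Function.Injective f := by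
    intro c c' h
    have h0 : ((c.1, fun j => c.2 (σ j)) : (Fin cd.h → ZMod 2) × (Fin g.M → V1)) =
        (c'.1, fun j => c'.2 (σ j)) := h
    rw [Prod.mk.injEq] at h0
    refine Prod.ext h0.1 ?_
    funext j
    have h1 : c.2 (σ (σ.symm j)) = c'.2 (σ (σ.symm j)) := congrFun h0.2 (σ.symm j)
    simpa using h1
  refine ⟨?_, ?_⟩
  · refine le_trans ?_ hT.small
    exact Nat.card_le_card_of_injective (fun c : cd.SelpN p =>
      (⟨f c.1, hf c.1 c.2⟩ : (gd H g).Selp (fun j => p (σ j)))) (by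
        intro c c' h
        exact Subtype.ext (hfinj (congrArg Subtype.val h)))
  · intro r c hc hI w
    have hfsum : ∀ α : Fin r → ZMod 2, f (∑ i, α i • c i) = ∑ i, α i • f (c i) := by
      intro α
      rw [map_sum]
      exact Finset.sum_congr rfl fun i _ => map_smul f _ _
    have hIL : (gd H g).IndL (fun i => (f (c i)).2) := by
      intro α hα
      have h1 : ∑ i, α i • f (c i) ∈ (gd H g).Selp (fun j => p (σ j)) :=
        Submodule.sum_mem _ fun i _ => Submodule.smul_mem _ _ (hf _ (hc i))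
      have h2 := hT.sml _ h1 (fun j hj => by
        rw [Prod.snd_sum, Finset.sum_apply]
        exact hα j hj)
      refine hI α ?_
      obtain ⟨z, hz⟩ := h2.2
      refine ⟨z, hfinj ?_⟩
      rw [hfsum]
      refine Prod.ext hz.symm ?_
      rw [h2.1]
      rfl
    have hrR : r ≤ R := by
      have h1 : Nat.card (Fin r → ZMod 2) ≤ Nat.card ((gd H g).Selp (fun j => p (σ j))) := by
        refine Nat.card_le_card_of_injective (fun α : Fin r → ZMod 2 =>
          (⟨∑ i, α i • f (c i), Submodule.sum_mem _ fun i _ =>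
            Submodule.smul_mem _ _ (hf _ (hc i))⟩ : (gd H g).Selp (fun j => p (σ j)))) ?_
        intro α β h
        have h2 : ∑ i, α i • f (c i) = ∑ i, β i • f (c i) := congrArg Subtype.val h
        have h3 := hIL (α - β) (fun j _ => by
          have h4 := congrFun (congrArg Prod.snd h2) j
          rw [Prod.snd_sum, Prod.snd_sum, Finset.sum_apply, Finset.sum_apply] at h4
          simp only [Pi.sub_apply, sub_smul, Finset.sum_sub_distrib]
          rw [sub_eq_zero]
          exact h4)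
        exact sub_eq_zero.1 h3
      rw [Nat.card_fun, Nat.card_zmod, Nat.card_fin] at h1
      exact (Nat.pow_le_pow_iff_right (by norm_num)).1 (h1.trans hT.small)
    have h1 := hT.pat r hrR (fun i => f (c i)) (fun i => hf _ (hc i)) hIL w
    have h2 : Nat.card ((gd H g).pc (gA g m0) (spK cd)
        (fun j => (gd H g).ty (p (σ j))) (fun i => (f (c i)).2) w) ≤
        Nat.card {j : J // N0 ≤ X.deg (p j).1 ∧ cd.Split (p j) ∧ ∀ i, (c i).2 j = w i} := by
      refine Nat.card_le_card_of_injective (fun j : (gd H g).pc (gA g m0) (spK cd)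
        (fun j => (gd H g).ty (p (σ j))) (fun i => (f (c i)).2) w =>
        (⟨σ j.1, hN0 j.1 j.2.1, split_of_spK H.hc j.2.2.1, j.2.2.2⟩ :
          {j : J // N0 ≤ X.deg (p j).1 ∧ cd.Split (p j) ∧ ∀ i, (c i).2 j = w i})) ?_
      intro j j' h
      exact Subtype.ext (σ.injective (congrArg Subtype.val h))
    refine hk.trans ?_
    exact_mod_cast h1.trans h2

end Pool.Agent.SmN.J
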